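import Mathlib

/-!
# Hankel's formula for `1/Γ`, in logarithmic coordinates
-/

set_option autoImplicit false

open Complex Filter Topology Set MeasureTheory

namespace Pool.Agent.Q80.HK

/-- `(2π)⁻¹ ∫_{-π}^{π} G(σ + iθ) dθ + (2πi)⁻¹ ∫_σ^∞ (G(y + iπ) - G(y - iπ)) dy` -/
noncomputable def HK (σ : ℝ) (G : ℂ → ℂ) : ℂ :=
  (1 / (2 * Real.pi) : ℝ) * (∫ θ in (-Real.pi)..Real.pi, G ((σ : ℂ) + θ * I)) +
    (1 / (2 * Real.pi * I)) *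
      ∫ y in Ioi σ, (G ((y : ℂ) + Real.pi * I) - G ((y : ℂ) + ((-Real.pi : ℝ) : ℂ) * I))

/-- the boundary integral of a rectangle -/
noncomputable def RI (a b c d : ℝ) (f : ℂ → ℂ) : ℂ :=
  (∫ x in a..b, f ((x : ℂ) + c * I)) - (∫ x in a..b, f ((x : ℂ) + d * I))
    + I * (∫ y in c..d, f ((b : ℂ) + y * I)) - I * (∫ y in c..d, f ((a : ℂ) + y * I))

theorem RI_zero {a b c d : ℝ} (hab : a ≤ b) (hcd : c ≤ d) {f : ℂ → ℂ}
    (hf : ∀ w : ℂ, w.re ∈ Icc a b → w.im ∈ Icc c d → DifferentiableAt ℂ f w) :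
    RI a b c d f = 0 := by
  have h := Complex.integral_boundary_rect_eq_zero_of_differentiableOn f (⟨a, c⟩ : ℂ) (⟨b, d⟩ : ℂ)
    (fun w hw => by
      rw [mem_reProdIm] at hw
      simp only [uIcc_of_le hab, uIcc_of_le hcd] at hw
      exact (hf w hw.1 hw.2).differentiableWithinAt)
  unfold RI
  simp only [smul_eq_mul] at h
  exact h

/-- moving the left side -/
theorem HK_shift {σ₀ σ₁ : ℝ} (h01 : σ₀ ≤ σ₁) {G : ℂ → ℂ} {S : ℂ}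
    (h : RI σ₀ σ₁ (-Real.pi) Real.pi G = 2 * Real.pi * I * S)
    (c1 : IntervalIntegrable (fun y : ℝ => G ((y : ℂ) + Real.pi * I)) volume σ₀ σ₁)
    (c2 : IntervalIntegrable (fun y : ℝ => G ((y : ℂ) + ((-Real.pi : ℝ) : ℂ) * I)) volume σ₀ σ₁)
    (hi : IntegrableOn (fun y : ℝ => G ((y : ℂ) + Real.pi * I) - G ((y : ℂ) + ((-Real.pi : ℝ) : ℂ) * I))
      (Ioi σ₀)) :
    HK σ₁ G = HK σ₀ G + S := by
  have e1 : (∫ y in Ioi σ₀, (G ((y : ℂ) + Real.pi * I) - G ((y : ℂ) + ((-Real.pi : ℝ) : ℂ) * I))) =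
      (∫ y in σ₀..σ₁, (G ((y : ℂ) + Real.pi * I) - G ((y : ℂ) + ((-Real.pi : ℝ) : ℂ) * I))) +
      ∫ y in Ioi σ₁, (G ((y : ℂ) + Real.pi * I) - G ((y : ℂ) + ((-Real.pi : ℝ) : ℂ) * I)) := by
    rw [intervalIntegral.integral_of_le h01, ← setIntegral_union]
    · rw [Ioc_union_Ioi_eq_Ioi h01]
    · exact Set.Ioc_disjoint_Ioi le_rfl
    · exact measurableSet_Ioi
    · exact hi.mono_set Ioc_subset_Ioi_self
    · exact hi.mono_set (Ioi_subset_Ioi h01)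
  have e2 := intervalIntegral.integral_sub c1 c2
  unfold RI at h
  unfold HK
  rw [e1, e2]
  generalize (∫ (x : ℝ) in σ₀..σ₁, G (↑x + ↑Real.pi * I)) = P1 at h ⊢
  generalize (∫ (x : ℝ) in σ₀..σ₁, G (↑x + ((-Real.pi : ℝ) : ℂ) * I)) = P2 at h ⊢
  generalize (∫ (y : ℝ) in -Real.pi..Real.pi, G (↑σ₁ + ↑y * I)) = P3 at h ⊢
  generalize (∫ (y : ℝ) in -Real.pi..Real.pi, G (↑σ₀ + ↑y * I)) = P4 at h ⊢
  generalize (∫ (y : ℝ) in Ioi σ₁, G (↑y + ↑Real.pi * I) - G (↑y + ((-Real.pi : ℝ) : ℂ) * I)) = P5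
  have hpi : (Real.pi : ℂ) ≠ 0 := by exact_mod_cast Real.pi_ne_zero
  have hI := Complex.I_sq
  push_cast
  field_simp
  ring_nf at h ⊢
  linear_combination (1 : ℂ) * h

end Pool.Agent.Q80.HK
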