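import Pool.Agent.Q80.HK.A
import Pool.Agent.H370R2.Rect

/-!
# A simple pole inside a rectangle
-/

set_option autoImplicit false

open Complex Filter Topology Set MeasureTheory

namespace Pool.Agent.Q80.HK

theorem RI_pole {a b c d : ℝ} {p : ℂ} (ha : a < p.re) (hb : p.re < b) (hc : c < p.im)
    (hd : p.im < d) {k : ℂ → ℂ} {U : Set ℂ} (hU : IsOpen U)
    (hrect : ∀ w : ℂ, w.re ∈ Icc a b → w.im ∈ Icc c d → w ∈ U) (hk : DifferentiableOn ℂ k U) :
    RI a b c d (fun w => k w * (w - p)⁻¹) = 2 * Real.pi * I * k p := by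
  have hpU : p ∈ U := hrect p ⟨ha.le, hb.le⟩ ⟨hc.le, hd.le⟩
  have hds : DifferentiableOn ℂ (dslope k p) U :=
    (Complex.differentiableOn_dslope (hU.mem_nhds hpU)).2 hk
  have h0 : RI a b c d (dslope k p) = 0 :=
    RI_zero (ha.trans hb).le (hc.trans hd).le
      (fun w h1 h2 => (hds w (hrect w h1 h2)).differentiableAt (hU.mem_nhds (hrect w h1 h2)))
  have h1 := H370.rect_inv a b c d p ha hb hc hd
  have key : ∀ w : ℂ, w ≠ p → k w * (w - p)⁻¹ = dslope k p w + k p * (w - p)⁻¹ := by
    intro w hw
    rw [dslope_of_ne _ hw, slope_def_field]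
    have : w - p ≠ 0 := sub_ne_zero.2 hw
    field_simp
    ring
  have hcont : ContinuousOn (dslope k p) U := hds.continuousOn
  -- the four sides
  have side : ∀ (γ : ℝ → ℂ) (u v : ℝ), u ≤ v → Continuous γ → (∀ t ∈ Icc u v, γ t ∈ U) →
      (∀ t ∈ Icc u v, γ t ≠ p) →
      (∫ t in u..v, k (γ t) * (γ t - p)⁻¹) =
        (∫ t in u..v, dslope k p (γ t)) + k p * ∫ t in u..v, (γ t - p)⁻¹ := by
    intro γ u v huv hγ hγU hγp
    have i1 : IntervalIntegrable (fun t => dslope k p (γ t)) volume u v := by
      apply ContinuousOn.intervalIntegrable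
      rw [uIcc_of_le huv]
      exact hcont.comp hγ.continuousOn hγU
    have i2 : IntervalIntegrable (fun t => k p * (γ t - p)⁻¹) volume u v := by
      apply ContinuousOn.intervalIntegrable
      rw [uIcc_of_le huv]
      exact continuousOn_const.mul ((hγ.continuousOn.sub continuousOn_const).inv₀
        (fun t ht => sub_ne_zero.2 (hγp t ht)))
    rw [← intervalIntegral.integral_const_mul, ← intervalIntegral.integral_add i1 i2]
    apply intervalIntegral.integral_congr
    intro t ht
    rw [uIcc_of_le huv] at ht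
    exact key _ (hγp t ht)
  have hab := (ha.trans hb).le
  have hcd := (hc.trans hd).le
  have s1 := side (fun x : ℝ => (x : ℂ) + c * I) a b hab (by fun_prop)
    (fun t ht => hrect _ (by simpa using ht) (by simpa using hcd))
    (fun t ht h => by have := congrArg Complex.im h; simp at this; linarith)
  have s2 := side (fun x : ℝ => (x : ℂ) + d * I) a b hab (by fun_prop)
    (fun t ht => hrect _ (by simpa using ht) (by simpa using hcd))
    (fun t ht h => by have := congrArg Complex.im h; simp at this; linarith)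
  have s3 := side (fun y : ℝ => (b : ℂ) + y * I) c d hcd (by fun_prop)
    (fun t ht => hrect _ (by simpa using hab) (by simpa using ht))
    (fun t ht h => by have := congrArg Complex.re h; simp at this; linarith)
  have s4 := side (fun y : ℝ => (a : ℂ) + y * I) c d hcd (by fun_prop)
    (fun t ht => hrect _ (by simpa using hab) (by simpa using ht))
    (fun t ht h => by have := congrArg Complex.re h; simp at this; linarith)
  unfold RI at h0 ⊢
  simp only [s1, s2, s3, s4]
  linear_combination h0 + k p * h1

/-- cutting a rectangle horizontally -/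
theorem RI_split {a b c m d : ℝ} {f : ℂ → ℂ}
    (ha : ∀ u v : ℝ, (u = c ∨ u = m) → (v = m ∨ v = d) →
      IntervalIntegrable (fun y : ℝ => f ((a : ℂ) + y * I)) volume u v)
    (hb : ∀ u v : ℝ, (u = c ∨ u = m) → (v = m ∨ v = d) →
      IntervalIntegrable (fun y : ℝ => f ((b : ℂ) + y * I)) volume u v) :
    RI a b c d f = RI a b c m f + RI a b m d f := by
  have h1 := intervalIntegral.integral_add_adjacent_intervals (ha c m (Or.inl rfl) (Or.inl rfl))
    (ha m d (Or.inr rfl) (Or.inr rfl))
  have h2 := intervalIntegral.integral_add_adjacent_intervals (hb c m (Or.inl rfl) (Or.inl rfl))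
    (hb m d (Or.inr rfl) (Or.inr rfl))
  unfold RI
  rw [← h1, ← h2]
  ring

/-- `(1 - e^{-α u}) / u` -/
noncomputable def phi (α : ℝ) (u : ℂ) : ℂ := dslope (fun u : ℂ => 1 - exp (-(α * u))) 0 u

theorem phi_diff (α : ℝ) : Differentiable ℂ (phi α) := by
  have h : DifferentiableOn ℂ (dslope (fun u : ℂ => 1 - exp (-(α * u))) 0) univ :=
    (Complex.differentiableOn_dslope univ_mem).2 (by fun_prop)
  exact differentiableOn_univ.1 h

theorem phi_zero (α : ℝ) : phi α 0 = α := by
  unfold phi
  rw [dslope_same]
  have h : HasDerivAt (fun u : ℂ => 1 - exp (-(α * u))) (α : ℂ) 0 := by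
    have h1 : HasDerivAt (fun u : ℂ => -((α : ℂ) * u)) (-(α * 1)) 0 :=
      ((hasDerivAt_id (0 : ℂ)).const_mul (α : ℂ)).neg
    have h2 := (h1.cexp).const_sub 1
    simpa using h2
  exact h.deriv

theorem phi_ne (α : ℝ) {u : ℂ} (hu : u ≠ 0) : phi α u = (1 - exp (-(α * u))) / u := by
  unfold phi
  rw [dslope_of_ne _ hu, slope_def_field]
  simp

theorem exp_eq_one_strip {α : ℝ} (hα : 0 < α) {u : ℂ} (h : exp (-(α * u)) = 1)
    (h1 : |u.im| < 2 * Real.pi / α) : u = 0 := by
  rw [Complex.exp_eq_one_iff] at h
  obtain ⟨n, hn⟩ := h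
  have hre := congrArg Complex.re hn
  have him := congrArg Complex.im hn
  simp at hre him
  have e1 : u.re = 0 := by
    rcases hre with h | h
    · exact absurd h hα.ne'
    · exact h
  have hπ := Real.pi_pos
  have e2 : n = 0 := by
    by_contra hn0
    have : (1 : ℝ) ≤ |(n : ℝ)| := by exact_mod_cast Int.one_le_abs hn0
    have h2 : |α * u.im| = |(n : ℝ)| * (2 * Real.pi) := by
      rw [← abs_neg, him, abs_mul, abs_of_pos (by positivity : (0 : ℝ) < 2 * Real.pi)]
    rw [abs_mul, abs_of_pos hα] at h2
    rw [lt_div_iff₀ hα] at h1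
    nlinarith
  subst e2
  have e3 : u.im = 0 := by
    simp at him
    rcases him with h | h
    · exact absurd h hα.ne'
    · exact h
  exact Complex.ext (by simp [e1]) (by simp [e3])

/-- the residue of `h(w) / (1 - e^{-α(w-p)})` at `p` -/
theorem RI_res {a b c d α : ℝ} (hα : 0 < α) {p : ℂ} (ha : a < p.re) (hb : p.re < b)
    (hc : c < p.im) (hd : p.im < d) (hc' : p.im - c < 2 * Real.pi / α)
    (hd' : d - p.im < 2 * Real.pi / α) {h : ℂ → ℂ} (hh : Differentiable ℂ h) :
    RI a b c d (fun w => h w / (1 - exp (-(α * (w - p))))) = 2 * Real.pi * I * (h p / α) := by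
  have hne : ∀ w : ℂ, |(w - p).im| < 2 * Real.pi / α → phi α (w - p) ≠ 0 := by
    intro w hw
    by_cases h0 : w - p = 0
    · rw [h0, phi_zero]
      exact_mod_cast hα.ne'
    · rw [phi_ne α h0]
      refine div_ne_zero ?_ h0
      intro h1
      exact h0 (exp_eq_one_strip hα (by linear_combination -h1) hw)
  have hU : IsOpen {w : ℂ | |(w - p).im| < 2 * Real.pi / α} := by
    apply isOpen_lt
    · exact (Complex.continuous_im.comp (continuous_id.sub continuous_const)).abs
    · exact continuous_const
  have h1 := RI_pole ha hb hc hd (k := fun w => h w / phi α (w - p)) hU (by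
    intro w _ hw
    simp only [mem_setOf_eq, sub_im, abs_lt]
    constructor <;> linarith [hw.1, hw.2]) (by
    intro w hw
    have : DifferentiableAt ℂ (fun w => h w / phi α (w - p)) w := by
      refine (hh w).div ?_ (hne w hw)
      exact (phi_diff α).differentiableAt.comp w (differentiableAt_id.sub_const p)
    exact this.differentiableWithinAt)
  simp only [sub_self, phi_zero] at h1
  rw [← h1]
  have key : ∀ w : ℂ, w ≠ p → h w / (1 - exp (-(α * (w - p)))) = h w / phi α (w - p) * (w - p)⁻¹ := by
    intro w hw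
    have h2 : w - p ≠ 0 := sub_ne_zero.2 hw
    rw [phi_ne α h2]
    by_cases h3 : 1 - exp (-(α * (w - p))) = 0
    · rw [h3]; simp
    · field_simp
  have hab := (ha.trans hb).le
  have hcd := (hc.trans hd).le
  have side : ∀ (γ : ℝ → ℂ) (u v : ℝ), (∀ t, γ t ≠ p) →
      (∫ t in u..v, h (γ t) / (1 - exp (-(α * (γ t - p))))) =
        (∫ t in u..v, h (γ t) / phi α (γ t - p) * (γ t - p)⁻¹) := by
    intro γ u v hγ
    apply intervalIntegral.integral_congr
    intro t _
    exact key _ (hγ t)
  unfold RI
  rw [side (fun x : ℝ => (x : ℂ) + c * I) a b (fun t h => by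
      have := congrArg Complex.im h; simp at this; linarith),
    side (fun x : ℝ => (x : ℂ) + d * I) a b (fun t h => by
      have := congrArg Complex.im h; simp at this; linarith),
    side (fun y : ℝ => (b : ℂ) + y * I) c d (fun t h => by
      have := congrArg Complex.re h; simp at this; linarith),
    side (fun y : ℝ => (a : ℂ) + y * I) c d (fun t h => by
      have := congrArg Complex.re h; simp at this; linarith)]

end Pool.Agent.Q80.HK
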