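import Pool.Agent.Q80.HK.B

/-!
# Hankel's formula `1/Γ(s)` for real `s > 0`
-/

set_option autoImplicit false

open Complex Filter Topology Set MeasureTheory

namespace Pool.Agent.Q80.HK

/-- the integrand of Hankel's formula -/
noncomputable def N (s : ℝ) (w : ℂ) : ℂ := exp (exp w + (1 - s) * w)

theorem N_diff (s : ℝ) : Differentiable ℂ (N s) := by
  unfold N; fun_prop

theorem N_cont (s : ℝ) : Continuous (N s) := (N_diff s).continuous

/-- the real integrand on the cut -/
noncomputable def E0 (c : ℝ) (y : ℝ) : ℝ := Real.exp (-Real.exp y + c * y)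

theorem E0_cont (c : ℝ) : Continuous (E0 c) := by unfold E0; fun_prop

theorem E0_pos (c y : ℝ) : 0 < E0 c y := Real.exp_pos _

theorem E0_eq (c y : ℝ) :
    E0 c y = |Real.exp y| • (Real.exp (-Real.exp y) * (Real.exp y) ^ (c - 1)) := by
  unfold E0
  rw [abs_of_pos (Real.exp_pos y), smul_eq_mul, ← Real.exp_mul, ← Real.exp_add, ← Real.exp_add]
  congr 1
  ring

theorem E0_integrable {c : ℝ} (hc : 0 < c) : Integrable (E0 c) := by
  have h := Real.GammaIntegral_convergent hc
  have h2 : Ioi (0 : ℝ) = Real.exp '' univ := by rw [image_univ, Real.range_exp]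
  rw [h2, integrableOn_image_iff_integrableOn_abs_deriv_smul MeasurableSet.univ
    (fun x _ => (Real.hasDerivAt_exp x).hasDerivWithinAt) (Real.exp_injective.injOn)] at h
  rw [integrableOn_univ] at h
  refine h.congr (ae_of_all _ fun y => ?_)
  exact (E0_eq c y).symm

theorem E0_integral {c : ℝ} (hc : 0 < c) : ∫ y, E0 c y = Real.Gamma c := by
  rw [Real.Gamma_eq_integral hc]
  have h2 : Ioi (0 : ℝ) = Real.exp '' univ := by rw [image_univ, Real.range_exp]
  rw [h2, integral_image_eq_integral_abs_deriv_smul MeasurableSet.univ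
    (fun x _ => (Real.hasDerivAt_exp x).hasDerivWithinAt) (Real.exp_injective.injOn)]
  rw [setIntegral_univ]
  exact integral_congr_ae (ae_of_all _ fun y => E0_eq c y)

theorem E0_integrableOn (c σ : ℝ) : IntegrableOn (E0 c) (Ioi σ) := by
  have h1 : Integrable (E0 (|c| + 1)) := E0_integrable (by positivity)
  refine (h1.const_mul (Real.exp ((c - (|c| + 1)) * σ))).integrableOn.mono'
    (E0_cont c).aestronglyMeasurable ?_
  refine (ae_restrict_iff' measurableSet_Ioi).2 (ae_of_all _ fun y hy => ?_)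
  have hy' : σ < y := hy
  rw [Real.norm_of_nonneg (E0_pos c y).le]
  unfold E0
  rw [← Real.exp_add]
  apply Real.exp_le_exp.2
  have : c - (|c| + 1) ≤ 0 := by linarith [le_abs_self c]
  nlinarith

theorem N_line_pos (s y : ℝ) :
    N s ((y : ℂ) + Real.pi * I) = (E0 (1 - s) y : ℂ) * exp (Real.pi * (1 - s) * I) := by
  unfold N E0
  rw [Complex.ofReal_exp, ← Complex.exp_add, Complex.exp_add (y : ℂ), Complex.exp_pi_mul_I]
  congr 1
  push_cast
  ring

theorem N_line_neg (s y : ℝ) :
    N s ((y : ℂ) + ((-Real.pi : ℝ) : ℂ) * I) =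
      (E0 (1 - s) y : ℂ) * exp (-(Real.pi * (1 - s) * I)) := by
  have h : exp (((-Real.pi : ℝ) : ℂ) * I) = -1 := by
    rw [show ((-Real.pi : ℝ) : ℂ) * I = -(Real.pi * I) by push_cast; ring, Complex.exp_neg,
      Complex.exp_pi_mul_I]
    norm_num
  unfold N E0
  rw [Complex.ofReal_exp, ← Complex.exp_add, Complex.exp_add (y : ℂ), h]
  congr 1
  push_cast
  ring

theorem N_diff_line (s y : ℝ) :
    N s ((y : ℂ) + Real.pi * I) - N s ((y : ℂ) + ((-Real.pi : ℝ) : ℂ) * I) =
      (2 * Real.sin (Real.pi * s) * I) * (E0 (1 - s) y : ℂ) := by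
  rw [N_line_pos, N_line_neg]
  have h1 : exp (Real.pi * (1 - s) * I) - exp (-(Real.pi * (1 - s) * I)) =
      2 * Real.sin (Real.pi * s) * I := by
    have h2 : (Real.sin (Real.pi * s) : ℂ) = Complex.sin (Real.pi * (1 - s)) := by
      rw [show (Real.pi * (1 - s) : ℂ) = ((Real.pi * (1 - s) : ℝ) : ℂ) by push_cast; ring,
        ← Complex.ofReal_sin]
      congr 1
      rw [show Real.pi * (1 - s) = Real.pi - Real.pi * s by ring, Real.sin_pi_sub]
    rw [h2, Complex.sin]
    have hI := Complex.I_sq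
    have e3 : -((Real.pi : ℂ) * (1 - s)) * I = -(Real.pi * (1 - s) * I) := by ring
    rw [e3]
    linear_combination (exp (Real.pi * (1 - s) * I) - exp (-(Real.pi * (1 - s) * I))) * hI
  linear_combination (E0 (1 - s) y : ℂ) * h1

theorem N_circle_norm (s σ θ : ℝ) :
    ‖N s ((σ : ℂ) + θ * I)‖ ≤ Real.exp (Real.exp σ + (1 - s) * σ) := by
  unfold N
  rw [Complex.norm_exp]
  apply Real.exp_le_exp.2
  have h1 : (exp ((σ : ℂ) + θ * I)).re ≤ Real.exp σ := by
    refine (Complex.re_le_norm _).trans ?_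
    rw [Complex.norm_exp]
    simp
  have h2 : ((1 - (s : ℂ)) * ((σ : ℂ) + θ * I)).re = (1 - s) * σ := by
    simp
  rw [Complex.add_re, h2]
  linarith

/-- `HK` of `N s` does not depend on `σ` -/
theorem HK_N_const (s : ℝ) {σ₀ σ₁ : ℝ} (h01 : σ₀ ≤ σ₁) : HK σ₁ (N s) = HK σ₀ (N s) := by
  have h := HK_shift (S := 0) h01 (G := N s) (by
      rw [mul_zero]
      exact RI_zero h01 (by linarith [Real.pi_pos]) (fun w _ _ => (N_diff s) w))
    (Continuous.intervalIntegrable (by have := N_cont s; fun_prop) _ _)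
    (Continuous.intervalIntegrable (by have := N_cont s; fun_prop) _ _)
    (by
      simp only [N_diff_line]
      exact (E0_integrableOn (1 - s) σ₀).ofReal.const_mul _)
  rw [h, add_zero]

theorem HK_N_eq (s σ : ℝ) : HK σ (N s) =
    (1 / (2 * Real.pi) : ℝ) * (∫ θ in (-Real.pi)..Real.pi, N s ((σ : ℂ) + θ * I)) +
      (Real.sin (Real.pi * s) / Real.pi : ℝ) * ((∫ y in Ioi σ, E0 (1 - s) y : ℝ) : ℂ) := by
  unfold HK
  simp only [N_diff_line]
  rw [integral_const_mul, integral_complex_ofReal]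
  have hpi : (Real.pi : ℂ) ≠ 0 := by exact_mod_cast Real.pi_ne_zero
  generalize ((∫ y in Ioi σ, E0 (1 - s) y : ℝ) : ℂ) = P
  push_cast
  congr 1
  field_simp

/-- limit `σ → -∞` of the ray -/
theorem ray_tendsto {f : ℝ → ℂ} (hf : Integrable f) :
    Tendsto (fun σ : ℝ => ∫ y in Ioi σ, f y) atBot (𝓝 (∫ y, f y)) :=
  (aecover_Ioi (μ := volume) (tendsto_id (α := ℝ) (x := atBot))).integral_tendsto_of_countably_generated hf

theorem hankel_lt {s : ℝ} (hs : 0 < s) (hs1 : s < 1) (σ : ℝ) :
    HK σ (N s) = ((1 / Real.Gamma s : ℝ) : ℂ) := by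
  have hc : 0 < 1 - s := by linarith
  have hpi := Real.pi_pos
  -- the limit
  have t1 : Tendsto (fun σ' : ℝ => HK σ' (N s)) atBot
      (𝓝 (((1 / (2 * Real.pi) : ℝ) : ℂ) * 0 + ((Real.sin (Real.pi * s) / Real.pi : ℝ) : ℂ) *
        ((Real.Gamma (1 - s) : ℝ) : ℂ))) := by
    simp only [HK_N_eq]
    refine Tendsto.add (Tendsto.const_mul _ ?_) (Tendsto.const_mul _ ?_)
    · have hlim : Tendsto (fun σ' : ℝ => Real.exp (Real.exp σ' + (1 - s) * σ') *
          |Real.pi - (-Real.pi)|) atBot (𝓝 0) := by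
        have h1 : Tendsto (fun σ' : ℝ => Real.exp (Real.exp σ' + (1 - s) * σ')) atBot (𝓝 0) := by
          apply Real.tendsto_exp_atBot.comp
          refine Tendsto.add_atBot (C := 0) Real.tendsto_exp_atBot ?_
          exact Tendsto.const_mul_atBot hc tendsto_id
        simpa using h1.mul_const |Real.pi - (-Real.pi)|
      refine squeeze_zero_norm (fun σ' => ?_) hlim
      exact intervalIntegral.norm_integral_le_of_norm_le_const
        (fun θ _ => N_circle_norm s σ' θ)
    · have h2 := ray_tendsto (f := fun y => (E0 (1 - s) y : ℂ)) (E0_integrable hc).ofReal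
      rw [integral_complex_ofReal, E0_integral hc] at h2
      refine h2.congr fun σ' => ?_
      rw [integral_complex_ofReal]
  have t2 : Tendsto (fun σ' : ℝ => HK σ' (N s)) atBot (𝓝 (HK σ (N s))) := by
    refine tendsto_const_nhds.congr' ?_
    filter_upwards [eventually_le_atBot σ] with σ' h'
    exact HK_N_const s h'
  rw [tendsto_nhds_unique t2 t1, mul_zero, zero_add, ← Complex.ofReal_mul]
  congr 1
  have h3 := Real.Gamma_mul_Gamma_one_sub s
  have h4 : Real.sin (Real.pi * s) ≠ 0 := by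
    apply ne_of_gt
    apply Real.sin_pos_of_pos_of_lt_pi (by positivity)
    nlinarith
  have h5 : Real.Gamma s ≠ 0 := (Real.Gamma_pos_of_pos hs).ne'
  field_simp
  rw [mul_assoc, mul_comm (Real.Gamma (1 - s)), h3]
  field_simp

theorem hankel_one (σ : ℝ) : HK σ (N 1) = 1 := by
  have hpi := Real.pi_pos
  have e : ∀ σ' : ℝ, HK σ' (N 1) =
      (1 / (2 * Real.pi) : ℝ) * (∫ θ in (-Real.pi)..Real.pi, N 1 ((σ' : ℂ) + θ * I)) := by
    intro σ'
    rw [HK_N_eq]
    simp
  have t1 : Tendsto (fun σ' : ℝ => HK σ' (N 1)) atBot (𝓝 1) := by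
    have h0 : ∀ᶠ σ' : ℝ in atBot, Real.exp σ' < 1 :=
      (Real.tendsto_exp_atBot).eventually (gt_mem_nhds one_pos)
    have h1 : Tendsto (fun σ' : ℝ => 2 * Real.exp σ') atBot (𝓝 0) := by
      simpa using Real.tendsto_exp_atBot.const_mul 2
    rw [tendsto_iff_norm_sub_tendsto_zero]
    refine squeeze_zero' (Eventually.of_forall fun _ => norm_nonneg _) ?_ h1
    filter_upwards [h0] with σ' hσ'
    rw [e]
    have h2 : ((1 / (2 * Real.pi) : ℝ) : ℂ) * (∫ θ in (-Real.pi)..Real.pi, N 1 ((σ' : ℂ) + θ * I)) - 1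
        = ((1 / (2 * Real.pi) : ℝ) : ℂ) *
          ∫ θ in (-Real.pi)..Real.pi, (N 1 ((σ' : ℂ) + θ * I) - 1) := by
      rw [intervalIntegral.integral_sub
        (Continuous.intervalIntegrable (by have := N_cont 1; fun_prop) _ _) (by simp)]
      simp only [intervalIntegral.integral_const]
      have hpi' : (Real.pi : ℂ) ≠ 0 := by exact_mod_cast Real.pi_ne_zero
      generalize (∫ θ in (-Real.pi)..Real.pi, N 1 ((σ' : ℂ) + θ * I)) = P
      simp only [Complex.real_smul]
      push_cast
      field_simp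
      ring
    rw [h2, norm_mul]
    have h3 : ‖∫ θ in (-Real.pi)..Real.pi, (N 1 ((σ' : ℂ) + θ * I) - 1)‖ ≤
        2 * Real.exp σ' * |Real.pi - -Real.pi| := by
      apply intervalIntegral.norm_integral_le_of_norm_le_const
      intro θ _
      unfold N
      have h4 : ‖exp ((σ' : ℂ) + θ * I)‖ = Real.exp σ' := by rw [Complex.norm_exp]; simp
      have h5 := Complex.norm_exp_sub_one_le (x := exp ((σ' : ℂ) + θ * I)) (by rw [h4]; exact hσ'.le)
      rw [h4] at h5
      simpa using h5
    rw [Complex.norm_of_nonneg (by positivity)]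
    rw [show |Real.pi - -Real.pi| = 2 * Real.pi by rw [abs_of_pos (by linarith)]; ring] at h3
    calc 1 / (2 * Real.pi) * _ ≤ 1 / (2 * Real.pi) * (2 * Real.exp σ' * (2 * Real.pi)) := by gcongr
      _ = 2 * Real.exp σ' := by field_simp
  have t2 : Tendsto (fun σ' : ℝ => HK σ' (N 1)) atBot (𝓝 (HK σ (N 1))) := by
    refine tendsto_const_nhds.congr' ?_
    filter_upwards [eventually_le_atBot σ] with σ' h'
    exact HK_N_const 1 h'
  exact tendsto_nhds_unique t2 t1

/-- integration by parts on the ray -/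
theorem ray_rec (c σ : ℝ) :
    (∫ y in Ioi σ, E0 (c + 1) y) = c * (∫ y in Ioi σ, E0 c y) + E0 c σ := by
  have hd : ∀ y : ℝ, HasDerivAt (E0 c) (-E0 (c + 1) y + c * E0 c y) y := by
    intro y
    have h1 : HasDerivAt (fun y : ℝ => -Real.exp y + c * y) (-Real.exp y + c * 1) y :=
      (Real.hasDerivAt_exp y).neg.add ((hasDerivAt_id y).const_mul c)
    have h2 := h1.exp
    have e : Real.exp (-Real.exp y + c * y) * (-Real.exp y + c * 1) =
        -E0 (c + 1) y + c * E0 c y := by
      unfold E0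
      rw [show -Real.exp y + (c + 1) * y = (-Real.exp y + c * y) + y by ring,
        Real.exp_add (-Real.exp y + c * y) y]
      ring
    rw [e] at h2
    exact h2
  have hlim : Tendsto (E0 c) atTop (𝓝 0) := by
    unfold E0
    apply Real.tendsto_exp_atBot.comp
    have h1 : Tendsto (fun y : ℝ => Real.exp y - c * y) atTop atTop := by
      have h2 := (Real.tendsto_exp_div_pow_atTop 1)
      simp only [pow_one] at h2
      have h3 : Tendsto (fun y : ℝ => y * (Real.exp y / y - c)) atTop atTop :=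
        tendsto_id.atTop_mul_atTop₀ (tendsto_atTop_add_const_right _ _ h2)
      refine h3.congr' ?_
      filter_upwards [eventually_gt_atTop 0] with y hy
      field_simp
    have h4 := tendsto_neg_atTop_atBot.comp h1
    refine h4.congr fun y => ?_
    simp only [Function.comp]
    ring
  have h := integral_Ioi_of_hasDerivAt_of_tendsto (a := σ) (m := 0) (f := E0 c)
    (f' := fun y => -E0 (c + 1) y + c * E0 c y) (E0_cont c).continuousWithinAt (fun y _ => hd y)
    ((E0_integrableOn (c + 1) σ).neg.add ((E0_integrableOn c σ).const_mul c)) hlim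
  have h2 : (∫ y in Ioi σ, (-E0 (c + 1) y + c * E0 c y)) =
      -(∫ y in Ioi σ, E0 (c + 1) y) + c * ∫ y in Ioi σ, E0 c y := by
    rw [← integral_neg, ← integral_const_mul]
    exact integral_add (E0_integrableOn (c + 1) σ).neg ((E0_integrableOn c σ).const_mul c)
  rw [h2] at h
  linarith

theorem N_hasDeriv (s : ℝ) (w : ℂ) : HasDerivAt (N (s + 1)) (N s w - s * N (s + 1) w) w := by
  have h1 : HasDerivAt (fun w : ℂ => exp w + (1 - ((s + 1 : ℝ) : ℂ)) * w)
      (exp w + (1 - ((s + 1 : ℝ) : ℂ)) * 1) w :=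
    (Complex.hasDerivAt_exp w).add ((hasDerivAt_id w).const_mul _)
  have h2 := h1.cexp
  have e : exp (exp w + (1 - ((s + 1 : ℝ) : ℂ)) * w) * (exp w + (1 - ((s + 1 : ℝ) : ℂ)) * 1) =
      N s w - s * N (s + 1) w := by
    unfold N
    push_cast
    rw [show exp w + (1 - (s : ℂ)) * w = (exp w + (1 - (s + 1)) * w) + w by ring,
      Complex.exp_add (exp w + (1 - (s + 1)) * w) w]
    ring
  rw [e] at h2
  exact h2

theorem circle_rec (s σ : ℝ) :
    (∫ θ in (-Real.pi)..Real.pi, N s ((σ : ℂ) + θ * I)) =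
      s * (∫ θ in (-Real.pi)..Real.pi, N (s + 1) ((σ : ℂ) + θ * I)) -
        2 * Real.sin (Real.pi * s) * (E0 (-s) σ : ℂ) := by
  have hd : ∀ θ : ℝ, HasDerivAt (fun θ : ℝ => N (s + 1) ((σ : ℂ) + θ * I))
      ((N s ((σ : ℂ) + θ * I) - s * N (s + 1) ((σ : ℂ) + θ * I)) * I) θ := by
    intro θ
    have h1 : HasDerivAt (fun θ : ℝ => (σ : ℂ) + θ * I) I θ := by
      simpa using (((Complex.ofRealCLM.hasDerivAt (x := θ)).mul_const I).const_add (σ : ℂ))
    exact HasDerivAt.comp θ (h₂ := N (s + 1)) (h := fun θ : ℝ => (σ : ℂ) + θ * I)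
      (N_hasDeriv s ((σ : ℂ) + θ * I)) h1
  have c1 := N_cont s
  have c2 := N_cont (s + 1)
  have h := intervalIntegral.integral_eq_sub_of_hasDerivAt (a := -Real.pi) (b := Real.pi)
    (fun θ _ => hd θ) (Continuous.intervalIntegrable (by fun_prop) _ _)
  rw [N_diff_line (s + 1) σ, intervalIntegral.integral_mul_const, intervalIntegral.integral_sub
    (Continuous.intervalIntegrable (by fun_prop) _ _)
    (Continuous.intervalIntegrable (by fun_prop) _ _), intervalIntegral.integral_const_mul] at h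
  have e1 : Real.sin (Real.pi * (s + 1)) = - Real.sin (Real.pi * s) := by
    rw [show Real.pi * (s + 1) = Real.pi * s + Real.pi by ring, Real.sin_add_pi]
  have e2 : (1 : ℝ) - (s + 1) = -s := by ring
  rw [e1, e2] at h
  generalize (∫ θ in (-Real.pi)..Real.pi, N s ((σ : ℂ) + θ * I)) = P at h ⊢
  generalize (∫ θ in (-Real.pi)..Real.pi, N (s + 1) ((σ : ℂ) + θ * I)) = Q at h ⊢
  have hI := Complex.I_ne_zero
  apply mul_right_cancel₀ hI
  push_cast at h ⊢
  linear_combination h

theorem hankel_rec (s σ : ℝ) : HK σ (N s) = s * HK σ (N (s + 1)) := by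
  rw [HK_N_eq, HK_N_eq, circle_rec]
  have h1 := ray_rec (-s) σ
  have e1 : Real.sin (Real.pi * (s + 1)) = - Real.sin (Real.pi * s) := by
    rw [show Real.pi * (s + 1) = Real.pi * s + Real.pi by ring, Real.sin_add_pi]
  rw [show -s + 1 = 1 - s by ring] at h1
  rw [e1, h1, show 1 - (s + 1) = -s by ring]
  generalize (∫ θ in (-Real.pi)..Real.pi, N (s + 1) ((σ : ℂ) + θ * I)) = Q
  generalize (∫ y in Ioi σ, E0 (-s) y) = R
  have hpi : (Real.pi : ℂ) ≠ 0 := by exact_mod_cast Real.pi_ne_zero
  push_cast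
  field_simp
  ring

/-- **Hankel's formula** -/
theorem hankel {s : ℝ} (hs : 0 < s) (σ : ℝ) : HK σ (N s) = ((1 / Real.Gamma s : ℝ) : ℂ) := by
  have key : ∀ n : ℕ, ∀ s : ℝ, 0 < s → s ≤ n + 1 →
      HK σ (N s) = ((1 / Real.Gamma s : ℝ) : ℂ) := by
    intro n
    induction n with
    | zero =>
      intro s hs hs1
      rcases lt_or_eq_of_le hs1 with h | h
      · exact hankel_lt hs (by simpa using h) σ
      · have : s = 1 := by simpa using h
        subst this
        rw [hankel_one]
        simp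
    | succ n ih =>
      intro s hs hs1
      by_cases h1 : s ≤ 1
      · exact ih s hs (by
          have : (0 : ℝ) ≤ n := n.cast_nonneg
          linarith)
      · push Not at h1
        have h2 := ih (s - 1) (by linarith) (by push_cast at hs1; linarith)
        have h3 := hankel_rec (s - 1) σ
        rw [sub_add_cancel, h2] at h3
        have h4 : Real.Gamma s = (s - 1) * Real.Gamma (s - 1) := by
          have := Real.Gamma_add_one (s := s - 1) (by linarith)
          rwa [sub_add_cancel] at this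
        have h5 : ((s - 1 : ℝ) : ℂ) ≠ 0 := by
          exact_mod_cast (by linarith : s - 1 ≠ 0)
        have h6 : ((Real.Gamma (s - 1) : ℝ) : ℂ) ≠ 0 := by
          exact_mod_cast (Real.Gamma_pos_of_pos (by linarith : 0 < s - 1)).ne'
        rw [h4]
        apply mul_left_cancel₀ h5
        rw [← h3]
        push_cast
        push_cast at h5
        field_simp
  obtain ⟨n, hn⟩ := exists_nat_ge s
  exact key n s hs (by linarith)

end Pool.Agent.Q80.HK
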