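import Pool.Agent.Q80.HK.C

/-!
# The Mittag-Leffler function as a Hankel integral
-/

set_option autoImplicit false

open Complex Filter Topology Set MeasureTheory

namespace Pool.Agent.Q80.HK

/-- the Mittag-Leffler function -/
noncomputable def ML (α β : ℝ) (z : ℂ) : ℂ :=
  ∑' k : ℕ, z ^ k / ((Real.Gamma (α * k + β) : ℝ) : ℂ)

/-- the integrand -/
noncomputable def gg (α β : ℝ) (z : ℂ) (w : ℂ) : ℂ := N β w / (1 - z * exp (-(α * w)))

theorem N_norm_pos (s y : ℝ) : ‖N s ((y : ℂ) + Real.pi * I)‖ = E0 (1 - s) y := by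
  rw [N_line_pos, norm_mul, Complex.norm_of_nonneg (E0_pos _ _).le, Complex.norm_exp]
  simp

theorem N_norm_neg (s y : ℝ) : ‖N s ((y : ℂ) + ((-Real.pi : ℝ) : ℂ) * I)‖ = E0 (1 - s) y := by
  rw [N_line_neg, norm_mul, Complex.norm_of_nonneg (E0_pos _ _).le, Complex.norm_exp]
  simp

theorem term_eq (α β : ℝ) (z w : ℂ) (k : ℕ) :
    z ^ k * N (α * k + β) w = N β w * (z * exp (-(α * w))) ^ k := by
  unfold N
  rw [mul_pow, ← Complex.exp_nat_mul]
  have : exp (exp w + (1 - ((α * k + β : ℝ) : ℂ)) * w) =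
      exp (exp w + (1 - (β : ℂ)) * w) * exp (k * -(α * w)) := by
    rw [← Complex.exp_add]
    congr 1
    push_cast
    ring
  rw [this]
  ring

theorem geo_norm {α σ : ℝ} (hα : 0 < α) {z : ℂ} (hz : 2 * ‖z‖ ≤ Real.exp (α * σ)) {w : ℂ}
    (hw : σ ≤ w.re) : ‖z * exp (-(α * w))‖ ≤ 1 / 2 := by
  rw [norm_mul, Complex.norm_exp]
  have h1 : (-((α : ℂ) * w)).re = -(α * w.re) := by simp
  rw [h1]
  have h2 : Real.exp (-(α * w.re)) ≤ Real.exp (-(α * σ)) := by
    apply Real.exp_le_exp.2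
    nlinarith
  have h3 : Real.exp (-(α * σ)) * Real.exp (α * σ) = 1 := by rw [← Real.exp_add]; simp
  have h4 := Real.exp_pos (-(α * σ))
  calc ‖z‖ * Real.exp (-(α * w.re)) ≤ (Real.exp (α * σ) / 2) * Real.exp (-(α * σ)) := by
        apply mul_le_mul _ h2 (Real.exp_pos _).le (by positivity)
        linarith
    _ = 1 / 2 := by rw [div_mul_eq_mul_div, mul_comm, h3]

theorem gg_hasSum {α σ : ℝ} (hα : 0 < α) (β : ℝ) {z : ℂ} (hz : 2 * ‖z‖ ≤ Real.exp (α * σ)) {w : ℂ}
    (hw : σ ≤ w.re) : HasSum (fun k : ℕ => z ^ k * N (α * k + β) w) (gg α β z w) := by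
  have h := (hasSum_geometric_of_norm_lt_one (lt_of_le_of_lt (geo_norm hα hz hw) (by norm_num))
    ).mul_left (N β w)
  have e : (fun k : ℕ => z ^ k * N (α * k + β) w) = fun k : ℕ => N β w * (z * exp (-(α * w))) ^ k := by
    funext k
    exact term_eq α β z w k
  rw [e]
  unfold gg
  rw [div_eq_mul_inv]
  exact h

theorem term_norm {α σ : ℝ} (hα : 0 < α) (β : ℝ) {z : ℂ} (hz : 2 * ‖z‖ ≤ Real.exp (α * σ)) {w : ℂ}
    (hw : σ ≤ w.re) (k : ℕ) : ‖z ^ k * N (α * k + β) w‖ ≤ ‖N β w‖ * (1 / 2) ^ k := by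
  rw [term_eq, norm_mul, norm_pow]
  gcongr
  exact geo_norm hα hz hw

theorem ML_hasSum {α σ : ℝ} (hα : 0 < α) {β : ℝ} (hβ : 0 < β) {z : ℂ}
    (hz : 2 * ‖z‖ ≤ Real.exp (α * σ)) :
    HasSum (fun k : ℕ => z ^ k / ((Real.Gamma (α * k + β) : ℝ) : ℂ)) (HK σ (gg α β z)) := by
  have e : (fun k : ℕ => z ^ k / ((Real.Gamma (α * k + β) : ℝ) : ℂ)) =
      fun k : ℕ => z ^ k * HK σ (N (α * k + β)) := by
    funext k
    rw [hankel (by positivity) σ]
    push_cast
    ring
  rw [e]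
  -- circle
  have hc : HasSum (fun k : ℕ => ∫ θ in (-Real.pi)..Real.pi, z ^ k * N (α * k + β) ((σ : ℂ) + θ * I))
      (∫ θ in (-Real.pi)..Real.pi, gg α β z ((σ : ℂ) + θ * I)) := by
    apply intervalIntegral.hasSum_integral_of_dominated_convergence
      (fun k _ => Real.exp (Real.exp σ + (1 - β) * σ) * (1 / 2) ^ k)
    · intro k
      have := N_cont (α * k + β)
      exact (by fun_prop : Continuous fun θ : ℝ => z ^ k * N (α * k + β) ((σ : ℂ) + θ * I)).aestronglyMeasurable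
    · intro k
      refine ae_of_all _ fun θ _ => ?_
      refine (term_norm hα β hz (by simp) k).trans ?_
      gcongr
      exact N_circle_norm β σ θ
    · refine ae_of_all _ fun θ _ => ?_
      exact (summable_geometric_of_lt_one (by norm_num) (by norm_num)).mul_left _
    · exact intervalIntegrable_const
    · refine ae_of_all _ fun θ _ => ?_
      exact gg_hasSum hα β hz (by simp)
  -- ray
  have hr : HasSum (fun k : ℕ => ∫ y in Ioi σ, (z ^ k * N (α * k + β) ((y : ℂ) + Real.pi * I) -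
        z ^ k * N (α * k + β) ((y : ℂ) + ((-Real.pi : ℝ) : ℂ) * I)))
      (∫ y in Ioi σ, (gg α β z ((y : ℂ) + Real.pi * I) -
        gg α β z ((y : ℂ) + ((-Real.pi : ℝ) : ℂ) * I))) := by
    apply hasSum_integral_of_dominated_convergence
      (fun k y => 2 * E0 (1 - β) y * (1 / 2) ^ k)
    · intro k
      have := N_cont (α * k + β)
      exact (by fun_prop : Continuous fun y : ℝ => z ^ k * N (α * k + β) ((y : ℂ) + Real.pi * I) -
        z ^ k * N (α * k + β) ((y : ℂ) + ((-Real.pi : ℝ) : ℂ) * I)).aestronglyMeasurable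
    · intro k
      refine (ae_restrict_iff' measurableSet_Ioi).2 (ae_of_all _ fun y hy => ?_)
      have hy' : σ ≤ y := le_of_lt hy
      refine (norm_sub_le _ _).trans ?_
      have h1 := term_norm hα β hz (w := (y : ℂ) + Real.pi * I) (by simpa using hy') k
      have h2 := term_norm hα β hz (w := (y : ℂ) + ((-Real.pi : ℝ) : ℂ) * I) (by simpa using hy') k
      rw [N_norm_pos] at h1
      rw [N_norm_neg] at h2
      linarith
    · refine ae_of_all _ fun y => ?_
      exact (summable_geometric_of_lt_one (by norm_num) (by norm_num)).mul_left _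
    · simp only [tsum_mul_left]
      exact ((E0_integrableOn (1 - β) σ).const_mul 2).mul_const _
    · refine (ae_restrict_iff' measurableSet_Ioi).2 (ae_of_all _ fun y hy => ?_)
      have hy' : σ ≤ y := le_of_lt hy
      exact (gg_hasSum hα β hz (by simpa using hy')).sub (gg_hasSum hα β hz (by simpa using hy'))
  have h := (hc.mul_left ((1 / (2 * Real.pi) : ℝ) : ℂ)).add (hr.mul_left (1 / (2 * Real.pi * I)))
  unfold HK
  refine Eq.subst (motive := fun F : ℕ → ℂ => HasSum F _) ?_ h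
  funext k
  simp only [intervalIntegral.integral_const_mul, ← mul_sub, integral_const_mul]
  ring

theorem ML_eq {α σ : ℝ} (hα : 0 < α) {β : ℝ} (hβ : 0 < β) {z : ℂ}
    (hz : 2 * ‖z‖ ≤ Real.exp (α * σ)) : ML α β z = HK σ (gg α β z) :=
  (ML_hasSum hα hβ hz).tsum_eq

end Pool.Agent.Q80.HK
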