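import Pool.Agent.Q80.HK.D

/-!
# The Mittag-Leffler function: residues and an integral over the cut
-/

set_option autoImplicit false

open Complex Filter Topology Set MeasureTheory

namespace Pool.Agent.Q80.HK

/-- the difference of the integrand on the two sides of the cut -/
noncomputable def dd (α β : ℝ) (z : ℂ) (y : ℝ) : ℂ :=
  gg α β z ((y : ℂ) + Real.pi * I) - gg α β z ((y : ℂ) + ((-Real.pi : ℝ) : ℂ) * I)

theorem line_integrable {α β : ℝ} (hβ2 : β < 1 + α) {z : ℂ} {c : ℝ} (hc : 0 < c) (θ : ℝ)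
    (hN : ∀ y : ℝ, ‖N β ((y : ℂ) + θ * I)‖ = E0 (1 - β) y)
    (hden : ∀ y : ℝ, c * Real.exp (-(α * y)) ≤ ‖1 - z * exp (-(α * ((y : ℂ) + θ * I)))‖) :
    Continuous (fun y : ℝ => gg α β z ((y : ℂ) + θ * I)) ∧
    Integrable (fun y : ℝ => gg α β z ((y : ℂ) + θ * I)) := by
  have hcont : Continuous (fun y : ℝ => gg α β z ((y : ℂ) + θ * I)) := by
    unfold gg
    have := N_cont β
    refine Continuous.div (by fun_prop) (by fun_prop) (fun y h => ?_)
    have h1 := hden y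
    rw [h, norm_zero] at h1
    have := Real.exp_pos (-(α * y))
    nlinarith
  refine ⟨hcont, ?_⟩
  refine ((E0_integrable (c := 1 - β + α) (by linarith)).const_mul c⁻¹).mono'
    hcont.aestronglyMeasurable (ae_of_all _ fun y => ?_)
  unfold gg
  rw [norm_div, hN]
  have h1 := hden y
  have h2 : 0 < c * Real.exp (-(α * y)) := by positivity
  have h3 : E0 (1 - β) y / ‖1 - z * exp (-(α * ((y : ℂ) + θ * I)))‖ ≤
      E0 (1 - β) y / (c * Real.exp (-(α * y))) :=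
    div_le_div_of_nonneg_left (E0_pos _ _).le h2 h1
  refine h3.trans (le_of_eq ?_)
  unfold E0
  have h4 : Real.exp (-Real.exp y + (1 - β + α) * y) =
      Real.exp (-Real.exp y + (1 - β) * y) / Real.exp (-(α * y)) := by
    rw [← Real.exp_sub]
    congr 1
    ring
  rw [h4]
  field_simp

theorem gg_circle {α β : ℝ} {z : ℂ} {σ : ℝ} (hσ : 2 * Real.exp (α * σ) ≤ ‖z‖) (θ : ℝ) :
    ‖gg α β z ((σ : ℂ) + θ * I)‖ ≤
      Real.exp (Real.exp σ + (1 - β) * σ) * (2 * Real.exp (α * σ) / ‖z‖) := by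
  have hE := Real.exp_pos (α * σ)
  have hz : 0 < ‖z‖ := by linarith
  unfold gg
  rw [norm_div]
  have h1 : ‖z * exp (-(α * ((σ : ℂ) + θ * I)))‖ = ‖z‖ / Real.exp (α * σ) := by
    rw [norm_mul, Complex.norm_exp, div_eq_mul_inv, ← Real.exp_neg]
    simp
  have h2 : ‖z‖ / Real.exp (α * σ) / 2 ≤ ‖1 - z * exp (-(α * ((σ : ℂ) + θ * I)))‖ := by
    have h3 := norm_sub_norm_le (z * exp (-(α * ((σ : ℂ) + θ * I)))) 1
    rw [h1, norm_one, norm_sub_rev] at h3
    have h4 : 2 ≤ ‖z‖ / Real.exp (α * σ) := by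
      rw [le_div_iff₀ hE]; exact hσ
    linarith
  have h5 : 0 < ‖z‖ / Real.exp (α * σ) / 2 := by positivity
  calc ‖N β ((σ : ℂ) + θ * I)‖ / ‖1 - z * exp (-(α * ((σ : ℂ) + θ * I)))‖
      ≤ Real.exp (Real.exp σ + (1 - β) * σ) / (‖z‖ / Real.exp (α * σ) / 2) :=
        div_le_div₀ (Real.exp_pos _).le (N_circle_norm β σ θ) h5 h2
    _ = _ := by field_simp

theorem rep {α β : ℝ} (hα : 0 < α) (hβ : 0 < β) (hβ2 : β < 1 + α) {z : ℂ} (hz : z ≠ 0) {c : ℝ}
    (hc : 0 < c)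
    (hden : ∀ y : ℝ, c * Real.exp (-(α * y)) ≤ ‖1 - z * exp (-(α * ((y : ℂ) + Real.pi * I)))‖)
    (hden' : ∀ y : ℝ, c * Real.exp (-(α * y)) ≤
      ‖1 - z * exp (-(α * ((y : ℂ) + ((-Real.pi : ℝ) : ℂ) * I)))‖)
    {S : ℂ} {u v : ℝ} (hRI : ∀ σ₀ ≤ u, ∀ σ₁ ≥ v,
      RI σ₀ σ₁ (-Real.pi) Real.pi (gg α β z) = 2 * Real.pi * I * S) :
    ML α β z = S + (1 / (2 * Real.pi * I)) * ∫ y : ℝ, dd α β z y := by
  have l1 := line_integrable hβ2 hc Real.pi (N_norm_pos β) hden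
  have l2 := line_integrable hβ2 hc (-Real.pi) (N_norm_neg β) hden'
  have hdd : Integrable (dd α β z) := l1.2.sub l2.2
  -- choose a large `σ`
  obtain ⟨σ, hσv, hσz⟩ : ∃ σ : ℝ, v ≤ σ ∧ 2 * ‖z‖ ≤ Real.exp (α * σ) := by
    have h1 : Tendsto (fun σ : ℝ => Real.exp (α * σ)) atTop atTop :=
      Real.tendsto_exp_atTop.comp (Tendsto.const_mul_atTop hα tendsto_id)
    obtain ⟨σ, h⟩ := ((eventually_ge_atTop v).and (h1.eventually_ge_atTop (2 * ‖z‖))).exists
    exact ⟨σ, h⟩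
  have key : ∀ᶠ σ₀ : ℝ in atBot, ML α β z - S = HK σ₀ (gg α β z) := by
    filter_upwards [eventually_le_atBot u, eventually_le_atBot σ] with σ₀ h0 h1
    rw [ML_eq hα hβ hσz, HK_shift h1 (hRI σ₀ h0 σ hσv) (l1.1.intervalIntegrable _ _)
      (l2.1.intervalIntegrable _ _) hdd.integrableOn]
    ring
  have t1 : Tendsto (fun σ₀ : ℝ => HK σ₀ (gg α β z)) atBot
      (𝓝 (((1 / (2 * Real.pi) : ℝ) : ℂ) * 0 + (1 / (2 * Real.pi * I)) * ∫ y : ℝ, dd α β z y)) := by
    unfold HK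
    refine Tendsto.add (Tendsto.const_mul _ ?_) (Tendsto.const_mul _ (ray_tendsto hdd))
    have hlim : Tendsto (fun σ' : ℝ => Real.exp (Real.exp σ' + (1 - β) * σ') *
        (2 * Real.exp (α * σ') / ‖z‖) * |Real.pi - (-Real.pi)|) atBot (𝓝 0) := by
      have h1 : Tendsto (fun σ' : ℝ => Real.exp (Real.exp σ' + (1 - β + α) * σ')) atBot (𝓝 0) := by
        apply Real.tendsto_exp_atBot.comp
        refine Tendsto.add_atBot (C := 0) Real.tendsto_exp_atBot ?_
        exact Tendsto.const_mul_atBot (by linarith) tendsto_id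
      have h2 := h1.mul_const (2 / ‖z‖ * |Real.pi - (-Real.pi)|)
      rw [zero_mul] at h2
      refine h2.congr fun σ' => ?_
      rw [show Real.exp σ' + (1 - β + α) * σ' = (Real.exp σ' + (1 - β) * σ') + α * σ' by ring,
        Real.exp_add _ (α * σ')]
      ring
    have hev : ∀ᶠ σ' : ℝ in atBot, 2 * Real.exp (α * σ') ≤ ‖z‖ := by
      have h1 : Tendsto (fun σ' : ℝ => 2 * Real.exp (α * σ')) atBot (𝓝 (2 * 0)) :=
        (Real.tendsto_exp_atBot.comp (Tendsto.const_mul_atBot hα tendsto_id)).const_mul 2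
      rw [mul_zero] at h1
      filter_upwards [h1.eventually (gt_mem_nhds (norm_pos_iff.2 hz))] with σ' h
      exact h.le
    refine squeeze_zero_norm' ?_ hlim
    filter_upwards [hev] with σ' h
    exact intervalIntegral.norm_integral_le_of_norm_le_const (fun θ _ => gg_circle h θ)
  have t2 : Tendsto (fun σ₀ : ℝ => HK σ₀ (gg α β z)) atBot (𝓝 (ML α β z - S)) :=
    tendsto_const_nhds.congr' key
  have := tendsto_nhds_unique t2 t1
  rw [mul_zero, zero_add] at this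
  linear_combination this

theorem gg_pole {α : ℝ} (β : ℝ) {z p : ℂ} (hp : z = exp (α * p)) :
    gg α β z = fun w => N β w / (1 - exp (-(α * (w - p)))) := by
  funext w
  unfold gg
  rw [hp, ← Complex.exp_add]
  congr 3
  ring

theorem rep_one {α β : ℝ} (hα : 0 < α) (hβ : 0 < β) (hβ2 : β < 1 + α) {z p : ℂ}
    (hp : z = exp (α * p)) (h1 : -Real.pi < p.im) (h2 : p.im < Real.pi)
    (h3 : p.im + Real.pi < 2 * Real.pi / α) (h4 : Real.pi - p.im < 2 * Real.pi / α) {c : ℝ}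
    (hc : 0 < c)
    (hden : ∀ y : ℝ, c * Real.exp (-(α * y)) ≤ ‖1 - z * exp (-(α * ((y : ℂ) + Real.pi * I)))‖)
    (hden' : ∀ y : ℝ, c * Real.exp (-(α * y)) ≤
      ‖1 - z * exp (-(α * ((y : ℂ) + ((-Real.pi : ℝ) : ℂ) * I)))‖) :
    ML α β z = N β p / α + (1 / (2 * Real.pi * I)) * ∫ y : ℝ, dd α β z y := by
  refine rep hα hβ hβ2 (by rw [hp]; exact Complex.exp_ne_zero _) hc hden hden' (u := p.re - 1)
    (v := p.re + 1) ?_
  intro σ₀ h0 σ₁ h5
  rw [gg_pole β hp]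
  exact RI_res hα (by linarith) (by linarith) h1 h2 (by linarith) h4 (N_diff β)

theorem rep_two {α β : ℝ} (hα : 0 < α) (hβ : 0 < β) (hβ2 : β < 1 + α) {z p q : ℂ} {m : ℝ}
    (hp : z = exp (α * p)) (hq : z = exp (α * q)) (hre : q.re = p.re) (h1 : -Real.pi < p.im)
    (h2 : p.im < m) (h3 : p.im + Real.pi < 2 * Real.pi / α) (h4 : m - p.im < 2 * Real.pi / α)
    (h5 : m < q.im) (h6 : q.im < Real.pi) (h7 : q.im - m < 2 * Real.pi / α)
    (h8 : Real.pi - q.im < 2 * Real.pi / α) {c : ℝ}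
    (hc : 0 < c)
    (hden : ∀ y : ℝ, c * Real.exp (-(α * y)) ≤ ‖1 - z * exp (-(α * ((y : ℂ) + Real.pi * I)))‖)
    (hden' : ∀ y : ℝ, c * Real.exp (-(α * y)) ≤
      ‖1 - z * exp (-(α * ((y : ℂ) + ((-Real.pi : ℝ) : ℂ) * I)))‖) :
    ML α β z = (N β p / α + N β q / α) + (1 / (2 * Real.pi * I)) * ∫ y : ℝ, dd α β z y := by
  refine rep hα hβ hβ2 (by rw [hp]; exact Complex.exp_ne_zero _) hc hden hden' (u := p.re - 1)
    (v := p.re + 1) ?_
  intro σ₀ h0 σ₁ h9
  have hint : ∀ a : ℝ, a ≠ p.re → Continuous (fun y : ℝ => gg α β z ((a : ℂ) + y * I)) := by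
    intro a ha
    unfold gg
    have := N_cont β
    refine Continuous.div (by fun_prop) (by fun_prop) (fun y h => ha ?_)
    rw [hp, ← Complex.exp_add] at h
    have h10 : ‖exp (α * p + -(α * ((a : ℂ) + y * I)))‖ = 1 := by
      rw [show exp (α * p + -(α * ((a : ℂ) + y * I))) = 1 by linear_combination -h, norm_one]
    rw [Complex.norm_exp, Real.exp_eq_one_iff] at h10
    simp at h10
    have h11 : α * (p.re - a) = 0 := by linarith
    rcases mul_eq_zero.1 h11 with h | h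
    · exact absurd h hα.ne'
    · linarith
  have hca := hint σ₀ (by linarith)
  have hcb := hint σ₁ (by linarith)
  rw [RI_split (m := m) (fun _ _ _ _ => hca.intervalIntegrable _ _)
    (fun _ _ _ _ => hcb.intervalIntegrable _ _)]
  have e1 : RI σ₀ σ₁ (-Real.pi) m (gg α β z) = 2 * Real.pi * I * (N β p / α) := by
    rw [gg_pole β hp]
    exact RI_res hα (by linarith) (by linarith) h1 h2 (by linarith) h4 (N_diff β)
  have e2 : RI σ₀ σ₁ m Real.pi (gg α β z) = 2 * Real.pi * I * (N β q / α) := by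
    rw [gg_pole β hq]
    exact RI_res hα (by linarith) (by linarith) h5 h6 h7 h8 (N_diff β)
  rw [e1, e2]
  ring

end Pool.Agent.Q80.HK
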