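import Pool.Agent.Q80.HK.E

/-!
# Continuity of the Mittag-Leffler function in the parameters, and simple bounds for `Γ`
-/

set_option autoImplicit false

open Complex Filter Topology Set MeasureTheory

namespace Pool.Agent.Q80.HK

theorem Gamma_le_max {a b x : ℝ} (ha : 0 < a) (hax : a ≤ x) (hxb : x ≤ b) :
    Real.Gamma x ≤ max (Real.Gamma a) (Real.Gamma b) :=
  Real.convexOn_Gamma.le_max_of_mem_Icc (mem_Ioi.2 ha) (mem_Ioi.2 (by linarith)) ⟨hax, hxb⟩

theorem Gamma_le_one {x : ℝ} (h1 : 1 ≤ x) (h2 : x ≤ 2) : Real.Gamma x ≤ 1 := by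
  have h := Gamma_le_max one_pos h1 h2
  rwa [Real.Gamma_one, Real.Gamma_two, max_self] at h

theorem Gamma_three : Real.Gamma 3 = 2 := by
  rw [show (3 : ℝ) = 2 + 1 by norm_num, Real.Gamma_add_one (by norm_num), Real.Gamma_two]
  norm_num

theorem Gamma_le_two {x : ℝ} (h1 : 1 ≤ x) (h2 : x ≤ 3) : Real.Gamma x ≤ 2 := by
  have h := Gamma_le_max one_pos h1 h2
  rw [Real.Gamma_one, Gamma_three] at h
  exact h.trans (by norm_num)

theorem one_le_Gamma_of_le_one {x : ℝ} (h0 : 0 < x) (h1 : x ≤ 1) : 1 ≤ Real.Gamma x := by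
  have h := Gamma_le_max h0 h1 (by norm_num : (1 : ℝ) ≤ 2)
  rw [Real.Gamma_one, Real.Gamma_two] at h
  by_contra hcon
  push Not at hcon
  -- use convexity more precisely
  have hc := Real.convexOn_Gamma
  have h2 := hc.2 (mem_Ioi.2 h0) (mem_Ioi.2 (by norm_num : (0 : ℝ) < 2))
    (by apply div_nonneg <;> linarith : (0 : ℝ) ≤ 1 / (2 - x))
    (by apply div_nonneg <;> linarith : (0 : ℝ) ≤ (1 - x) / (2 - x)) (by
      have : (2 - x) ≠ 0 := by linarith
      field_simp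
      ring)
  have e : (1 / (2 - x)) • x + ((1 - x) / (2 - x)) • (2 : ℝ) = 1 := by
    have : (2 - x) ≠ 0 := by linarith
    simp only [smul_eq_mul]
    field_simp
    ring
  rw [e, Real.Gamma_one, Real.Gamma_two] at h2
  simp only [smul_eq_mul] at h2
  have h3 : 0 < 2 - x := by linarith
  have h4 : 1 / (2 - x) * Real.Gamma x < 1 / (2 - x) * 1 := by
    apply mul_lt_mul_of_pos_left hcon
    positivity
  have h5 : 1 / (2 - x) * 1 + (1 - x) / (2 - x) * 1 = 1 := by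
    field_simp
    ring
  linarith

theorem one_le_Gamma_of_two_le {x : ℝ} (h : 2 ≤ x) : 1 ≤ Real.Gamma x := by
  have := Real.Gamma_strictMonoOn_Ici.monotoneOn (mem_Ici.2 le_rfl) (mem_Ici.2 h) h
  rwa [Real.Gamma_two] at this

theorem half_le_Gamma {x : ℝ} (h0 : 0 < x) : 1 / 2 ≤ Real.Gamma x := by
  rcases le_total x 1 with h1 | h1
  · have := one_le_Gamma_of_le_one h0 h1
    linarith
  rcases le_total 2 x with h2 | h2
  · have := one_le_Gamma_of_two_le h2
    linarith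
  · have h3 := Real.Gamma_add_one h0.ne'
    have h4 := one_le_Gamma_of_two_le (x := x + 1) (by linarith)
    have h5 := Real.Gamma_pos_of_pos h0
    rw [h3] at h4
    nlinarith

theorem inv_Gamma_le {α₀ β₀ α β : ℝ} (hα₀ : 0 < α₀) (hβ₀ : 0 < β₀) (h1 : α₀ ≤ α) (h2 : β₀ ≤ β)
    (k : ℕ) : (Real.Gamma (α * k + β))⁻¹ ≤
      2 * (1 + Real.Gamma β₀) * (Real.Gamma (α₀ * k + β₀))⁻¹ := by
  have hk : (0 : ℝ) ≤ k := k.cast_nonneg
  have hx0 : 0 < α₀ * k + β₀ := by positivity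
  have hle : α₀ * k + β₀ ≤ α * k + β := by
    have := mul_le_mul_of_nonneg_right h1 hk
    linarith
  have hx1 : 0 < α * k + β := by linarith
  have hG0 := Real.Gamma_pos_of_pos hx0
  have hG1 := Real.Gamma_pos_of_pos hx1
  have hGb := Real.Gamma_pos_of_pos hβ₀
  rcases le_total 2 (α₀ * k + β₀) with h | h
  · have h3 := Real.Gamma_strictMonoOn_Ici.monotoneOn (mem_Ici.2 h) (mem_Ici.2 (h.trans hle)) hle
    have h4 : (Real.Gamma (α * k + β))⁻¹ ≤ (Real.Gamma (α₀ * k + β₀))⁻¹ := by gcongr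
    have h5 : 0 < (Real.Gamma (α₀ * k + β₀))⁻¹ := by positivity
    nlinarith
  · have h3 : Real.Gamma (α₀ * k + β₀) ≤ 1 + Real.Gamma β₀ := by
      have h4 := Gamma_le_max hβ₀ (by nlinarith : β₀ ≤ α₀ * k + β₀) h
      rw [Real.Gamma_two] at h4
      refine h4.trans (max_le ?_ ?_) <;> linarith
    have h5 := half_le_Gamma hx1
    have h6 : (Real.Gamma (α * k + β))⁻¹ ≤ 2 := by
      rw [inv_le_comm₀ hG1 (by norm_num)]
      linarith
    have h7 : 1 ≤ (1 + Real.Gamma β₀) * (Real.Gamma (α₀ * k + β₀))⁻¹ := by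
      rw [← div_eq_mul_inv, le_div_iff₀ hG0]
      linarith
    linarith

theorem ML_summable {α β : ℝ} (hα : 0 < α) (hβ : 0 < β) (z : ℂ) :
    Summable (fun k : ℕ => z ^ k / ((Real.Gamma (α * k + β) : ℝ) : ℂ)) := by
  have h1 : Tendsto (fun σ : ℝ => Real.exp (α * σ)) atTop atTop :=
    Real.tendsto_exp_atTop.comp (Tendsto.const_mul_atTop hα tendsto_id)
  obtain ⟨σ, h⟩ := (h1.eventually_ge_atTop (2 * ‖z‖)).exists
  exact (ML_hasSum hα hβ h).summable

theorem ML_continuousOn {α₀ β₀ : ℝ} (hα₀ : 0 < α₀) (hβ₀ : 0 < β₀) (R : ℝ) :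
    ContinuousOn (fun p : ℝ × ℝ × ℂ => ML p.1 p.2.1 p.2.2)
      {p | α₀ ≤ p.1 ∧ β₀ ≤ p.2.1 ∧ ‖p.2.2‖ ≤ R} := by
  unfold ML
  have hs : Summable (fun k : ℕ => 2 * (1 + Real.Gamma β₀) *
      ((|R|) ^ k * (Real.Gamma (α₀ * k + β₀))⁻¹)) := by
    refine Summable.mul_left _ ?_
    have h := (ML_summable hα₀ hβ₀ ((|R| : ℝ) : ℂ)).norm
    refine h.congr fun k => ?_
    have hG := Real.Gamma_pos_of_pos (by positivity : 0 < α₀ * k + β₀)
    rw [norm_div, norm_pow, Complex.norm_of_nonneg hG.le, div_eq_mul_inv]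
    simp
  refine continuousOn_tsum (fun k => ?_) hs (fun k p hp => ?_)
  · intro p hp
    have hpos : 0 < p.1 * k + p.2.1 := by
      have h1 : (0 : ℝ) ≤ k := k.cast_nonneg
      have h2 := mul_nonneg (hα₀.le.trans hp.1) h1
      linarith [hp.2.1]
    apply ContinuousAt.continuousWithinAt
    have hG : ContinuousAt Real.Gamma (p.1 * k + p.2.1) := by
      apply (Real.differentiableAt_Gamma _).continuousAt
      intro m hm
      have : (0 : ℝ) ≤ m := m.cast_nonneg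
      linarith
    have hG2 : ContinuousAt (fun p : ℝ × ℝ × ℂ => Real.Gamma (p.1 * k + p.2.1)) p :=
      ContinuousAt.comp (f := fun p : ℝ × ℝ × ℂ => p.1 * k + p.2.1) hG (by fun_prop)
    refine ContinuousAt.div (by fun_prop) (Complex.continuous_ofReal.continuousAt.comp hG2) ?_
    exact_mod_cast (Real.Gamma_pos_of_pos hpos).ne'
  · have hpos : 0 < p.1 * k + p.2.1 := by
      have h1 : (0 : ℝ) ≤ k := k.cast_nonneg
      have h2 := mul_nonneg (hα₀.le.trans hp.1) h1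
      linarith [hp.2.1]
    have hG := Real.Gamma_pos_of_pos hpos
    rw [norm_div, norm_pow, Complex.norm_of_nonneg hG.le, div_eq_mul_inv]
    have h3 : ‖p.2.2‖ ^ k ≤ |R| ^ k := by
      gcongr
      exact hp.2.2.trans (le_abs_self R)
    have h4 := inv_Gamma_le hα₀ hβ₀ hp.1 hp.2.1 k
    have h5 : 0 ≤ (Real.Gamma (p.1 * k + p.2.1))⁻¹ := by positivity
    calc ‖p.2.2‖ ^ k * (Real.Gamma (p.1 * k + p.2.1))⁻¹
        ≤ |R| ^ k * (2 * (1 + Real.Gamma β₀) * (Real.Gamma (α₀ * k + β₀))⁻¹) :=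
          mul_le_mul h3 h4 h5 (by positivity)
      _ = _ := by ring

end Pool.Agent.Q80.HK
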