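import Pool.Agent.Q80.HK.F

/-!
# The integral over the cut, and the asymptotic formula on the imaginary axis for `3/4 ≤ α < 1`
-/

set_option autoImplicit false

open Complex Filter Topology Set MeasureTheory

namespace Pool.Agent.Q80.HK

/-- the product of the two denominators -/
noncomputable def DD (α : ℝ) (z : ℂ) (y : ℝ) : ℂ :=
  (((Real.exp (α * y) : ℝ) : ℂ) - z * exp (-(α * Real.pi * I))) *
    (((Real.exp (α * y) : ℝ) : ℂ) - z * exp (α * Real.pi * I))

theorem two_sin (ψ : ℝ) : exp (ψ * I) - exp (-(ψ * I)) = 2 * Real.sin ψ * I := by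
  rw [Complex.ofReal_sin, Complex.sin]
  have hI := Complex.I_sq
  have e3 : -(ψ : ℂ) * I = -(ψ * I) := by ring
  rw [e3]
  linear_combination (exp (ψ * I) - exp (-(ψ * I))) * hI

theorem two_cos (ψ : ℝ) : exp (ψ * I) + exp (-(ψ * I)) = 2 * Real.cos ψ := by
  rw [Complex.ofReal_cos, Complex.cos]
  have e3 : -(ψ : ℂ) * I = -(ψ * I) := by ring
  rw [e3]
  ring

theorem den_pos (α : ℝ) (z : ℂ) (y : ℝ) : 1 - z * exp (-(α * ((y : ℂ) + Real.pi * I))) =
    (((Real.exp (α * y) : ℝ) : ℂ) - z * exp (-(α * Real.pi * I))) / ((Real.exp (α * y) : ℝ) : ℂ) := by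
  rw [eq_div_iff (by exact_mod_cast (Real.exp_pos _).ne')]
  rw [Complex.ofReal_exp]
  push_cast
  rw [sub_mul, mul_assoc, ← Complex.exp_add]
  congr 2
  · ring
  · congr 1
    ring_nf

theorem den_neg (α : ℝ) (z : ℂ) (y : ℝ) :
    1 - z * exp (-(α * ((y : ℂ) + ((-Real.pi : ℝ) : ℂ) * I))) =
    (((Real.exp (α * y) : ℝ) : ℂ) - z * exp (α * Real.pi * I)) / ((Real.exp (α * y) : ℝ) : ℂ) := by
  rw [eq_div_iff (by exact_mod_cast (Real.exp_pos _).ne')]
  rw [Complex.ofReal_exp]
  push_cast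
  rw [sub_mul, mul_assoc, ← Complex.exp_add]
  congr 2
  · ring
  · congr 1
    ring_nf

theorem dd_eq (α β : ℝ) (z : ℂ) (y : ℝ) (hD : DD α z y ≠ 0) : dd α β z y =
    2 * I * (E0 (1 - β) y : ℂ) * ((Real.exp (α * y) : ℝ) : ℂ) *
      (((Real.exp (α * y) : ℝ) : ℂ) * Real.sin (Real.pi * β) - z * Real.sin (Real.pi * (β - α))) /
        DD α z y := by
  have hX : ((Real.exp (α * y) : ℝ) : ℂ) ≠ 0 := by exact_mod_cast (Real.exp_pos _).ne'
  have h1 : ((Real.exp (α * y) : ℝ) : ℂ) - z * exp (-(α * Real.pi * I)) ≠ 0 :=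
    fun h => hD (by unfold DD; rw [h, zero_mul])
  have h2 : ((Real.exp (α * y) : ℝ) : ℂ) - z * exp (α * Real.pi * I) ≠ 0 :=
    fun h => hD (by unfold DD; rw [h, mul_zero])
  unfold dd gg
  rw [N_line_pos, N_line_neg, den_pos, den_neg]
  have s1 := two_sin (Real.pi * (1 - β))
  have s2 := two_sin (Real.pi * (1 - β + α))
  have e1 : Real.sin (Real.pi * (1 - β)) = Real.sin (Real.pi * β) := by
    rw [show Real.pi * (1 - β) = Real.pi - Real.pi * β by ring, Real.sin_pi_sub]
  have e2 : Real.sin (Real.pi * (1 - β + α)) = Real.sin (Real.pi * (β - α)) := by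
    rw [show Real.pi * (1 - β + α) = Real.pi - Real.pi * (β - α) by ring, Real.sin_pi_sub]
  rw [e1] at s1
  rw [e2] at s2
  have p1 : exp (((Real.pi * (1 - β + α) : ℝ) : ℂ) * I) =
      exp (Real.pi * (1 - β) * I) * exp (α * Real.pi * I) := by
    rw [← Complex.exp_add]; congr 1; push_cast; ring
  have p2 : exp (-(((Real.pi * (1 - β + α) : ℝ) : ℂ) * I)) =
      exp (-(Real.pi * (1 - β) * I)) * exp (-(α * Real.pi * I)) := by
    rw [← Complex.exp_add]; congr 1; push_cast; ring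
  rw [p1, p2] at s2
  have s1' : exp (Real.pi * (1 - β) * I) - exp (-(Real.pi * (1 - β) * I)) =
      2 * Real.sin (Real.pi * β) * I := by
    rw [← s1]
    push_cast
    ring
  unfold DD
  generalize exp ((Real.pi : ℂ) * (1 - β) * I) = b at s1' s2 ⊢
  generalize exp (-((Real.pi : ℂ) * (1 - β) * I)) = b' at s1' s2 ⊢
  generalize exp ((α : ℂ) * Real.pi * I) = a' at s2 h2 ⊢
  generalize exp (-((α : ℂ) * Real.pi * I)) = a at s2 h1 ⊢
  generalize (E0 (1 - β) y : ℂ) = E
  generalize ((Real.exp (α * y) : ℝ) : ℂ) = X at hX h1 h2 ⊢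
  generalize ((Real.sin (Real.pi * β) : ℝ) : ℂ) = S1 at s1' ⊢
  generalize ((Real.sin (Real.pi * (β - α)) : ℝ) : ℂ) = S2 at s2 ⊢
  field_simp
  linear_combination (E * X) * s1' - (E * z) * s2

theorem DD_expand (α : ℝ) (z : ℂ) (y : ℝ) : DD α z y =
    ((Real.exp (α * y) : ℝ) : ℂ) ^ 2 - 2 * z * ((Real.exp (α * y) : ℝ) : ℂ) * Real.cos (Real.pi * α) +
      z ^ 2 := by
  have h := two_cos (Real.pi * α)
  have e1 : exp (-(α * Real.pi * I)) = exp (-(((Real.pi * α : ℝ) : ℂ) * I)) := by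
    congr 1; push_cast; ring
  have e2 : exp (α * Real.pi * I) = exp (((Real.pi * α : ℝ) : ℂ) * I) := by
    congr 1; push_cast; ring
  have h2 : exp (((Real.pi * α : ℝ) : ℂ) * I) * exp (-(((Real.pi * α : ℝ) : ℂ) * I)) = 1 := by
    rw [← Complex.exp_add]; simp
  unfold DD
  rw [e1, e2]
  linear_combination (z ^ 2) * h2 - z * ((Real.exp (α * y) : ℝ) : ℂ) * h

theorem E0_mul (c α y : ℝ) : E0 c y * Real.exp (α * y) = E0 (c + α) y := by
  unfold E0
  rw [← Real.exp_add]
  congr 1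
  ring

/-- the size of the denominators for `z = i t` -/
theorem DD_norm_im {α t : ℝ} (hc : 1 / 2 ≤ Real.cos (Real.pi * α) ^ 2) (y : ℝ) :
    t ^ 2 ≤ ‖DD α (t * I) y‖ := by
  have hX := Real.exp_pos (α * y)
  rw [DD_expand]
  set X := Real.exp (α * y)
  set C := Real.cos (Real.pi * α)
  have e : ((X : ℝ) : ℂ) ^ 2 - 2 * (t * I) * (X : ℂ) * (C : ℂ) + (t * I) ^ 2 =
      ⟨X ^ 2 - t ^ 2, -(2 * t * X * C)⟩ := by
    apply Complex.ext
    · simp [pow_two]
      ring
    · simp [pow_two]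
  rw [e]
  rw [Complex.norm_def, Complex.normSq_mk]
  apply Real.le_sqrt_of_sq_le
  nlinarith [sq_nonneg (X * t), sq_nonneg (X ^ 2), mul_nonneg (sq_nonneg (X * t)) (sub_nonneg.2 hc)]

/-- lower bounds for the two denominators for `z = i t` -/
theorem fac_norm_im {α t : ℝ} (ht : 0 < t) (hc : 1 / 2 ≤ Real.cos (Real.pi * α) ^ 2) (y : ℝ) :
    t / 2 ≤ ‖((Real.exp (α * y) : ℝ) : ℂ) - (t * I) * exp (-(α * Real.pi * I))‖ ∧
    t / 2 ≤ ‖((Real.exp (α * y) : ℝ) : ℂ) - (t * I) * exp (α * Real.pi * I)‖ := by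
  have hX := Real.exp_pos (α * y)
  set X := Real.exp (α * y)
  have hsc := Real.sin_sq_add_cos_sq (Real.pi * α)
  have e1 : ((X : ℝ) : ℂ) - (t * I) * exp (-(α * Real.pi * I)) =
      ⟨X - t * Real.sin (Real.pi * α), -(t * Real.cos (Real.pi * α))⟩ := by
    have : exp (-(α * Real.pi * I)) = ⟨Real.cos (Real.pi * α), -Real.sin (Real.pi * α)⟩ := by
      rw [show -((α : ℂ) * Real.pi * I) = ((-(Real.pi * α) : ℝ) : ℂ) * I by push_cast; ring]
      apply Complex.ext
      · rw [Complex.exp_ofReal_mul_I_re, Real.cos_neg]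
      · rw [Complex.exp_ofReal_mul_I_im, Real.sin_neg]
    rw [this]
    apply Complex.ext <;> simp
  have e2 : ((X : ℝ) : ℂ) - (t * I) * exp (α * Real.pi * I) =
      ⟨X + t * Real.sin (Real.pi * α), -(t * Real.cos (Real.pi * α))⟩ := by
    have : exp (α * Real.pi * I) = ⟨Real.cos (Real.pi * α), Real.sin (Real.pi * α)⟩ := by
      rw [show ((α : ℂ) * Real.pi * I) = (((Real.pi * α) : ℝ) : ℂ) * I by push_cast; ring]
      apply Complex.ext
      · rw [Complex.exp_ofReal_mul_I_re]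
      · rw [Complex.exp_ofReal_mul_I_im]
    rw [this]
    apply Complex.ext <;> simp
  rw [e1, e2]
  set S := Real.sin (Real.pi * α)
  set C := Real.cos (Real.pi * α)
  have h4 : (t / 2) ^ 2 ≤ (t * C) ^ 2 := by
    have : (t * C) ^ 2 = t ^ 2 * C ^ 2 := by ring
    nlinarith [sq_nonneg t]
  constructor
  · rw [Complex.norm_def, Complex.normSq_mk]
    apply Real.le_sqrt_of_sq_le
    nlinarith [sq_nonneg (X - t * S)]
  · rw [Complex.norm_def, Complex.normSq_mk]
    apply Real.le_sqrt_of_sq_le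
    nlinarith [sq_nonneg (X + t * S)]

theorem cos_sq_ge {α : ℝ} (h1 : 3 / 4 ≤ α) (h2 : α ≤ 1) : 1 / 2 ≤ Real.cos (Real.pi * α) ^ 2 := by
  have hπ := Real.pi_pos
  have h3 : Real.cos (Real.pi * (1 - α)) = -Real.cos (Real.pi * α) := by
    rw [show Real.pi * (1 - α) = Real.pi - Real.pi * α by ring, Real.cos_pi_sub]
  have h4 : Real.cos (Real.pi / 4) ≤ Real.cos (Real.pi * (1 - α)) :=
    Real.cos_le_cos_of_nonneg_of_le_pi (by nlinarith) (by linarith) (by nlinarith)
  have h5 : (Real.cos (Real.pi / 4)) ^ 2 = 1 / 2 := by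
    rw [Real.cos_pi_div_four, div_pow, Real.sq_sqrt (by norm_num)]
    norm_num
  have h6 : 0 ≤ Real.cos (Real.pi / 4) := by rw [Real.cos_pi_div_four]; positivity
  have h7 : Real.cos (Real.pi * α) ^ 2 = Real.cos (Real.pi * (1 - α)) ^ 2 := by rw [h3]; ring
  rw [h7, ← h5]
  gcongr

theorem P1_formula {α t x : ℝ} (hα : 3 / 4 ≤ α) (hα1 : α < 1) (hx : 0 < x) (ht : t = x ^ α) :
    ∃ ϑ : ℂ, ‖ϑ‖ ≤ (Real.Gamma (3 * α) + 2 * t * Real.Gamma (2 * α)) / t ^ 2 ∧
      ML α 1 (t * I) = exp (x * exp (((Real.pi / (2 * α) : ℝ) : ℂ) * I)) / α +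
        I * ((Real.sin (Real.pi * α) / (Real.pi * t) : ℝ) : ℂ) * (((Real.Gamma α : ℝ) : ℂ) + ϑ) := by
  have hα0 : 0 < α := by linarith
  have hπ := Real.pi_pos
  have ht0 : 0 < t := by rw [ht]; positivity
  have hc := cos_sq_ge hα hα1.le
  have hDn : ∀ y, t ^ 2 ≤ ‖DD α (t * I) y‖ := fun y => DD_norm_im hc y
  have hD0 : ∀ y, DD α (t * I) y ≠ 0 := fun y h => by
    have := hDn y
    rw [h, norm_zero] at this
    nlinarith
  -- the pole
  have hp : (t : ℂ) * I = exp (α * ((Real.log x : ℂ) + ((Real.pi / (2 * α) : ℝ) : ℂ) * I)) := by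
    rw [mul_add, Complex.exp_add]
    congr 1
    · rw [ht, Real.rpow_def_of_pos hx, Complex.ofReal_exp]
      congr 1
      push_cast
      ring
    · rw [show (α : ℂ) * (((Real.pi / (2 * α) : ℝ) : ℂ) * I) = Real.pi / 2 * I by
        push_cast
        have : (α : ℂ) ≠ 0 := by exact_mod_cast hα0.ne'
        field_simp, Complex.exp_pi_div_two_mul_I]
  have him : ((Real.log x : ℂ) + ((Real.pi / (2 * α) : ℝ) : ℂ) * I).im = Real.pi / (2 * α) := by
    rw [Complex.add_im, Complex.ofReal_im, Complex.mul_im, Complex.ofReal_re, Complex.ofReal_im,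
      Complex.I_re, Complex.I_im]
    ring
  have hq : Real.pi / (2 * α) ≤ Real.pi * (2 / 3) := by
    rw [div_le_iff₀ (by positivity)]
    nlinarith
  have hq0 : 0 < Real.pi / (2 * α) := by positivity
  have hq2 : 2 * Real.pi / α = 4 * (Real.pi / (2 * α)) := by field_simp; ring
  have hq3 : Real.pi / 2 < Real.pi / (2 * α) := by
    rw [div_lt_div_iff₀ (by norm_num) (by positivity)]
    nlinarith
  have hrep := rep_one (α := α) (β := 1) hα0 one_pos (by linarith) hp (by rw [him]; linarith)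
    (by rw [him]; linarith) (by rw [him, hq2]; linarith) (by rw [him, hq2]; linarith)
    (c := t / 2) (by positivity) (fun y => by
      rw [den_pos, norm_div, Complex.norm_of_nonneg (Real.exp_pos _).le,
        le_div_iff₀ (Real.exp_pos _), mul_assoc, ← Real.exp_add]
      simpa using (fac_norm_im ht0 hc y).1) (fun y => by
      rw [den_neg, norm_div, Complex.norm_of_nonneg (Real.exp_pos _).le,
        le_div_iff₀ (Real.exp_pos _), mul_assoc, ← Real.exp_add]
      simpa using (fac_norm_im ht0 hc y).2)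
  -- the integral
  let f : ℝ → ℂ := fun y => (E0 α y : ℂ) *
    (((Real.exp (α * y) : ℝ) : ℂ) ^ 2 - 2 * t * I * ((Real.exp (α * y) : ℝ) : ℂ) *
      Real.cos (Real.pi * α)) / DD α (t * I) y
  have hDc : Continuous (DD α (t * I)) := by unfold DD; fun_prop
  have hfc : Continuous f := by
    have := E0_cont α
    exact Continuous.div (by fun_prop) hDc hD0
  have hfb : ∀ y, ‖f y‖ ≤ (E0 (3 * α) y + 2 * t * E0 (2 * α) y) / t ^ 2 := by
    intro y
    have hE := E0_pos α y
    have hX := Real.exp_pos (α * y)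
    have h1 : ‖((Real.exp (α * y) : ℝ) : ℂ) ^ 2 - 2 * t * I * ((Real.exp (α * y) : ℝ) : ℂ) *
      Real.cos (Real.pi * α)‖ ≤ Real.exp (α * y) ^ 2 + 2 * t * Real.exp (α * y) := by
      refine (norm_sub_le _ _).trans ?_
      rw [norm_pow, Complex.norm_of_nonneg hX.le]
      have h2 : ‖2 * (t : ℂ) * I * ((Real.exp (α * y) : ℝ) : ℂ) * Real.cos (Real.pi * α)‖ =
          2 * t * Real.exp (α * y) * |Real.cos (Real.pi * α)| := by
        rw [norm_mul, norm_mul, norm_mul, norm_mul, Complex.norm_of_nonneg hX.le,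
          Complex.norm_of_nonneg ht0.le, Complex.norm_I, Complex.norm_real, Real.norm_eq_abs]
        simp
      rw [h2]
      have h3 := Real.abs_cos_le_one (Real.pi * α)
      have h4 : 0 ≤ 2 * t * Real.exp (α * y) := by positivity
      nlinarith
    have h5 : ‖f y‖ = E0 α y * ‖((Real.exp (α * y) : ℝ) : ℂ) ^ 2 -
        2 * t * I * ((Real.exp (α * y) : ℝ) : ℂ) * Real.cos (Real.pi * α)‖ / ‖DD α (t * I) y‖ := by
      simp only [f]
      rw [norm_div, norm_mul, Complex.norm_of_nonneg hE.le]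
    rw [h5]
    have h6 : E0 (3 * α) y + 2 * t * E0 (2 * α) y =
        E0 α y * (Real.exp (α * y) ^ 2 + 2 * t * Real.exp (α * y)) := by
      rw [show 3 * α = α + α + α by ring, show 2 * α = α + α by ring, ← E0_mul, ← E0_mul]
      ring
    rw [h6]
    apply div_le_div₀ (by positivity) (by gcongr) (by positivity) (hDn y)
  have hbi : Integrable (fun y => (E0 (3 * α) y + 2 * t * E0 (2 * α) y) / t ^ 2) :=
    ((E0_integrable (by positivity)).add ((E0_integrable (by positivity)).const_mul _)).div_const _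
  have hfi : Integrable f := hbi.mono' hfc.aestronglyMeasurable (ae_of_all _ hfb)
  refine ⟨-∫ y, f y, ?_, ?_⟩
  · rw [norm_neg]
    refine (norm_integral_le_of_norm_le hbi (ae_of_all _ hfb)).trans (le_of_eq ?_)
    rw [integral_div, integral_add (E0_integrable (by positivity))
      ((E0_integrable (by positivity)).const_mul _), integral_const_mul,
      E0_integral (by positivity), E0_integral (by positivity)]
  · rw [hrep]
    have hN : N 1 ((Real.log x : ℂ) + ((Real.pi / (2 * α) : ℝ) : ℂ) * I) =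
        exp (x * exp (((Real.pi / (2 * α) : ℝ) : ℂ) * I)) := by
      unfold N
      congr 1
      rw [Complex.exp_add, ← Complex.ofReal_exp, Real.exp_log hx]
      push_cast
      ring
    rw [hN]
    congr 1
    have hddf : ∀ y, dd α 1 (t * I) y = (2 * I * ((Real.sin (Real.pi * α) / t : ℝ) : ℂ) * I) *
        ((E0 α y : ℂ) - f y) := by
      intro y
      rw [dd_eq _ _ _ _ (hD0 y)]
      have e1 : Real.sin (Real.pi * 1) = 0 := by simp
      have e2 : Real.sin (Real.pi * (1 - α)) = Real.sin (Real.pi * α) := by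
        rw [show Real.pi * (1 - α) = Real.pi - Real.pi * α by ring, Real.sin_pi_sub]
      have e3 : (E0 (1 - 1) y : ℂ) * ((Real.exp (α * y) : ℝ) : ℂ) = (E0 α y : ℂ) := by
        rw [← Complex.ofReal_mul, E0_mul]
        congr 2
        ring
      rw [e1, e2]
      simp only [f]
      have hDx := DD_expand α (t * I) y
      have hD := hD0 y
      have ht' : (t : ℂ) ≠ 0 := by exact_mod_cast ht0.ne'
      rw [mul_assoc (2 * I) _ (((Real.exp (α * y) : ℝ) : ℂ)), e3]
      generalize (E0 α y : ℂ) = E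
      generalize ((Real.exp (α * y) : ℝ) : ℂ) = X at hDx ⊢
      generalize DD α (t * I) y = D at hDx hD ⊢
      have hI := Complex.I_sq
      push_cast at hDx ⊢
      field_simp
      linear_combination (-(E * Complex.sin (Real.pi * α) * I)) * hDx -
        (E * Complex.sin (Real.pi * α) * I * t ^ 2) * hI
    simp only [hddf]
    rw [integral_const_mul]
    have h7 : (∫ y, ((E0 α y : ℂ) - f y)) = ((Real.Gamma α : ℝ) : ℂ) - ∫ y, f y := by
      refine (integral_sub (f := fun y => ((E0 α y : ℝ) : ℂ)) (g := f)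
        (E0_integrable hα0).ofReal hfi).trans ?_
      rw [integral_complex_ofReal, E0_integral hα0]
    rw [h7]
    generalize (∫ y, f y) = Q
    have hπ' : (Real.pi : ℂ) ≠ 0 := by exact_mod_cast hπ.ne'
    have ht' : (t : ℂ) ≠ 0 := by exact_mod_cast ht0.ne'
    push_cast
    field_simp
    ring

end Pool.Agent.Q80.HK
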