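import Pool.Agent.Q80.HK.G
import Pool.Agent.Helper577.Miranda

/-!
# A zero of the Mittag-Leffler function on the imaginary axis
-/

set_option autoImplicit false

open Complex Filter Topology Set MeasureTheory

namespace Pool.Agent.Q80.HK

/-- last parameter at which a continuous function is at most `v` -/
theorem last_crossing {f : ℝ → ℝ} {p q v : ℝ} (hpq : p ≤ q) (hf : ContinuousOn f (Icc p q))
    (hp : f p ≤ v) (hq : v ≤ f q) :
    ∃ a ∈ Icc p q, f a = v ∧ ∀ u ∈ Icc a q, v ≤ f u := by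
  have hK : IsCompact {u ∈ Icc p q | f u ≤ v} := by
    refine isCompact_Icc.of_isClosed_subset ?_ (fun u hu => hu.1)
    exact ContinuousOn.preimage_isClosed_of_isClosed hf isClosed_Icc isClosed_Iic
  obtain ⟨a, ha, hmax⟩ := hK.exists_isGreatest ⟨p, ⟨le_rfl, hpq⟩, hp⟩
  have hgt : ∀ u ∈ Icc p q, a < u → v < f u := by
    intro u hu hau
    by_contra hcon
    push Not at hcon
    exact absurd (hmax ⟨hu, hcon⟩) (not_le.2 hau)
  have hfa : f a = v := by
    by_contra hne
    have hlt : f a < v := lt_of_le_of_ne ha.2 hne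
    obtain ⟨c, hc, hfc⟩ := intermediate_value_Icc ha.1.2
      (hf.mono (Icc_subset_Icc_left ha.1.1)) ⟨hlt.le, hq⟩
    have h1 : c ≤ a := hmax ⟨⟨ha.1.1.trans hc.1, hc.2⟩, hfc.le⟩
    have h2 : c = a := le_antisymm h1 hc.1
    rw [h2] at hfc
    exact hne hfc
  refine ⟨a, ha.1, hfa, fun u hu => ?_⟩
  rcases eq_or_lt_of_le hu.1 with h | h
  · rw [← h, hfa]
  · exact (hgt u ⟨ha.1.1.trans hu.1, hu.2⟩ h).le

noncomputable def xx (φ α : ℝ) : ℝ := (φ + Real.pi / 2) / Real.sin (Real.pi / (2 * α))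
noncomputable def tt (φ α : ℝ) : ℝ := xx φ α ^ α
noncomputable def KK (φ α : ℝ) : ℝ := Real.pi * tt φ α / (Real.sin (Real.pi * α) * Real.Gamma α)
noncomputable def rho (φ α : ℝ) : ℝ :=
  KK φ α / α * Real.exp (xx φ α * Real.cos (Real.pi / (2 * α)))
noncomputable def WW (φ α : ℝ) : ℂ := I * (KK φ α : ℂ) * ML α 1 ((tt φ α : ℂ) * I)

theorem sin_bd {α : ℝ} (h1 : 3 / 4 ≤ α) (h2 : α ≤ 1) :
    Real.sqrt 3 / 2 ≤ Real.sin (Real.pi / (2 * α)) ∧ -(1 / 2) ≤ Real.cos (Real.pi / (2 * α)) ∧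
      Real.cos (Real.pi / (2 * α)) ≤ 0 := by
  have hπ := Real.pi_pos
  have hα : 0 < α := by linarith
  have hq : Real.pi / (2 * α) ≤ Real.pi * (2 / 3) := by
    rw [div_le_iff₀ (by positivity)]
    nlinarith
  have hq3 : Real.pi / 2 ≤ Real.pi / (2 * α) := by
    rw [div_le_div_iff₀ (by norm_num) (by positivity)]
    nlinarith
  refine ⟨?_, ?_, ?_⟩
  · rw [← Real.sin_pi_sub, ← Real.sin_pi_div_three]
    apply Real.sin_le_sin_of_le_of_le_pi_div_two <;> linarith
  · have h := Real.cos_le_cos_of_nonneg_of_le_pi (x := Real.pi / (2 * α)) (y := Real.pi * (2 / 3))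
      (by linarith) (by linarith) hq
    have h3 : Real.cos (Real.pi * (2 / 3)) = -(1 / 2) := by
      rw [show Real.pi * (2 / 3) = Real.pi - Real.pi / 3 by ring, Real.cos_pi_sub,
        Real.cos_pi_div_three]
    linarith
  · exact Real.cos_nonpos_of_pi_div_two_le_of_le hq3 (by linarith)

theorem sqrt3_bd : (43 / 25 : ℝ) ≤ Real.sqrt 3 := by
  apply Real.le_sqrt_of_sq_le
  norm_num

theorem xx_bd {φ α : ℝ} (h1 : 3 / 4 ≤ α) (h2 : α ≤ 1) (h3 : 101 * Real.pi - Real.pi / 3 ≤ φ)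
    (h4 : φ ≤ 101 * Real.pi + Real.pi / 3) : 317 ≤ xx φ α ∧ xx φ α ≤ 400 := by
  have hs := (sin_bd h1 h2).1
  have h5 := sqrt3_bd
  have hs1 := Real.sin_le_one (Real.pi / (2 * α))
  have hπ1 := Real.pi_gt_d2
  have hπ2 := Real.pi_lt_d4
  have hs0 : 0 < Real.sin (Real.pi / (2 * α)) := by linarith
  unfold xx
  constructor
  · rw [le_div_iff₀ hs0]
    nlinarith
  · rw [div_le_iff₀ hs0]
    nlinarith

theorem tt_bd {φ α : ℝ} (h1 : 3 / 4 ≤ α) (h2 : α ≤ 1) (h3 : 101 * Real.pi - Real.pi / 3 ≤ φ)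
    (h4 : φ ≤ 101 * Real.pi + Real.pi / 3) : 64 ≤ tt φ α ∧ tt φ α ≤ 400 := by
  have hx := xx_bd h1 h2 h3 h4
  unfold tt
  constructor
  · have e : (64 : ℝ) = (256 : ℝ) ^ (3 / 4 : ℝ) := by
      rw [show (256 : ℝ) = 4 ^ (4 : ℝ) by norm_num, ← Real.rpow_mul (by norm_num)]
      norm_num
    rw [e]
    calc (256 : ℝ) ^ (3 / 4 : ℝ) ≤ xx φ α ^ (3 / 4 : ℝ) := by
          apply Real.rpow_le_rpow (by norm_num) (by linarith) (by norm_num)
      _ ≤ xx φ α ^ α := Real.rpow_le_rpow_of_exponent_le (by linarith) h1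
  · calc xx φ α ^ α ≤ xx φ α ^ (1 : ℝ) := Real.rpow_le_rpow_of_exponent_le (by linarith) h2
      _ ≤ 400 := by rw [Real.rpow_one]; exact hx.2

theorem sinpi_pos {α : ℝ} (h1 : 3 / 4 ≤ α) (h2 : α < 1) : 0 < Real.sin (Real.pi * α) := by
  have hπ := Real.pi_pos
  apply Real.sin_pos_of_pos_of_lt_pi <;> nlinarith

theorem KK_pos {φ α : ℝ} (h1 : 3 / 4 ≤ α) (h2 : α < 1) (h3 : 101 * Real.pi - Real.pi / 3 ≤ φ)
    (h4 : φ ≤ 101 * Real.pi + Real.pi / 3) : 0 < KK φ α := by
  have h5 := (tt_bd h1 h2.le h3 h4).1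
  have h6 := sinpi_pos h1 h2
  have h7 := Real.Gamma_pos_of_pos (by linarith : 0 < α)
  have h8 := Real.pi_pos
  have h9 : 0 < tt φ α := by linarith
  unfold KK
  positivity

theorem rho_pos {φ α : ℝ} (h1 : 3 / 4 ≤ α) (h2 : α < 1) (h3 : 101 * Real.pi - Real.pi / 3 ≤ φ)
    (h4 : φ ≤ 101 * Real.pi + Real.pi / 3) : 0 < rho φ α := by
  have h5 := KK_pos h1 h2 h3 h4
  have h6 : 0 < α := by linarith
  unfold rho
  positivity

theorem WW_formula {φ α : ℝ} (h1 : 3 / 4 ≤ α) (h2 : α < 1) (h3 : 101 * Real.pi - Real.pi / 3 ≤ φ)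
    (h4 : φ ≤ 101 * Real.pi + Real.pi / 3) :
    ∃ η : ℂ, ‖η‖ ≤ 1 / 20 ∧ WW φ α = -((rho φ α : ℂ) * exp (φ * I) + 1 + η) := by
  have hx := xx_bd h1 h2.le h3 h4
  have ht := tt_bd h1 h2.le h3 h4
  have hα : 0 < α := by linarith
  have hs := sinpi_pos h1 h2
  have hG := Real.Gamma_pos_of_pos hα
  have hG1 := one_le_Gamma_of_le_one hα h2.le
  have hG2 := Gamma_le_one (x := 2 * α) (by linarith) (by linarith)
  have hG3 := Gamma_le_two (x := 3 * α) (by linarith) (by linarith)
  have hG2' := Real.Gamma_pos_of_pos (by linarith : 0 < 2 * α)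
  have ht0 : 0 < tt φ α := by linarith
  have hsn : 0 < Real.sin (Real.pi / (2 * α)) := by
    have := (sin_bd h1 h2.le).1
    have := sqrt3_bd
    linarith
  obtain ⟨ϑ, hϑ, hML⟩ := P1_formula h1 h2 (by linarith : 0 < xx φ α) (t := tt φ α) rfl
  refine ⟨ϑ / ((Real.Gamma α : ℝ) : ℂ), ?_, ?_⟩
  · rw [norm_div, Complex.norm_of_nonneg hG.le, div_le_iff₀ hG]
    refine hϑ.trans ?_
    rw [div_le_iff₀ (by positivity)]
    have h5 : Real.Gamma (3 * α) + 2 * tt φ α * Real.Gamma (2 * α) ≤ 2 + 2 * tt φ α := by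
      nlinarith
    refine h5.trans ?_
    have h6 : tt φ α ^ 2 ≤ Real.Gamma α * tt φ α ^ 2 := le_mul_of_one_le_left (by positivity) hG1
    nlinarith
  · unfold WW
    rw [hML]
    have hexp : exp ((xx φ α : ℂ) * exp (((Real.pi / (2 * α) : ℝ) : ℂ) * I)) =
        ((Real.exp (xx φ α * Real.cos (Real.pi / (2 * α))) : ℝ) : ℂ) * (exp (φ * I) * I) := by
      have e1 : (xx φ α : ℂ) * exp (((Real.pi / (2 * α) : ℝ) : ℂ) * I) =
          ((xx φ α * Real.cos (Real.pi / (2 * α)) : ℝ) : ℂ) + ((φ : ℂ) * I + Real.pi / 2 * I) := by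
        have e2 : xx φ α * Real.sin (Real.pi / (2 * α)) = φ + Real.pi / 2 := by
          unfold xx
          field_simp
        have e3 : ((φ : ℂ) * I + Real.pi / 2 * I) = ((φ + Real.pi / 2 : ℝ) : ℂ) * I := by
          push_cast; ring
        rw [e3, ← e2, Complex.exp_mul_I, ← Complex.ofReal_cos, ← Complex.ofReal_sin]
        push_cast
        ring
      rw [e1, Complex.exp_add, ← Complex.ofReal_exp, Complex.exp_add, Complex.exp_pi_div_two_mul_I]
    rw [hexp]
    unfold rho KK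
    have hI := Complex.I_sq
    have hα' : (α : ℂ) ≠ 0 := by exact_mod_cast hα.ne'
    have hG' : ((Real.Gamma α : ℝ) : ℂ) ≠ 0 := by exact_mod_cast hG.ne'
    have hs' : ((Real.sin (Real.pi * α) : ℝ) : ℂ) ≠ 0 := by exact_mod_cast hs.ne'
    have ht' : ((tt φ α : ℝ) : ℂ) ≠ 0 := by exact_mod_cast ht0.ne'
    have hπ' : (Real.pi : ℂ) ≠ 0 := by exact_mod_cast Real.pi_pos.ne'
    simp only [Complex.ofReal_mul, Complex.ofReal_div]
    generalize ((Real.exp (xx φ α * Real.cos (Real.pi / (2 * α))) : ℝ) : ℂ) = E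
    generalize ((Real.Gamma α : ℝ) : ℂ) = G at hG' ⊢
    generalize ((Real.sin (Real.pi * α) : ℝ) : ℂ) = S at hs' ⊢
    generalize ((tt φ α : ℝ) : ℂ) = T at ht' ⊢
    generalize exp ((φ : ℂ) * I) = P
    field_simp
    rw [hI]
    ring

theorem rho_ratio {φ α : ℝ} (h1 : 3 / 4 ≤ α) (h2 : α < 1) (h3 : 101 * Real.pi - Real.pi / 3 ≤ φ)
    (h4 : φ ≤ 101 * Real.pi + Real.pi / 3) :
    rho (101 * Real.pi) α * (299 / 600) ≤ rho φ α ∧ rho φ α ≤ rho (101 * Real.pi) α * (301 / 150) := by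
  have hπ := Real.pi_pos
  have hα : 0 < α := by linarith
  have hx := xx_bd h1 h2.le h3 h4
  have hx0 := xx_bd h1 h2.le (φ := 101 * Real.pi) (by linarith) (by linarith)
  have hK0 := KK_pos h1 h2 (φ := 101 * Real.pi) (by linarith) (by linarith)
  obtain ⟨hs, hc1, hc2⟩ := sin_bd h1 h2.le
  have h5 := sqrt3_bd
  have hs0 : 0 < Real.sin (Real.pi / (2 * α)) := by linarith
  set c := Real.cos (Real.pi / (2 * α))
  -- the quotient of the `x`
  obtain ⟨r, hr⟩ : ∃ r, r = (φ + Real.pi / 2) / (101 * Real.pi + Real.pi / 2) := ⟨_, rfl⟩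
  have hr1 : 299 / 300 ≤ r := by
    rw [hr, le_div_iff₀ (by positivity)]
    nlinarith
  have hr2 : r ≤ 301 / 300 := by
    rw [hr, div_le_iff₀ (by positivity)]
    nlinarith
  have hxr : xx φ α = xx (101 * Real.pi) α * r := by
    unfold xx
    rw [hr]
    field_simp
  have hra : 299 / 300 ≤ r ^ α ∧ r ^ α ≤ 301 / 300 := by
    have hr0 : 0 < r := by linarith
    rcases le_total r 1 with h | h
    · constructor
      · refine hr1.trans ?_
        calc r = r ^ (1 : ℝ) := (Real.rpow_one r).symm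
          _ ≤ r ^ α := Real.rpow_le_rpow_of_exponent_ge hr0 h h2.le
      · refine (Real.rpow_le_one hr0.le h hα.le).trans (by norm_num)
    · constructor
      · exact le_trans (by norm_num) (Real.one_le_rpow h hα.le)
      · refine le_trans ?_ hr2
        calc r ^ α ≤ r ^ (1 : ℝ) := Real.rpow_le_rpow_of_exponent_le h h2.le
          _ = r := Real.rpow_one r
  have hdx : |xx φ α * c - xx (101 * Real.pi) α * c| ≤ Real.log 2 := by
    have e : xx φ α * c - xx (101 * Real.pi) α * c =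
        (φ - 101 * Real.pi) / Real.sin (Real.pi / (2 * α)) * c := by
      unfold xx
      field_simp
      ring
    rw [e, abs_mul, abs_div, abs_of_pos hs0]
    have h6 : |φ - 101 * Real.pi| ≤ Real.pi / 3 := by
      rw [abs_le]; constructor <;> linarith
    have h7 : |c| ≤ 1 / 2 := by rw [abs_le]; constructor <;> linarith
    have h8 : |φ - 101 * Real.pi| / Real.sin (Real.pi / (2 * α)) ≤ (Real.pi / 3) / (43 / 50) := by
      apply div_le_div₀ (by positivity) h6 (by norm_num)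
      linarith
    have h9 := Real.log_two_gt_d9
    have h10 := Real.pi_lt_d4
    calc |φ - 101 * Real.pi| / Real.sin (Real.pi / (2 * α)) * |c|
        ≤ (Real.pi / 3) / (43 / 50) * (1 / 2) :=
          mul_le_mul h8 h7 (abs_nonneg _) (by positivity)
      _ ≤ Real.log 2 := by
        have : (Real.pi / 3) / (43 / 50) * (1 / 2) = Real.pi * (50 / 258) := by ring
        rw [this]
        nlinarith
  have hexp : 1 / 2 * Real.exp (xx (101 * Real.pi) α * c) ≤ Real.exp (xx φ α * c) ∧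
      Real.exp (xx φ α * c) ≤ 2 * Real.exp (xx (101 * Real.pi) α * c) := by
    rw [abs_le] at hdx
    constructor
    · have : (1 / 2 : ℝ) = Real.exp (-Real.log 2) := by
        rw [Real.exp_neg, Real.exp_log (by norm_num)]; norm_num
      rw [this, ← Real.exp_add]
      apply Real.exp_le_exp.2
      linarith [hdx.1]
    · have h11 : Real.exp (Real.log 2) = 2 := Real.exp_log (by norm_num)
      calc Real.exp (xx φ α * c) ≤ Real.exp (Real.log 2 + xx (101 * Real.pi) α * c) := by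
            apply Real.exp_le_exp.2
            linarith [hdx.2]
        _ = _ := by rw [Real.exp_add, h11]
  have hK : KK φ α = KK (101 * Real.pi) α * r ^ α := by
    have : tt φ α = tt (101 * Real.pi) α * r ^ α := by
      unfold tt
      rw [hxr, Real.mul_rpow (by linarith) (by linarith)]
    unfold KK
    rw [this]
    ring
  have hA : 0 < KK (101 * Real.pi) α / α := by positivity
  have e1 : rho φ α = KK (101 * Real.pi) α / α * (r ^ α * Real.exp (xx φ α * c)) := by
    unfold rho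
    rw [hK]
    ring
  have e2 : rho (101 * Real.pi) α = KK (101 * Real.pi) α / α *
      Real.exp (xx (101 * Real.pi) α * c) := rfl
  have hE0 := Real.exp_pos (xx (101 * Real.pi) α * c)
  rw [e1, e2]
  constructor
  · rw [mul_assoc]
    apply mul_le_mul_of_nonneg_left _ hA.le
    calc Real.exp (xx (101 * Real.pi) α * c) * (299 / 600) =
        (299 / 300) * (1 / 2 * Real.exp (xx (101 * Real.pi) α * c)) := by ring
      _ ≤ r ^ α * Real.exp (xx φ α * c) := mul_le_mul hra.1 hexp.1 (by positivity) (by linarith [hra.1])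
  · rw [mul_assoc]
    apply mul_le_mul_of_nonneg_left _ hA.le
    calc r ^ α * Real.exp (xx φ α * c) ≤ (301 / 300) * (2 * Real.exp (xx (101 * Real.pi) α * c)) :=
          mul_le_mul hra.2 hexp.2 (by positivity) (by norm_num)
      _ = _ := by ring

theorem rho_left : rho (101 * Real.pi) (3 / 4) ≤ 1 / 3 := by
  have hπ := Real.pi_pos
  have hπ2 := Real.pi_lt_d4
  have hx := xx_bd (φ := 101 * Real.pi) (α := 3 / 4) le_rfl (by norm_num) (by linarith) (by linarith)
  have hG1 := one_le_Gamma_of_le_one (x := 3 / 4) (by norm_num) (by norm_num)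
  have hs : Real.sin (Real.pi * (3 / 4)) = Real.sqrt 2 / 2 := by
    rw [show Real.pi * (3 / 4) = Real.pi - Real.pi / 4 by ring, Real.sin_pi_sub,
      Real.sin_pi_div_four]
  have hc : Real.cos (Real.pi / (2 * (3 / 4))) = -(1 / 2) := by
    rw [show Real.pi / (2 * (3 / 4)) = Real.pi - Real.pi / 3 by ring, Real.cos_pi_sub,
      Real.cos_pi_div_three]
  have h2 : (7 / 5 : ℝ) ≤ Real.sqrt 2 := by
    apply Real.le_sqrt_of_sq_le
    norm_num
  have ht : tt (101 * Real.pi) (3 / 4) ≤ xx (101 * Real.pi) (3 / 4) := by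
    unfold tt
    calc xx (101 * Real.pi) (3 / 4) ^ (3 / 4 : ℝ) ≤ xx (101 * Real.pi) (3 / 4) ^ (1 : ℝ) :=
          Real.rpow_le_rpow_of_exponent_le (by linarith) (by norm_num)
      _ = _ := Real.rpow_one _
  unfold rho KK
  rw [hs, hc]
  set x := xx (101 * Real.pi) (3 / 4)
  have he : Real.exp (x * -(1 / 2)) ≤ 8 / x ^ 2 := by
    have h3 := Real.quadratic_le_exp_of_nonneg (x := x / 2) (by linarith)
    rw [show x * -(1 / 2) = -(x / 2) by ring, Real.exp_neg, inv_eq_one_div,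
      div_le_div_iff₀ (Real.exp_pos _) (by nlinarith)]
    nlinarith
  have hx0 : 0 < x := by linarith
  have hK : Real.pi * tt (101 * Real.pi) (3 / 4) / (Real.sqrt 2 / 2 * Real.Gamma (3 / 4)) / (3 / 4) ≤
      4 * x / (7 / 10) / (3 / 4) := by
    have h4 : (7 / 10 : ℝ) ≤ Real.sqrt 2 / 2 * Real.Gamma (3 / 4) := by nlinarith
    have h5 : Real.pi * tt (101 * Real.pi) (3 / 4) ≤ 4 * x := by
      apply mul_le_mul (by linarith) ht _ (by norm_num)
      unfold tt
      positivity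
    gcongr
  calc Real.pi * tt (101 * Real.pi) (3 / 4) / (Real.sqrt 2 / 2 * Real.Gamma (3 / 4)) / (3 / 4) *
        Real.exp (x * -(1 / 2)) ≤ (4 * x / (7 / 10) / (3 / 4)) * (8 / x ^ 2) :=
        mul_le_mul hK he (Real.exp_pos _).le (by positivity)
    _ = 1280 / 21 / x := by field_simp; ring
    _ ≤ 1 / 3 := by
      rw [div_le_iff₀ hx0]
      linarith [hx.1]

theorem rho_right : 7 ≤ rho (101 * Real.pi) (999 / 1000) := by
  have hπ := Real.pi_pos
  have hπ2 := Real.pi_lt_d4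
  have hx := xx_bd (φ := 101 * Real.pi) (α := 999 / 1000) (by norm_num) (by norm_num)
    (by linarith) (by linarith)
  have ht := (tt_bd (φ := 101 * Real.pi) (α := 999 / 1000) (by norm_num) (by norm_num)
    (by linarith) (by linarith)).1
  have hG0 := Real.Gamma_pos_of_pos (by norm_num : (0 : ℝ) < 999 / 1000)
  have hG : Real.Gamma (999 / 1000) ≤ 2 := by
    have h1 := Real.Gamma_add_one (s := 999 / 1000) (by norm_num)
    have h2 := Gamma_le_one (x := 999 / 1000 + 1) (by norm_num) (by norm_num)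
    rw [h1] at h2
    linarith
  have hs0 := sinpi_pos (α := 999 / 1000) (by norm_num) (by norm_num)
  have hs : Real.sin (Real.pi * (999 / 1000)) ≤ Real.pi / 1000 := by
    rw [show Real.pi * (999 / 1000) = Real.pi - Real.pi / 1000 by ring, Real.sin_pi_sub]
    exact Real.sin_le (by positivity)
  have hc : -(1 / 500) ≤ Real.cos (Real.pi / (2 * (999 / 1000))) := by
    have e : Real.pi / (2 * (999 / 1000)) = Real.pi / 1998 + Real.pi / 2 := by ring
    rw [e, Real.cos_add_pi_div_two]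
    have := Real.sin_le (x := Real.pi / 1998) (by positivity)
    linarith
  unfold rho
  set x := xx (101 * Real.pi) (999 / 1000)
  have he : Real.exp (-1) ≤ Real.exp (x * Real.cos (Real.pi / (2 * (999 / 1000)))) := by
    apply Real.exp_le_exp.2
    nlinarith [hx.1, hx.2]
  have he2 : 1 / 3 ≤ Real.exp (-1) := by
    rw [Real.exp_neg, inv_eq_one_div]
    apply div_le_div_of_nonneg_left (by norm_num) (Real.exp_pos _)
    linarith [Real.exp_one_lt_d9]
  have hK : 32000 ≤ KK (101 * Real.pi) (999 / 1000) / (999 / 1000) := by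
    have h3 : 32000 ≤ KK (101 * Real.pi) (999 / 1000) := by
      unfold KK
      rw [le_div_iff₀ (by positivity)]
      have h4 : Real.sin (Real.pi * (999 / 1000)) * Real.Gamma (999 / 1000) ≤
          Real.pi / 1000 * 2 := mul_le_mul hs hG hG0.le (by positivity)
      nlinarith
    rw [le_div_iff₀ (by norm_num)]
    linarith
  calc (7 : ℝ) ≤ 32000 * (1 / 3) := by norm_num
    _ ≤ _ := mul_le_mul hK (he2.trans he) (by norm_num) (by linarith)

theorem sin_half_cont : ContinuousOn (fun p : ℝ × ℝ => Real.sin (Real.pi / (2 * p.2)))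
    (Icc (101 * Real.pi - Real.pi / 3) (101 * Real.pi + Real.pi / 3) ×ˢ Icc (3 / 4) (999 / 1000)) := by
  apply Real.continuous_sin.comp_continuousOn
  apply ContinuousOn.div continuousOn_const (by fun_prop)
  intro p hp
  have := hp.2.1
  linarith

theorem xx_cont : ContinuousOn (fun p : ℝ × ℝ => xx p.1 p.2)
    (Icc (101 * Real.pi - Real.pi / 3) (101 * Real.pi + Real.pi / 3) ×ˢ Icc (3 / 4) (999 / 1000)) := by
  unfold xx
  apply ContinuousOn.div (by fun_prop) sin_half_cont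
  intro p hp
  have h1 := (sin_bd hp.2.1 (hp.2.2.trans (by norm_num))).1
  have h2 := sqrt3_bd
  linarith

theorem tt_cont : ContinuousOn (fun p : ℝ × ℝ => tt p.1 p.2)
    (Icc (101 * Real.pi - Real.pi / 3) (101 * Real.pi + Real.pi / 3) ×ˢ Icc (3 / 4) (999 / 1000)) := by
  unfold tt
  apply ContinuousOn.rpow xx_cont continuousOn_snd
  intro p hp
  left
  have := (xx_bd hp.2.1 (hp.2.2.trans (by norm_num)) hp.1.1 hp.1.2).1
  linarith

theorem KK_cont : ContinuousOn (fun p : ℝ × ℝ => KK p.1 p.2)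
    (Icc (101 * Real.pi - Real.pi / 3) (101 * Real.pi + Real.pi / 3) ×ˢ Icc (3 / 4) (999 / 1000)) := by
  unfold KK
  apply ContinuousOn.div (continuousOn_const.mul tt_cont)
  · apply ContinuousOn.mul (by fun_prop)
    intro p hp
    apply ContinuousAt.continuousWithinAt
    have h1 : ContinuousAt Real.Gamma p.2 := by
      apply (Real.differentiableAt_Gamma _).continuousAt
      intro m hm
      have : (0 : ℝ) ≤ m := m.cast_nonneg
      have := hp.2.1
      linarith
    exact ContinuousAt.comp (f := fun p : ℝ × ℝ => p.2) h1 continuousAt_snd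
  · intro p hp
    have h1 := sinpi_pos hp.2.1 (lt_of_le_of_lt hp.2.2 (by norm_num))
    have h2 := Real.Gamma_pos_of_pos (by linarith [hp.2.1] : 0 < p.2)
    positivity

theorem rho_cont : ContinuousOn (fun p : ℝ × ℝ => rho p.1 p.2)
    (Icc (101 * Real.pi - Real.pi / 3) (101 * Real.pi + Real.pi / 3) ×ˢ Icc (3 / 4) (999 / 1000)) := by
  unfold rho
  apply ContinuousOn.mul
  · apply ContinuousOn.div KK_cont continuousOn_snd
    intro p hp
    have := hp.2.1
    linarith
  · apply Real.continuous_exp.comp_continuousOn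
    apply ContinuousOn.mul xx_cont
    apply Real.continuous_cos.comp_continuousOn
    apply ContinuousOn.div continuousOn_const (by fun_prop)
    intro p hp
    have := hp.2.1
    linarith

theorem WW_cont : ContinuousOn (fun p : ℝ × ℝ => WW p.1 p.2)
    (Icc (101 * Real.pi - Real.pi / 3) (101 * Real.pi + Real.pi / 3) ×ˢ Icc (3 / 4) (999 / 1000)) := by
  unfold WW
  apply ContinuousOn.mul
  · exact continuousOn_const.mul (Complex.continuous_ofReal.comp_continuousOn KK_cont)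
  · have h := ML_continuousOn (α₀ := 3 / 4) (β₀ := 1) (by norm_num) one_pos 400
    refine h.comp (f := fun p : ℝ × ℝ => (p.2, (1 : ℝ), ((tt p.1 p.2 : ℂ) * I))) ?_ ?_
    · exact continuousOn_snd.prodMk (continuousOn_const.prodMk
        ((Complex.continuous_ofReal.comp_continuousOn tt_cont).mul continuousOn_const))
    · intro p hp
      have h1 := tt_bd hp.2.1 (hp.2.2.trans (by norm_num)) hp.1.1 hp.1.2
      refine ⟨hp.2.1, le_rfl, ?_⟩
      simp only [norm_mul, Complex.norm_I, mul_one]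
      rw [Complex.norm_of_nonneg (by linarith)]
      exact h1.2

/-- **a zero on the imaginary axis** -/
theorem exists_zero : ∃ α t : ℝ, 3 / 4 ≤ α ∧ α ≤ 999 / 1000 ∧ 64 ≤ t ∧ ML α 1 (t * I) = 0 := by
  have hπ := Real.pi_pos
  obtain ⟨a, ha, hae, haf⟩ := last_crossing (f := fun α => rho (101 * Real.pi) α) (p := 3 / 4)
    (q := 999 / 1000) (v := 1 / 3) (by norm_num) (by
      refine rho_cont.comp (f := fun α : ℝ => ((101 * Real.pi), α)) (by fun_prop) ?_
      intro α hα
      exact ⟨⟨by linarith, by linarith⟩, hα⟩) rho_left (by linarith [rho_right])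
  -- signs of the trigonometric functions
  have hper : ∀ δ : ℝ, exp (((101 * Real.pi + δ : ℝ) : ℂ) * I) = ⟨-Real.cos δ, -Real.sin δ⟩ := by
    intro δ
    have e1 : Real.cos (101 * Real.pi + δ) = -Real.cos δ := by
      rw [show 101 * Real.pi + δ = (δ + Real.pi) + (50 : ℕ) * (2 * Real.pi) by push_cast; ring,
        Real.cos_add_nat_mul_two_pi, Real.cos_add_pi]
    have e2 : Real.sin (101 * Real.pi + δ) = -Real.sin δ := by
      rw [show 101 * Real.pi + δ = (δ + Real.pi) + (50 : ℕ) * (2 * Real.pi) by push_cast; ring,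
        Real.sin_add_nat_mul_two_pi, Real.sin_add_pi]
    apply Complex.ext
    · rw [Complex.exp_ofReal_mul_I_re, e1]
    · rw [Complex.exp_ofReal_mul_I_im, e2]
  let φ₁ := 101 * Real.pi - Real.pi / 3
  let φ₂ := 101 * Real.pi + Real.pi / 3
  let F : ℝ × ℝ → ℂ := fun p => WW (max φ₁ (min p.1 φ₂)) (max a (min p.2 (999 / 1000)))
  have hφ : φ₁ ≤ φ₂ := by simp only [φ₁, φ₂]; linarith
  have hcl1 : ∀ s : ℝ, max φ₁ (min s φ₂) ∈ Icc φ₁ φ₂ := fun s =>
    ⟨le_max_left _ _, max_le hφ (min_le_right _ _)⟩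
  have hcl2 : ∀ s : ℝ, max a (min s (999 / 1000)) ∈ Icc a (999 / 1000) := fun s =>
    ⟨le_max_left _ _, max_le ha.2 (min_le_right _ _)⟩
  have hF : Continuous F := by
    refine WW_cont.comp_continuous (f := fun p : ℝ × ℝ =>
      (max φ₁ (min p.1 φ₂), max a (min p.2 (999 / 1000)))) (by fun_prop) ?_
    intro p
    exact ⟨hcl1 _, ⟨ha.1.trans (hcl2 _).1, (hcl2 _).2⟩⟩
  have he1 : ∀ s ∈ Icc φ₁ φ₂, max φ₁ (min s φ₂) = s := fun s hs => by
    rw [min_eq_left hs.2, max_eq_right hs.1]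
  have he2 : ∀ s ∈ Icc a (999 / 1000), max a (min s (999 / 1000)) = s := fun s hs => by
    rw [min_eq_left hs.2, max_eq_right hs.1]
  have hFe : ∀ s ∈ Icc φ₁ φ₂, ∀ u ∈ Icc a (999 / 1000), F (s, u) = WW s u := fun s hs u hu => by
    simp only [F]
    rw [he1 s hs, he2 u hu]
  have h34 : ∀ u ∈ Icc a (999 / 1000), 3 / 4 ≤ u ∧ u < 1 := fun u hu =>
    ⟨ha.1.trans hu.1, lt_of_le_of_lt hu.2 (by norm_num)⟩
  have haa : a ∈ Icc a (999 / 1000) := ⟨le_rfl, ha.2⟩
  have hbb : (999 / 1000 : ℝ) ∈ Icc a (999 / 1000) := ⟨ha.2, le_rfl⟩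
  have h11 : φ₁ ∈ Icc φ₁ φ₂ := ⟨le_rfl, hφ⟩
  have h22 : φ₂ ∈ Icc φ₁ φ₂ := ⟨hφ, le_rfl⟩
  have h3b := sqrt3_bd
  -- the real part of `exp`
  have hcosr : ∀ s ∈ Icc φ₁ φ₂, -1 ≤ (exp ((s : ℂ) * I)).re ∧ (exp ((s : ℂ) * I)).re ≤ -(1 / 2) := by
    intro s hs
    rw [show (s : ℂ) = ((101 * Real.pi + (s - 101 * Real.pi) : ℝ) : ℂ) by push_cast; ring,
      hper]
    have h5 : |s - 101 * Real.pi| ≤ Real.pi / 3 := by
      rw [abs_le]
      simp only [φ₁, φ₂] at hs
      constructor <;> linarith [hs.1, hs.2]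
    have h6 : Real.cos (Real.pi / 3) ≤ Real.cos (s - 101 * Real.pi) := by
      rw [← Real.cos_abs (s - 101 * Real.pi)]
      exact Real.cos_le_cos_of_nonneg_of_le_pi (abs_nonneg _) (by linarith) h5
    rw [Real.cos_pi_div_three] at h6
    have h7 := Real.cos_le_one (s - 101 * Real.pi)
    constructor
    · show -1 ≤ -Real.cos (s - 101 * Real.pi)
      linarith
    · show -Real.cos (s - 101 * Real.pi) ≤ -(1 / 2)
      linarith
  obtain ⟨s, hs, u, hu, hz⟩ := Pool.Agent.Helper577.miranda hF hφ ha.2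
    (by
      intro s hs
      rw [hFe s hs a haa]
      obtain ⟨η, hη, e⟩ := WW_formula (h34 a haa).1 (h34 a haa).2 hs.1 hs.2
      have h5 := (rho_ratio (h34 a haa).1 (h34 a haa).2 hs.1 hs.2).2
      have h6 := rho_pos (h34 a haa).1 (h34 a haa).2 hs.1 hs.2
      have h7 := abs_le.1 ((Complex.abs_re_le_norm η).trans hη)
      have hae' : rho (101 * Real.pi) a = 1 / 3 := hae
      rw [hae'] at h5
      rw [e]
      have h8 := (hcosr s hs).1
      simp only [Complex.neg_re, Complex.add_re, Complex.re_ofReal_mul, Complex.one_re]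
      nlinarith)
    (by
      intro s hs
      rw [hFe s hs _ hbb]
      obtain ⟨η, hη, e⟩ := WW_formula (h34 _ hbb).1 (h34 _ hbb).2 hs.1 hs.2
      have h5 := (rho_ratio (h34 _ hbb).1 (h34 _ hbb).2 hs.1 hs.2).1
      have h6 := rho_right
      have h7 := abs_le.1 ((Complex.abs_re_le_norm η).trans hη)
      rw [e]
      have h8 := (hcosr s hs).2
      simp only [Complex.neg_re, Complex.add_re, Complex.re_ofReal_mul, Complex.one_re]
      nlinarith)
    (by
      intro u hu
      rw [hFe φ₁ h11 u hu]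
      obtain ⟨η, hη, e⟩ := WW_formula (h34 u hu).1 (h34 u hu).2 h11.1 h11.2
      have h5 := (rho_ratio (h34 u hu).1 (h34 u hu).2 h11.1 h11.2).1
      have h6 : 1 / 3 ≤ rho (101 * Real.pi) u := haf u hu
      have h7 := abs_le.1 ((Complex.abs_im_le_norm η).trans hη)
      rw [e]
      have h8 : (exp ((φ₁ : ℂ) * I)).im = Real.sqrt 3 / 2 := by
        rw [show (φ₁ : ℂ) = ((101 * Real.pi + (-(Real.pi / 3)) : ℝ) : ℂ) by
          simp only [φ₁]; push_cast; ring, hper]
        show -Real.sin (-(Real.pi / 3)) = _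
        rw [Real.sin_neg, Real.sin_pi_div_three, neg_neg]
      simp only [Complex.neg_im, Complex.add_im, Complex.im_ofReal_mul, Complex.one_im, h8]
      nlinarith)
    (by
      intro u hu
      rw [hFe φ₂ h22 u hu]
      obtain ⟨η, hη, e⟩ := WW_formula (h34 u hu).1 (h34 u hu).2 h22.1 h22.2
      have h5 := (rho_ratio (h34 u hu).1 (h34 u hu).2 h22.1 h22.2).1
      have h6 : 1 / 3 ≤ rho (101 * Real.pi) u := haf u hu
      have h7 := abs_le.1 ((Complex.abs_im_le_norm η).trans hη)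
      rw [e]
      have h8 : (exp ((φ₂ : ℂ) * I)).im = -(Real.sqrt 3 / 2) := by
        rw [show (φ₂ : ℂ) = ((101 * Real.pi + (Real.pi / 3) : ℝ) : ℂ) by
          simp only [φ₂], hper]
        show -Real.sin ((Real.pi / 3)) = _
        rw [Real.sin_pi_div_three]
      simp only [Complex.neg_im, Complex.add_im, Complex.im_ofReal_mul, Complex.one_im, h8]
      nlinarith)
  rw [hFe s hs u hu] at hz
  have hu' := h34 u hu
  have hK := KK_pos hu'.1 hu'.2 hs.1 hs.2
  refine ⟨u, tt s u, hu'.1, hu.2, (tt_bd hu'.1 hu'.2.le hs.1 hs.2).1, ?_⟩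
  unfold WW at hz
  rcases mul_eq_zero.1 hz with h | h
  · rcases mul_eq_zero.1 h with h | h
    · exact absurd h Complex.I_ne_zero
    · exact absurd (by exact_mod_cast h) hK.ne'
  · exact h

end Pool.Agent.Q80.HK
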