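import Pool.Agent.Q80.HK.G

/-!
# Asymptotic formulas for `E_{α,β}(i^{-α} t)`, `β = 1, 2, α`, `12/7 ≤ α < 2`
-/

set_option autoImplicit false

open Complex Filter Topology Set MeasureTheory

namespace Pool.Agent.Q80.HK

/-- the point `i^{-α} t` -/
noncomputable def zz (α t : ℝ) : ℂ := (t : ℂ) * exp (-(((Real.pi * α / 2 : ℝ) : ℂ) * I))

theorem zz_norm {α t : ℝ} (ht : 0 < t) : ‖zz α t‖ = t := by
  unfold zz
  rw [norm_mul, Complex.norm_of_nonneg ht.le, Complex.norm_exp]
  simp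

theorem zz_ne {α t : ℝ} (ht : 0 < t) : zz α t ≠ 0 := by
  rw [← norm_pos_iff, zz_norm ht]
  exact ht

theorem norm_sub_exp {X t θ : ℝ} (hX : 0 < X) (ht : 0 < t) (hc : Real.cos θ ≤ 0) :
    t ≤ ‖((X : ℝ) : ℂ) - (t : ℂ) * exp ((θ : ℂ) * I)‖ := by
  have e1 : ((X : ℝ) : ℂ) - (t : ℂ) * exp ((θ : ℂ) * I) = ⟨X - t * Real.cos θ, -(t * Real.sin θ)⟩ := by
    have : exp ((θ : ℂ) * I) = ⟨Real.cos θ, Real.sin θ⟩ := by
      apply Complex.ext
      · rw [Complex.exp_ofReal_mul_I_re]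
      · rw [Complex.exp_ofReal_mul_I_im]
    rw [this]
    apply Complex.ext <;> simp
  rw [e1, Complex.norm_def, Complex.normSq_mk]
  apply Real.le_sqrt_of_sq_le
  have hsc := Real.sin_sq_add_cos_sq θ
  have : (X - t * Real.cos θ) * (X - t * Real.cos θ) + -(t * Real.sin θ) * -(t * Real.sin θ) =
      X ^ 2 + 2 * X * t * (-Real.cos θ) + t ^ 2 * (Real.sin θ ^ 2 + Real.cos θ ^ 2) := by ring
  rw [this, hsc]
  have h2 : 0 ≤ 2 * X * t * (-Real.cos θ) := by
    apply mul_nonneg (by positivity)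
    linarith
  nlinarith [sq_nonneg X]

theorem fac_norm {α t : ℝ} (h1 : 12 / 7 ≤ α) (h2 : α ≤ 2) (ht : 0 < t) (y : ℝ) :
    t ≤ ‖((Real.exp (α * y) : ℝ) : ℂ) - zz α t * exp (-(α * Real.pi * I))‖ ∧
    t ≤ ‖((Real.exp (α * y) : ℝ) : ℂ) - zz α t * exp (α * Real.pi * I)‖ := by
  have hπ := Real.pi_pos
  have hX := Real.exp_pos (α * y)
  have e1 : zz α t * exp (-(α * Real.pi * I)) = (t : ℂ) * exp (((-(3 * Real.pi * α / 2) : ℝ) : ℂ) * I) := by
    unfold zz
    rw [mul_assoc, ← Complex.exp_add]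
    congr 2
    push_cast
    ring
  have e2 : zz α t * exp (α * Real.pi * I) = (t : ℂ) * exp (((Real.pi * α / 2 : ℝ) : ℂ) * I) := by
    unfold zz
    rw [mul_assoc, ← Complex.exp_add]
    congr 2
    push_cast
    ring
  rw [e1, e2]
  constructor
  · apply norm_sub_exp hX ht
    rw [Real.cos_neg, show 3 * Real.pi * α / 2 = (3 * Real.pi * α / 2 - 2 * Real.pi) + 2 * Real.pi by ring,
      Real.cos_add_two_pi]
    apply Real.cos_nonpos_of_pi_div_two_le_of_le <;> nlinarith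
  · apply norm_sub_exp hX ht
    apply Real.cos_nonpos_of_pi_div_two_le_of_le <;> nlinarith

theorem DD_norm {α t : ℝ} (h1 : 12 / 7 ≤ α) (h2 : α ≤ 2) (ht : 0 < t) (y : ℝ) :
    t ^ 2 ≤ ‖DD α (zz α t) y‖ := by
  unfold DD
  rw [norm_mul, pow_two]
  exact mul_le_mul (fac_norm h1 h2 ht y).1 (fac_norm h1 h2 ht y).2 ht.le (norm_nonneg _)

theorem DD_ne {α t : ℝ} (h1 : 12 / 7 ≤ α) (h2 : α ≤ 2) (ht : 0 < t) (y : ℝ) :
    DD α (zz α t) y ≠ 0 := fun h => by
  have := DD_norm h1 h2 ht y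
  rw [h, norm_zero] at this
  nlinarith

/-- the two poles -/
noncomputable def pp (x : ℝ) : ℂ := (Real.log x : ℂ) + ((-(Real.pi / 2) : ℝ) : ℂ) * I
noncomputable def qq (α x : ℝ) : ℂ := (Real.log x : ℂ) + ((2 * Real.pi / α - Real.pi / 2 : ℝ) : ℂ) * I

theorem pp_im (x : ℝ) : (pp x).im = -(Real.pi / 2) := by
  unfold pp
  rw [Complex.add_im, Complex.ofReal_im, Complex.mul_im, Complex.ofReal_re, Complex.ofReal_im,
      Complex.I_re, Complex.I_im]
  ring

theorem qq_im (α x : ℝ) : (qq α x).im = 2 * Real.pi / α - Real.pi / 2 := by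
  unfold qq
  rw [Complex.add_im, Complex.ofReal_im, Complex.mul_im, Complex.ofReal_re, Complex.ofReal_im,
      Complex.I_re, Complex.I_im]
  ring

theorem pp_re (x : ℝ) : (pp x).re = Real.log x := by
  unfold pp
  rw [Complex.add_re, Complex.ofReal_re, Complex.mul_re, Complex.ofReal_re, Complex.ofReal_im,
      Complex.I_re, Complex.I_im]
  ring

theorem qq_re (α x : ℝ) : (qq α x).re = Real.log x := by
  unfold qq
  rw [Complex.add_re, Complex.ofReal_re, Complex.mul_re, Complex.ofReal_re, Complex.ofReal_im,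
      Complex.I_re, Complex.I_im]
  ring

theorem pp_exp {α t x : ℝ} (hx : 0 < x) (ht : t = x ^ α) : zz α t = exp (α * pp x) := by
  unfold zz pp
  rw [mul_add, Complex.exp_add]
  congr 1
  · rw [ht, Real.rpow_def_of_pos hx, Complex.ofReal_exp]
    congr 1
    push_cast
    ring
  · congr 1
    push_cast
    ring

theorem qq_exp {α t x : ℝ} (hα : 0 < α) (hx : 0 < x) (ht : t = x ^ α) :
    zz α t = exp (α * qq α x) := by
  rw [pp_exp hx ht]
  have : (α : ℂ) * qq α x = α * pp x + 2 * Real.pi * I := by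
    unfold qq pp
    have : (α : ℂ) ≠ 0 := by exact_mod_cast hα.ne'
    push_cast
    field_simp
    ring
  rw [this, Complex.exp_add, Complex.exp_two_pi_mul_I, mul_one]

theorem rep2 {α β t x : ℝ} (h1 : 12 / 7 ≤ α) (h2 : α < 2) (hx : 0 < x) (ht : t = x ^ α)
    (hβ : 0 < β) (hβ2 : β < 1 + α) :
    ML α β (zz α t) = (N β (pp x) / α + N β (qq α x) / α) +
      (1 / (2 * Real.pi * I)) * ∫ y : ℝ, dd α β (zz α t) y := by
  have hα : 0 < α := by linarith
  have hπ := Real.pi_pos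
  have ht0 : 0 < t := by rw [ht]; positivity
  have ha1 : Real.pi < 2 * Real.pi / α := by
    rw [lt_div_iff₀ hα]; nlinarith
  have ha2 : 2 * Real.pi / α ≤ Real.pi * (7 / 6) := by
    rw [div_le_iff₀ hα]; nlinarith
  refine rep_two (m := 0) hα hβ hβ2 (pp_exp hx ht) (qq_exp hα hx ht) (by rw [pp_re, qq_re])
    ?_ ?_ ?_ ?_ ?_ ?_ ?_ ?_ ht0 ?_ ?_
  · rw [pp_im]; linarith
  · rw [pp_im]; linarith
  · rw [pp_im]; linarith
  · rw [pp_im]; linarith
  · rw [qq_im]; linarith
  · rw [qq_im]; linarith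
  · rw [qq_im]; linarith
  · rw [qq_im]; linarith
  · intro y
    rw [_root_.Pool.Agent.Q80.HK.den_pos, norm_div, Complex.norm_of_nonneg (Real.exp_pos _).le,
      le_div_iff₀ (Real.exp_pos _), mul_assoc, ← Real.exp_add]
    simpa using (fac_norm h1 h2.le ht0 y).1
  · intro y
    rw [den_neg, norm_div, Complex.norm_of_nonneg (Real.exp_pos _).le,
      le_div_iff₀ (Real.exp_pos _), mul_assoc, ← Real.exp_add]
    simpa using (fac_norm h1 h2.le ht0 y).2

/-- the integral of `E0 c / DD` -/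
theorem int_bound {α t c : ℝ} (h1 : 12 / 7 ≤ α) (h2 : α ≤ 2) (ht : 0 < t) (hc : 0 < c) :
    Integrable (fun y => (E0 c y : ℂ) / DD α (zz α t) y) ∧
    ‖∫ y, (E0 c y : ℂ) / DD α (zz α t) y‖ ≤ Real.Gamma c / t ^ 2 := by
  have hDc : Continuous (DD α (zz α t)) := by unfold DD; fun_prop
  have hcont : Continuous (fun y => (E0 c y : ℂ) / DD α (zz α t) y) := by
    have := E0_cont c
    exact Continuous.div (by fun_prop) hDc (DD_ne h1 h2 ht)
  have hb : ∀ y, ‖(E0 c y : ℂ) / DD α (zz α t) y‖ ≤ E0 c y / t ^ 2 := by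
    intro y
    rw [norm_div, Complex.norm_of_nonneg (E0_pos c y).le]
    exact div_le_div_of_nonneg_left (E0_pos c y).le (by positivity) (DD_norm h1 h2 ht y)
  have hi := (E0_integrable hc).div_const (t ^ 2)
  refine ⟨hi.mono' hcont.aestronglyMeasurable (ae_of_all _ hb), ?_⟩
  refine (norm_integral_le_of_norm_le hi (ae_of_all _ hb)).trans (le_of_eq ?_)
  rw [integral_div, E0_integral hc]

/-- the constant `sin (π α) / π` -/
noncomputable def ta (α : ℝ) : ℝ := Real.sin (Real.pi * α) / Real.pi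

theorem formula_one {α t x : ℝ} (h1 : 12 / 7 ≤ α) (h2 : α < 2) (hx : 0 < x) (ht : t = x ^ α) :
    ∃ r : ℂ, ‖r‖ ≤ |ta α| * Real.Gamma α / t ∧
      ML α 1 (zz α t) = (N 1 (pp x) / α + N 1 (qq α x) / α) + r := by
  have ht0 : 0 < t := by rw [ht]; positivity
  have hα : 0 < α := by linarith
  have hπ' : (Real.pi : ℂ) ≠ 0 := by exact_mod_cast Real.pi_pos.ne'
  refine ⟨-(((ta α : ℝ) : ℂ) * zz α t * ∫ y, (E0 α y : ℂ) / DD α (zz α t) y), ?_, ?_⟩
  · rw [norm_neg, norm_mul, norm_mul, zz_norm ht0, Complex.norm_real, Real.norm_eq_abs]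
    have h := (int_bound h1 h2.le ht0 hα).2
    calc |ta α| * t * ‖∫ y, (E0 α y : ℂ) / DD α (zz α t) y‖ ≤ |ta α| * t * (Real.Gamma α / t ^ 2) := by
          gcongr
      _ = _ := by field_simp
  · rw [rep2 h1 h2 hx ht one_pos (by linarith)]
    congr 1
    have hdd : ∀ y, dd α 1 (zz α t) y = (-(2 * I * ((Real.sin (Real.pi * α) : ℝ) : ℂ) * zz α t)) *
        ((E0 α y : ℂ) / DD α (zz α t) y) := by
      intro y
      rw [dd_eq _ _ _ _ (DD_ne h1 h2.le ht0 y)]
      have e1 : Real.sin (Real.pi * 1) = 0 := by simp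
      have e2 : Real.sin (Real.pi * (1 - α)) = Real.sin (Real.pi * α) := by
        rw [show Real.pi * (1 - α) = Real.pi - Real.pi * α by ring, Real.sin_pi_sub]
      have e3 : (E0 (1 - 1) y : ℂ) * ((Real.exp (α * y) : ℝ) : ℂ) = (E0 α y : ℂ) := by
        rw [← Complex.ofReal_mul, E0_mul]
        congr 2
        ring
      rw [e1, e2, mul_assoc (2 * I) _ (((Real.exp (α * y) : ℝ) : ℂ)), e3, Complex.ofReal_zero]
      ring
    simp only [hdd]
    rw [integral_const_mul]
    generalize (∫ y, (E0 α y : ℂ) / DD α (zz α t) y) = Q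
    unfold ta
    push_cast
    field_simp

theorem formula_alpha {α t x : ℝ} (h1 : 12 / 7 ≤ α) (h2 : α < 2) (hx : 0 < x) (ht : t = x ^ α) :
    ∃ r : ℂ, ‖r‖ ≤ |ta α| * Real.Gamma (1 + α) / t ^ 2 ∧
      ML α α (zz α t) = (N α (pp x) / α + N α (qq α x) / α) + r := by
  have ht0 : 0 < t := by rw [ht]; positivity
  have hα : 0 < α := by linarith
  have hπ' : (Real.pi : ℂ) ≠ 0 := by exact_mod_cast Real.pi_pos.ne'
  refine ⟨((ta α : ℝ) : ℂ) * ∫ y, (E0 (1 + α) y : ℂ) / DD α (zz α t) y, ?_, ?_⟩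
  · rw [norm_mul, Complex.norm_real, Real.norm_eq_abs]
    have h := (int_bound h1 h2.le ht0 (by linarith : 0 < 1 + α)).2
    calc |ta α| * ‖∫ y, (E0 (1 + α) y : ℂ) / DD α (zz α t) y‖ ≤
          |ta α| * (Real.Gamma (1 + α) / t ^ 2) := by gcongr
      _ = _ := by field_simp
  · rw [rep2 h1 h2 hx ht hα (by linarith)]
    congr 1
    have hdd : ∀ y, dd α α (zz α t) y = (2 * I * ((Real.sin (Real.pi * α) : ℝ) : ℂ)) *
        ((E0 (1 + α) y : ℂ) / DD α (zz α t) y) := by
      intro y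
      rw [dd_eq _ _ _ _ (DD_ne h1 h2.le ht0 y)]
      have e1 : Real.sin (Real.pi * (α - α)) = 0 := by simp
      have e3 : (E0 (1 + α) y : ℂ) = (E0 (1 - α) y : ℂ) * ((Real.exp (α * y) : ℝ) : ℂ) *
          ((Real.exp (α * y) : ℝ) : ℂ) := by
        rw [← Complex.ofReal_mul, E0_mul, ← Complex.ofReal_mul, E0_mul]
        congr 2
        ring
      rw [e1, e3, Complex.ofReal_zero]
      ring
    simp only [hdd]
    rw [integral_const_mul]
    generalize (∫ y, (E0 (1 + α) y : ℂ) / DD α (zz α t) y) = Q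
    unfold ta
    push_cast
    field_simp

theorem formula_two {α t x : ℝ} (h1 : 12 / 7 ≤ α) (h2 : α < 2) (hx : 0 < x) (ht : t = x ^ α) :
    ∃ r : ℂ, ‖r‖ ≤ (2 * t * Real.Gamma (2 * α - 1) + Real.Gamma (3 * α - 1)) / t ^ 2 ∧
      ML α 2 (zz α t) = (N 2 (pp x) / α + N 2 (qq α x) / α) +
        ((ta α : ℝ) : ℂ) / zz α t * (((Real.Gamma (α - 1) : ℝ) : ℂ) + r) := by
  have ht0 : 0 < t := by rw [ht]; positivity
  have hα : 0 < α := by linarith
  have hπ' : (Real.pi : ℂ) ≠ 0 := by exact_mod_cast Real.pi_pos.ne'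
  have hz := zz_ne (α := α) ht0
  have hzn := zz_norm (α := α) ht0
  obtain ⟨z, hzdef⟩ : ∃ z, z = zz α t := ⟨_, rfl⟩
  have hD0 := DD_ne h1 h2.le ht0
  have hDn := DD_norm h1 h2.le ht0
  rw [← hzdef] at hz hzn hD0 hDn ⊢
  let f : ℝ → ℂ := fun y => (E0 (α - 1) y : ℂ) *
    (2 * z * ((Real.exp (α * y) : ℝ) : ℂ) * Real.cos (Real.pi * α) -
      ((Real.exp (α * y) : ℝ) : ℂ) ^ 2) / DD α z y
  have hDc : Continuous (DD α z) := by unfold DD; fun_prop
  have hfc : Continuous f := by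
    have := E0_cont (α - 1)
    exact Continuous.div (by fun_prop) hDc hD0
  have hfb : ∀ y, ‖f y‖ ≤ (2 * t * E0 (2 * α - 1) y + E0 (3 * α - 1) y) / t ^ 2 := by
    intro y
    have hE := E0_pos (α - 1) y
    have hX := Real.exp_pos (α * y)
    have h3 : ‖2 * z * ((Real.exp (α * y) : ℝ) : ℂ) * Real.cos (Real.pi * α) -
        ((Real.exp (α * y) : ℝ) : ℂ) ^ 2‖ ≤ 2 * t * Real.exp (α * y) + Real.exp (α * y) ^ 2 := by
      refine (norm_sub_le _ _).trans ?_
      rw [norm_pow, Complex.norm_of_nonneg hX.le]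
      have h4 : ‖2 * z * ((Real.exp (α * y) : ℝ) : ℂ) * Real.cos (Real.pi * α)‖ =
          2 * t * Real.exp (α * y) * |Real.cos (Real.pi * α)| := by
        rw [norm_mul, norm_mul, norm_mul, Complex.norm_of_nonneg hX.le, hzn,
          Complex.norm_real, Real.norm_eq_abs]
        simp
      rw [h4]
      have h5 := Real.abs_cos_le_one (Real.pi * α)
      have h6 : 0 ≤ 2 * t * Real.exp (α * y) := by positivity
      nlinarith
    have h5 : ‖f y‖ = E0 (α - 1) y * ‖2 * z * ((Real.exp (α * y) : ℝ) : ℂ) *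
        Real.cos (Real.pi * α) - ((Real.exp (α * y) : ℝ) : ℂ) ^ 2‖ / ‖DD α z y‖ := by
      simp only [f]
      rw [norm_div, norm_mul, Complex.norm_of_nonneg hE.le]
    rw [h5]
    have h6 : 2 * t * E0 (2 * α - 1) y + E0 (3 * α - 1) y =
        E0 (α - 1) y * (2 * t * Real.exp (α * y) + Real.exp (α * y) ^ 2) := by
      have a1 : E0 (2 * α - 1) y = E0 (α - 1) y * Real.exp (α * y) := by
        rw [E0_mul]; congr 1; ring
      have a2 : E0 (3 * α - 1) y = E0 (α - 1) y * Real.exp (α * y) * Real.exp (α * y) := by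
        rw [E0_mul, E0_mul]; congr 1; ring
      rw [a1, a2]
      ring
    rw [h6]
    apply div_le_div₀ (by positivity) (by gcongr) (by positivity) (hDn y)
  have hbi : Integrable (fun y => (2 * t * E0 (2 * α - 1) y + E0 (3 * α - 1) y) / t ^ 2) :=
    (((E0_integrable (by linarith)).const_mul _).add (E0_integrable (by linarith))).div_const _
  have hfi : Integrable f := hbi.mono' hfc.aestronglyMeasurable (ae_of_all _ hfb)
  refine ⟨∫ y, f y, ?_, ?_⟩
  · refine (norm_integral_le_of_norm_le hbi (ae_of_all _ hfb)).trans (le_of_eq ?_)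
    rw [integral_div, integral_add ((E0_integrable (by linarith)).const_mul _)
      (E0_integrable (by linarith)), integral_const_mul, E0_integral (by linarith),
      E0_integral (by linarith)]
  · have hrep := rep2 h1 h2 hx ht (β := 2) (by norm_num) (by linarith)
    rw [← hzdef] at hrep
    rw [hrep]
    congr 1
    have hddf : ∀ y, dd α 2 z y = (2 * I * ((Real.sin (Real.pi * α) : ℝ) : ℂ) / z) *
        ((E0 (α - 1) y : ℂ) + f y) := by
      intro y
      rw [dd_eq _ _ _ _ (hD0 y)]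
      have e1 : Real.sin (Real.pi * 2) = 0 := by
        rw [mul_comm]; exact Real.sin_two_pi
      have e2 : Real.sin (Real.pi * (2 - α)) = -Real.sin (Real.pi * α) := by
        rw [show Real.pi * (2 - α) = -(Real.pi * α) + 2 * Real.pi by ring, Real.sin_add_two_pi,
          Real.sin_neg]
      have e3 : (E0 (1 - 2) y : ℂ) * ((Real.exp (α * y) : ℝ) : ℂ) = (E0 (α - 1) y : ℂ) := by
        rw [← Complex.ofReal_mul, E0_mul]
        congr 2
        ring
      rw [e1, e2]
      simp only [f]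
      have hDx := DD_expand α z y
      have hD := hD0 y
      rw [mul_assoc (2 * I) _ (((Real.exp (α * y) : ℝ) : ℂ)), e3]
      generalize (E0 (α - 1) y : ℂ) = E
      generalize ((Real.exp (α * y) : ℝ) : ℂ) = X at hDx ⊢
      generalize DD α z y = D at hDx hD ⊢
      generalize Real.cos (Real.pi * α) = C at hDx ⊢
      generalize Real.sin (Real.pi * α) = S
      push_cast
      field_simp
      linear_combination (-(E * (S : ℂ))) * hDx
    simp only [hddf]
    rw [integral_const_mul]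
    have h7 : (∫ y, ((E0 (α - 1) y : ℂ) + f y)) = ((Real.Gamma (α - 1) : ℝ) : ℂ) + ∫ y, f y := by
      refine (integral_add (f := fun y => ((E0 (α - 1) y : ℝ) : ℂ)) (g := f)
        (E0_integrable (by linarith)).ofReal hfi).trans ?_
      rw [integral_complex_ofReal, E0_integral (by linarith)]
    rw [h7]
    generalize (∫ y, f y) = Q
    unfold ta
    push_cast
    field_simp

end Pool.Agent.Q80.HK
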