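import Pool.Agent.Q80.HK.J
import Pool.Agent.Q80.HK.H

/-!
# The quadratic combination of Mittag-Leffler functions
-/

set_option autoImplicit false

open Complex Filter Topology Set MeasureTheory

namespace Pool.Agent.Q80.HK

/-- the quadratic combination -/
noncomputable def psi (α t : ℝ) : ℂ :=
  ML α 1 (zz α t) ^ 2 - zz α t * ML α 2 (zz α t) * ML α α (zz α t)

theorem alg_identity {a A1 A2 z1 z2 z τ G r1 ra e2 κ : ℂ} (ha : a ≠ 0) (hA1 : A1 ≠ 0)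
    (hz1 : z1 ≠ 0) (hz2 : z2 ≠ 0) (hz : z ≠ 0) (hτ : τ ≠ 0) (hG : G ≠ 0) (hκ : κ ≠ 0)
    (hk : κ * (z1 * z2) = 2 * z1 * z2 - z1 ^ 2 - z2 ^ 2) :
    (((A1 / a + A2 / a) + r1) ^ 2 - z * ((A1 / z1 / a + A2 / z2 / a) + τ / z * (G + e2)) *
      ((A1 * z1 / z / a + A2 * z2 / z / a) + ra)) * (a * z) / (A1 * z1 * τ * G) =
    -(1 + (e2 / G - 2 * r1 * z / (z1 * τ * G) - a * z * r1 ^ 2 / (A1 * z1 * τ * G) +
        z ^ 2 * ra / (z1 ^ 2 * τ * G) + (G + e2) * ra * a * z / (A1 * z1 * G)) +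
      (-(κ * A2 * z / (a * z1 * τ * G))) * (1 + (2 * a * r1 / (A1 * κ) -
        z2 * (G + e2) * a * τ / (A1 * κ * z) - a * z * ra / (z2 * A1 * κ)))) := by
  have hk2 : κ = (2 * z1 * z2 - z1 ^ 2 - z2 ^ 2) / (z1 * z2) := by
    field_simp
    linear_combination hk
  have h2 : κ * (2 * a * r1 / (A1 * κ) -
        z2 * (G + e2) * a * τ / (A1 * κ * z) - a * z * ra / (z2 * A1 * κ)) =
      2 * a * r1 / A1 - z2 * (G + e2) * a * τ / (A1 * z) - a * z * ra / (z2 * A1) := by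
    field_simp
  have h3 : (-(κ * A2 * z / (a * z1 * τ * G))) * (1 + (2 * a * r1 / (A1 * κ) -
        z2 * (G + e2) * a * τ / (A1 * κ * z) - a * z * ra / (z2 * A1 * κ))) =
      -(A2 * z / (a * z1 * τ * G)) * (κ + (2 * a * r1 / A1 - z2 * (G + e2) * a * τ / (A1 * z) -
        a * z * ra / (z2 * A1))) := by
    rw [← h2]
    ring
  rw [h3, hk2]
  field_simp
  ring

/-! ### parameters -/

noncomputable def x1 (φ α : ℝ) : ℝ := (φ + Real.pi * (α - 1) / 2) / (-Real.cos (2 * Real.pi / α))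
noncomputable def t1 (φ α : ℝ) : ℝ := x1 φ α ^ α
noncomputable def kap (α : ℝ) : ℝ := 2 - 2 * Real.cos (2 * Real.pi / α)
noncomputable def rho1 (φ α : ℝ) : ℝ :=
  kap α / (α * (-ta α) * Real.Gamma (α - 1)) * (t1 φ α / x1 φ α) *
    Real.exp (x1 φ α * Real.sin (2 * Real.pi / α))
noncomputable def V1 (φ α : ℝ) : ℂ :=
  psi α (t1 φ α) * (α * zz α (t1 φ α)) /
    (exp (-(x1 φ α * I)) * (-(x1 φ α * I)) * (ta α : ℝ) * (Real.Gamma (α - 1) : ℝ))

theorem trig_bd {α : ℝ} (h1 : 12 / 7 ≤ α) (h2 : α ≤ 2) :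
    Real.sqrt 3 / 2 ≤ -Real.cos (2 * Real.pi / α) ∧ -(1 / 2) ≤ Real.sin (2 * Real.pi / α) ∧
      Real.sin (2 * Real.pi / α) ≤ 0 := by
  have hπ := Real.pi_pos
  have hα : 0 < α := by linarith
  have ha1 : Real.pi ≤ 2 * Real.pi / α := by
    rw [le_div_iff₀ hα]; nlinarith
  have ha2 : 2 * Real.pi / α ≤ Real.pi * (7 / 6) := by
    rw [div_le_iff₀ hα]; nlinarith
  obtain ⟨δ, hδ⟩ : ∃ δ, δ = 2 * Real.pi / α - Real.pi := ⟨_, rfl⟩
  have hδ0 : 0 ≤ δ := by linarith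
  have hδ1 : δ ≤ Real.pi / 6 := by linarith
  have e : 2 * Real.pi / α = δ + Real.pi := by linarith
  rw [e, Real.cos_add_pi, Real.sin_add_pi, neg_neg]
  refine ⟨?_, ?_, ?_⟩
  · rw [← Real.cos_pi_div_six]
    exact Real.cos_le_cos_of_nonneg_of_le_pi hδ0 (by linarith) hδ1
  · have := Real.sin_le_sin_of_le_of_le_pi_div_two (x := δ) (y := Real.pi / 6) (by linarith)
      (by linarith) hδ1
    rw [Real.sin_pi_div_six] at this
    linarith
  · have := Real.sin_nonneg_of_nonneg_of_le_pi hδ0 (by linarith)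
    linarith

theorem x1_bd {φ α : ℝ} (h1 : 12 / 7 ≤ α) (h2 : α ≤ 2) (h3 : 101 * Real.pi - Real.pi / 3 ≤ φ)
    (h4 : φ ≤ 101 * Real.pi + Real.pi / 3) : 317 ≤ x1 φ α ∧ x1 φ α ≤ 400 := by
  have hs := (trig_bd h1 h2).1
  have h5 := sqrt3_bd
  have hs1 := Real.neg_one_le_cos (2 * Real.pi / α)
  have hπ1 := Real.pi_gt_d2
  have hπ2 := Real.pi_lt_d4
  have hs0 : 0 < -Real.cos (2 * Real.pi / α) := by linarith
  unfold x1
  constructor
  · rw [le_div_iff₀ hs0]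
    nlinarith
  · rw [div_le_iff₀ hs0]
    nlinarith

theorem t1_bd {φ α : ℝ} (h1 : 12 / 7 ≤ α) (h2 : α ≤ 2) (h3 : 101 * Real.pi - Real.pi / 3 ≤ φ)
    (h4 : φ ≤ 101 * Real.pi + Real.pi / 3) :
    17 * x1 φ α ≤ t1 φ α ∧ t1 φ α ≤ 160000 ∧ t1 φ α / x1 φ α = x1 φ α ^ (α - 1) := by
  have hx := x1_bd h1 h2 h3 h4
  have hx0 : 0 < x1 φ α := by linarith
  have e : t1 φ α = x1 φ α * x1 φ α ^ (α - 1) := by
    unfold t1
    have h := Real.rpow_add hx0 1 (α - 1)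
    rw [Real.rpow_one, show 1 + (α - 1) = α by ring] at h
    exact h
  refine ⟨?_, ?_, ?_⟩
  · rw [e, mul_comm 17]
    apply mul_le_mul_of_nonneg_left _ hx0.le
    have e2 : (17 : ℝ) = (289 : ℝ) ^ (1 / 2 : ℝ) := by
      rw [show (289 : ℝ) = 17 ^ (2 : ℝ) by norm_num, ← Real.rpow_mul (by norm_num)]
      norm_num
    rw [e2]
    calc (289 : ℝ) ^ (1 / 2 : ℝ) ≤ x1 φ α ^ (1 / 2 : ℝ) := by
          apply Real.rpow_le_rpow (by norm_num) (by linarith) (by norm_num)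
      _ ≤ x1 φ α ^ (α - 1) := Real.rpow_le_rpow_of_exponent_le (by linarith) (by linarith)
  · unfold t1
    calc x1 φ α ^ α ≤ x1 φ α ^ (2 : ℝ) := Real.rpow_le_rpow_of_exponent_le (by linarith) h2
      _ = x1 φ α ^ 2 := by norm_cast
      _ ≤ 400 ^ 2 := by
        apply pow_le_pow_left₀ hx0.le hx.2
      _ = 160000 := by norm_num
  · rw [e]
    field_simp

theorem ta_neg {α : ℝ} (h1 : 12 / 7 ≤ α) (h2 : α < 2) : ta α < 0 ∧ |ta α| ≤ 1 / 3 := by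
  have hπ := Real.pi_gt_three
  have e : Real.sin (Real.pi * α) = -Real.sin (2 * Real.pi - Real.pi * α) := by
    rw [Real.sin_two_pi_sub, neg_neg]
  have h3 : 0 < Real.sin (2 * Real.pi - Real.pi * α) := by
    apply Real.sin_pos_of_pos_of_lt_pi <;> nlinarith
  constructor
  · unfold ta
    rw [e]
    apply div_neg_of_neg_of_pos <;> linarith
  · unfold ta
    rw [abs_div, abs_of_pos (by linarith : (0 : ℝ) < Real.pi)]
    rw [div_le_iff₀ (by linarith)]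
    have := Real.abs_sin_le_one (Real.pi * α)
    linarith

theorem G_bd {α : ℝ} (h1 : 12 / 7 ≤ α) (h2 : α ≤ 2) :
    1 ≤ Real.Gamma (α - 1) ∧ Real.Gamma (α - 1) ≤ 7 / 5 := by
  constructor
  · exact one_le_Gamma_of_le_one (by linarith) (by linarith)
  · have h3 := Real.Gamma_add_one (s := α - 1) (by linarith)
    have h4 := Gamma_le_one (x := α - 1 + 1) (by linarith) (by linarith)
    rw [h3] at h4
    have h5 := Real.Gamma_pos_of_pos (by linarith : 0 < α - 1)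
    nlinarith

theorem kap_bd {α : ℝ} (h1 : 12 / 7 ≤ α) (h2 : α ≤ 2) : 3 ≤ kap α ∧ kap α ≤ 4 := by
  have h3 := (trig_bd h1 h2).1
  have h4 := sqrt3_bd
  have h5 := Real.neg_one_le_cos (2 * Real.pi / α)
  unfold kap
  constructor <;> linarith

theorem pp_exp1 {x : ℝ} (hx : 0 < x) : exp (pp x) = -(x * I) := by
  unfold pp
  rw [Complex.exp_add, ← Complex.ofReal_exp, Real.exp_log hx]
  rw [show ((-(Real.pi / 2) : ℝ) : ℂ) * I = -(Real.pi / 2 * I) by push_cast; ring, Complex.exp_neg,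
    Complex.exp_pi_div_two_mul_I]
  simp

theorem qq_exp1 {α x : ℝ} (hx : 0 < x) :
    exp (qq α x) = -(x * I) * exp (((2 * Real.pi / α : ℝ) : ℂ) * I) := by
  have : qq α x = pp x + ((2 * Real.pi / α : ℝ) : ℂ) * I := by
    unfold qq pp
    push_cast
    ring
  rw [this, Complex.exp_add, pp_exp1 hx]

theorem N_one (w : ℂ) : N 1 w = exp (exp w) := by
  unfold N; simp

theorem N_two (w : ℂ) : N 2 w = exp (exp w) / exp w := by
  unfold N
  rw [← Complex.exp_sub]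
  congr 1
  push_cast
  ring

theorem N_alpha (α : ℝ) (w : ℂ) : N α w = exp (exp w) * exp w / exp (α * w) := by
  unfold N
  rw [← Complex.exp_add, ← Complex.exp_sub]
  congr 1
  ring

theorem V1_formula {φ α : ℝ} (h1 : 12 / 7 ≤ α) (h2 : α < 2) (h3 : 101 * Real.pi - Real.pi / 3 ≤ φ)
    (h4 : φ ≤ 101 * Real.pi + Real.pi / 3) :
    ∃ η₁ η₂ : ℂ, ‖η₁‖ ≤ 1 / 20 ∧ ‖η₂‖ ≤ 1 / 20 ∧
      V1 φ α = -(1 + η₁ + (rho1 φ α : ℂ) * exp (φ * I) * (1 + η₂)) := by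
  have hx := x1_bd h1 h2.le h3 h4
  obtain ⟨ht1, ht2, ht3⟩ := t1_bd h1 h2.le h3 h4
  obtain ⟨hτ, hτ3⟩ := ta_neg h1 h2
  obtain ⟨hG1, hG2⟩ := G_bd h1 h2.le
  obtain ⟨hk1, hk2⟩ := kap_bd h1 h2.le
  obtain ⟨hs1, hs2, hs3⟩ := trig_bd h1 h2.le
  have hsq := sqrt3_bd
  have hα : 0 < α := by linarith
  obtain ⟨x, hxd⟩ : ∃ x, x = x1 φ α := ⟨_, rfl⟩
  obtain ⟨t, htd⟩ : ∃ t, t = t1 φ α := ⟨_, rfl⟩
  obtain ⟨τ, hτd⟩ : ∃ τ, τ = ta α := ⟨_, rfl⟩
  obtain ⟨G, hGd⟩ : ∃ G, G = Real.Gamma (α - 1) := ⟨_, rfl⟩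
  obtain ⟨κ, hκd⟩ : ∃ κ, κ = kap α := ⟨_, rfl⟩
  have htx : t = x ^ α := by rw [htd, hxd]; rfl
  have hx0 : 0 < x := by rw [hxd]; linarith
  have ht0 : 0 < t := by rw [htd]; linarith
  obtain ⟨r1, hr1, f1⟩ := formula_one h1 h2 hx0 htx
  obtain ⟨ra, hra, fa⟩ := formula_alpha h1 h2 hx0 htx
  obtain ⟨e2, he2, f2⟩ := formula_two h1 h2 hx0 htx
  have hzn := zz_norm (α := α) ht0
  have hzne := zz_ne (α := α) ht0
  have hze := pp_exp hx0 htx
  have hze' := qq_exp hα hx0 htx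
  rw [N_one, N_one] at f1
  rw [N_two, N_two] at f2
  rw [N_alpha, N_alpha, ← hze, ← hze'] at fa
  have hz1 := pp_exp1 hx0
  have hz2 := qq_exp1 (α := α) hx0
  unfold V1 psi rho1
  rw [← hτd] at hτ hτ3 hr1 hra f2
  rw [← hGd] at hG1 hG2 f2
  rw [← hκd] at hk1 hk2
  rw [← hxd] at hx ht1
  rw [← htd] at ht1 ht2
  rw [← hxd, ← htd, ← hτd, ← hGd, ← hκd, f1, f2, fa]
  -- names
  obtain ⟨z, hzd⟩ : ∃ z, z = zz α t := ⟨_, rfl⟩
  have hzr : z = (t : ℂ) * exp (-(((Real.pi * α / 2 : ℝ) : ℂ) * I)) := hzd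
  rw [← hzd] at hzn hzne ⊢
  have hA2 : exp (exp (qq α x)) = ((Real.exp (x * Real.sin (2 * Real.pi / α)) : ℝ) : ℂ) *
      exp (((φ + Real.pi * (α - 1) / 2 : ℝ) : ℂ) * I) := by
    rw [hz2, Complex.ofReal_exp, ← Complex.exp_add]
    congr 1
    have e3 : x * (-Real.cos (2 * Real.pi / α)) = φ + Real.pi * (α - 1) / 2 := by
      rw [hxd]
      unfold x1
      rw [div_mul_cancel₀]
      linarith
    rw [← e3, Complex.exp_mul_I, ← Complex.ofReal_cos, ← Complex.ofReal_sin]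
    push_cast
    have hI := Complex.I_sq
    linear_combination (-(x : ℂ) * Complex.sin (2 * Real.pi / α)) * hI
  obtain ⟨z1, hz1d⟩ : ∃ z1, z1 = exp (pp x) := ⟨_, rfl⟩
  obtain ⟨z2, hz2d⟩ : ∃ z2, z2 = exp (qq α x) := ⟨_, rfl⟩
  have hz1n : ‖z1‖ = x := by
    rw [hz1d, hz1, norm_neg, norm_mul, Complex.norm_of_nonneg hx0.le, Complex.norm_I, mul_one]
  have hz2n : ‖z2‖ = x := by
    rw [hz2d, hz2, norm_mul, norm_neg, norm_mul, Complex.norm_of_nonneg hx0.le, Complex.norm_I,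
      Complex.norm_exp_ofReal_mul_I, mul_one, mul_one]
  have hz1ne : z1 ≠ 0 := by rw [hz1d]; exact Complex.exp_ne_zero _
  have hz2ne : z2 ≠ 0 := by rw [hz2d]; exact Complex.exp_ne_zero _
  obtain ⟨A1, hA1d⟩ : ∃ A1, A1 = exp z1 := ⟨_, rfl⟩
  obtain ⟨A2, hA2d⟩ : ∃ A2, A2 = exp z2 := ⟨_, rfl⟩
  have hA1n : ‖A1‖ = 1 := by
    rw [hA1d, hz1d, hz1, Complex.norm_exp]
    simp
  have hA1ne : A1 ≠ 0 := by rw [hA1d]; exact Complex.exp_ne_zero _
  have hkk : (κ : ℂ) * (z1 * z2) = 2 * z1 * z2 - z1 ^ 2 - z2 ^ 2 := by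
    have h5 := two_cos (2 * Real.pi / α)
    have h6 : exp (((2 * Real.pi / α : ℝ) : ℂ) * I) * exp (-(((2 * Real.pi / α : ℝ) : ℂ) * I)) = 1 := by
      rw [← Complex.exp_add]; simp
    rw [hz2d, hz2, ← hz1, ← hz1d, hκd]
    unfold kap
    push_cast at h5 h6 ⊢
    linear_combination (z1 ^ 2 * exp (2 * Real.pi / α * I)) * h5 - z1 ^ 2 * h6
  have hτne : (τ : ℂ) ≠ 0 := by exact_mod_cast hτ.ne
  have hGne : (G : ℂ) ≠ 0 := by exact_mod_cast (by linarith : G ≠ 0)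
  have hκne : (κ : ℂ) ≠ 0 := by exact_mod_cast (by linarith : κ ≠ 0)
  have hαne : (α : ℂ) ≠ 0 := by exact_mod_cast hα.ne'
  have hid := alg_identity (r1 := r1) (ra := ra) (e2 := e2) (A2 := A2) hαne hA1ne hz1ne hz2ne hzne
    hτne hGne hκne hkk
  rw [← hz1, ← hz1d, ← hz2d, ← hA1d, ← hA2d, hid]
  have hG0 : 0 < G := by linarith
  have hκ0 : 0 < κ := by linarith
  have hτa : 0 < |τ| := abs_pos.2 hτ.ne
  have ht5 : 5389 ≤ t := by linarith
  have hg1 := Gamma_le_one (x := α) (by linarith) h2.le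
  have hg2 := Gamma_le_two (x := 1 + α) (by linarith) (by linarith)
  have hg3 := Gamma_le_two (x := 2 * α - 1) (by linarith) (by linarith)
  have hg4 : Real.Gamma (3 * α - 1) ≤ 24 := by
    have h := Gamma_le_max (a := 1) (b := 5) (x := 3 * α - 1) one_pos (by linarith) (by linarith)
    have h5 : Real.Gamma 5 = 24 := by
      rw [show (5 : ℝ) = 3 + 1 + 1 by norm_num, Real.Gamma_add_one (by norm_num),
        Real.Gamma_add_one (by norm_num), Gamma_three]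
      norm_num
    rw [Real.Gamma_one, h5] at h
    exact h.trans (by norm_num)
  have b1 : ‖r1‖ * t ≤ |τ| := by
    rw [le_div_iff₀ ht0] at hr1
    refine hr1.trans ?_
    nlinarith
  have b1' : ‖r1‖ ≤ 1 / 10000 := by
    have : ‖r1‖ * 5389 ≤ ‖r1‖ * t := by gcongr
    linarith
  have ba : ‖ra‖ * t ^ 2 ≤ 2 * |τ| := by
    rw [le_div_iff₀ (by positivity)] at hra
    refine hra.trans ?_
    nlinarith
  have ba' : ‖ra‖ * t ≤ |τ| / 1000 := by
    have h6 : ‖ra‖ * t * 5389 ≤ ‖ra‖ * t ^ 2 := by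
      rw [pow_two, ← mul_assoc]
      gcongr
    linarith
  have be : ‖e2‖ ≤ 1 / 1000 := by
    refine he2.trans ?_
    rw [div_le_iff₀ (by positivity)]
    nlinarith
  have bGe : ‖(G : ℂ) + e2‖ ≤ 141 / 100 := by
    refine (norm_add_le _ _).trans ?_
    rw [Complex.norm_of_nonneg hG0.le]
    linarith
  have nτ : ‖(τ : ℂ)‖ = |τ| := by rw [Complex.norm_real, Real.norm_eq_abs]
  have nG : ‖(G : ℂ)‖ = G := Complex.norm_of_nonneg hG0.le
  have nκ : ‖(κ : ℂ)‖ = κ := Complex.norm_of_nonneg hκ0.le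
  have nα : ‖(α : ℂ)‖ = α := Complex.norm_of_nonneg hα.le
  have n2 : ‖(2 : ℂ)‖ = 2 := by simp
  have xτG : 317 * |τ| ≤ x * |τ| * G := by
    have : 317 * |τ| * 1 ≤ x * |τ| * G := by
      apply mul_le_mul _ hG1 zero_le_one (by positivity)
      gcongr
      exact hx.1
    linarith
  have T1 : ‖e2 / (G : ℂ)‖ ≤ 1 / 1000 := by
    rw [norm_div, nG, div_le_iff₀ hG0]
    linarith
  have T2 : ‖2 * r1 * z / (z1 * τ * G)‖ ≤ 2 / 317 := by
    rw [norm_div, norm_mul, norm_mul, norm_mul, norm_mul, n2, hzn, hz1n, nτ, nG,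
      div_le_iff₀ (by positivity)]
    nlinarith
  have T3 : ‖α * z * r1 ^ 2 / (A1 * z1 * τ * G)‖ ≤ 1 / 1000 := by
    rw [norm_div, norm_mul, norm_mul, norm_mul, norm_mul, norm_mul, norm_pow, nα, hzn, hA1n, hz1n,
      nτ, nG, one_mul, div_le_iff₀ (by positivity)]
    have h6 : α * t * ‖r1‖ ^ 2 = α * ‖r1‖ * (‖r1‖ * t) := by ring
    rw [h6]
    have h7 : α * ‖r1‖ ≤ 2 * (1 / 10000) := by gcongr
    have h8 : α * ‖r1‖ * (‖r1‖ * t) ≤ (2 * (1 / 10000)) * |τ| := by gcongr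
    linarith
  have T4 : ‖z ^ 2 * ra / (z1 ^ 2 * τ * G)‖ ≤ 1 / 1000 := by
    rw [norm_div, norm_mul, norm_mul, norm_mul, norm_pow, norm_pow, hzn, hz1n,
      nτ, nG, div_le_iff₀ (by positivity)]
    have h6 : x ^ 2 * |τ| * G = x * (x * |τ| * G) := by ring
    rw [h6]
    have h7 : 317 * (317 * |τ|) ≤ x * (x * |τ| * G) := by
      apply mul_le_mul hx.1 xτG (by positivity) (by positivity)
    linarith
  have T5 : ‖((G : ℂ) + e2) * ra * α * z / (A1 * z1 * G)‖ ≤ 1 / 1000 := by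
    rw [norm_div, norm_mul, norm_mul, norm_mul, norm_mul, norm_mul, nα, hzn, hA1n, hz1n,
      nG, one_mul, div_le_iff₀ (by positivity)]
    have h6 : ‖(G : ℂ) + e2‖ * ‖ra‖ * α * t = ‖(G : ℂ) + e2‖ * α * (‖ra‖ * t) := by ring
    rw [h6]
    have h7 : ‖(G : ℂ) + e2‖ * α * (‖ra‖ * t) ≤ (141 / 100) * 2 * (|τ| / 1000) := by gcongr
    have h8 : 317 * 1 ≤ x * G := mul_le_mul hx.1 hG1 (by norm_num) (by positivity)
    linarith
  have U1 : ‖2 * α * r1 / (A1 * κ)‖ ≤ 1 / 1000 := by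
    rw [norm_div, norm_mul, norm_mul, norm_mul, n2, nα, hA1n, nκ, one_mul,
      div_le_iff₀ hκ0]
    have h7 : 2 * α * ‖r1‖ ≤ 2 * 2 * (1 / 10000) := by gcongr
    linarith
  have U2 : ‖z2 * ((G : ℂ) + e2) * α * τ / (A1 * κ * z)‖ ≤ 1 / 50 := by
    rw [norm_div, norm_mul, norm_mul, norm_mul, norm_mul, norm_mul, nα, nτ, nκ, hA1n, hz2n, hzn,
      one_mul, div_le_iff₀ (by positivity)]
    have h7 : x * ‖(G : ℂ) + e2‖ * α * |τ| ≤ x * (141 / 100) * 2 * (1 / 3) := by gcongr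
    have h8 : 3 * (17 * x) ≤ κ * t := mul_le_mul hk1 ht1 (by positivity) hκ0.le
    linarith
  have U3 : ‖α * z * ra / (z2 * A1 * κ)‖ ≤ 1 / 1000 := by
    rw [norm_div, norm_mul, norm_mul, norm_mul, norm_mul, nα, nκ, hA1n, hz2n, hzn,
      mul_one, div_le_iff₀ (by positivity)]
    have h6 : α * t * ‖ra‖ = α * (‖ra‖ * t) := by ring
    rw [h6]
    have h7 : α * (‖ra‖ * t) ≤ 2 * (|τ| / 1000) := by gcongr
    have h8 : 317 * 3 ≤ x * κ := mul_le_mul hx.1 hk1 (by positivity) hx0.le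
    linarith
  refine ⟨e2 / G - 2 * r1 * z / (z1 * τ * G) - α * z * r1 ^ 2 / (A1 * z1 * τ * G) +
      z ^ 2 * ra / (z1 ^ 2 * τ * G) + (G + e2) * ra * α * z / (A1 * z1 * G),
    2 * α * r1 / (A1 * κ) - z2 * (G + e2) * α * τ / (A1 * κ * z) - α * z * ra / (z2 * A1 * κ),
    ?_, ?_, ?_⟩
  rotate_left 2
  · congr 1
    congr 1
    congr 1
    rw [hA2d, hz2d, hA2, hz1d, hz1, hzr]
    have e4 : exp (((φ + Real.pi * (α - 1) / 2 : ℝ) : ℂ) * I) *
        exp (-(((Real.pi * α / 2 : ℝ) : ℂ) * I)) = -(exp (φ * I) * I) := by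
      rw [← Complex.exp_add, show ((φ + Real.pi * (α - 1) / 2 : ℝ) : ℂ) * I +
        -(((Real.pi * α / 2 : ℝ) : ℂ) * I) = φ * I + (-(Real.pi / 2 * I)) by push_cast; ring,
        Complex.exp_add, Complex.exp_neg, Complex.exp_pi_div_two_mul_I]
      simp
    generalize exp (((φ + Real.pi * (α - 1) / 2 : ℝ) : ℂ) * I) = P at e4 ⊢
    generalize exp (-(((Real.pi * α / 2 : ℝ) : ℂ) * I)) = Q at e4 ⊢
    generalize exp ((φ : ℂ) * I) = R at e4 ⊢
    simp only [Complex.ofReal_mul, Complex.ofReal_div, Complex.ofReal_neg]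
    generalize ((Real.exp (x * Real.sin (2 * Real.pi / α)) : ℝ) : ℂ) = E
    have hxne : (x : ℂ) ≠ 0 := by exact_mod_cast hx0.ne'
    have hI := Complex.I_ne_zero
    field_simp
    linear_combination (E * t) * e4
  · have s1 := norm_add_le (e2 / (G : ℂ) - 2 * r1 * z / (z1 * τ * G) -
      α * z * r1 ^ 2 / (A1 * z1 * τ * G) + z ^ 2 * ra / (z1 ^ 2 * τ * G))
      (((G : ℂ) + e2) * ra * α * z / (A1 * z1 * G))
    have s2 := norm_add_le (e2 / (G : ℂ) - 2 * r1 * z / (z1 * τ * G) -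
      α * z * r1 ^ 2 / (A1 * z1 * τ * G)) (z ^ 2 * ra / (z1 ^ 2 * τ * G))
    have s3 := norm_sub_le (e2 / (G : ℂ) - 2 * r1 * z / (z1 * τ * G))
      (α * z * r1 ^ 2 / (A1 * z1 * τ * G))
    have s4 := norm_sub_le (e2 / (G : ℂ)) (2 * r1 * z / (z1 * τ * G))
    have : (1 : ℝ) / 1000 + 2 / 317 + 1 / 1000 + 1 / 1000 + 1 / 1000 ≤ 1 / 20 := by norm_num
    linarith
  · have s1 := norm_sub_le (2 * α * r1 / (A1 * κ) - z2 * ((G : ℂ) + e2) * α * τ / (A1 * κ * z))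
      (α * z * ra / (z2 * A1 * κ))
    have s2 := norm_sub_le (2 * α * r1 / (A1 * κ)) (z2 * ((G : ℂ) + e2) * α * τ / (A1 * κ * z))
    linarith

end Pool.Agent.Q80.HK
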