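import Pool.Agent.Q80.HK.K

/-!
# A zero of the quadratic combination
-/

set_option autoImplicit false

open Complex Filter Topology Set MeasureTheory

namespace Pool.Agent.Q80.HK

theorem rho1_ratio {φ α : ℝ} (h1 : 12 / 7 ≤ α) (h2 : α < 2) (h3 : 101 * Real.pi - Real.pi / 3 ≤ φ)
    (h4 : φ ≤ 101 * Real.pi + Real.pi / 3) :
    rho1 (101 * Real.pi) α * (299 / 600) ≤ rho1 φ α ∧
      rho1 φ α ≤ rho1 (101 * Real.pi) α * (301 / 150) := by
  have hπ := Real.pi_pos
  have hα : 0 < α := by linarith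
  have hx := x1_bd h1 h2.le h3 h4
  have hx0 := x1_bd h1 h2.le (φ := 101 * Real.pi) (by linarith) (by linarith)
  have ht := (t1_bd h1 h2.le h3 h4).2.2
  have ht0 := (t1_bd h1 h2.le (φ := 101 * Real.pi) (by linarith) (by linarith)).2.2
  obtain ⟨hτ, -⟩ := ta_neg h1 h2
  obtain ⟨hG1, -⟩ := G_bd h1 h2.le
  obtain ⟨hk1, -⟩ := kap_bd h1 h2.le
  obtain ⟨hs, hc1, hc2⟩ := trig_bd h1 h2.le
  have h5 := sqrt3_bd
  have hs0 : 0 < -Real.cos (2 * Real.pi / α) := by linarith
  have hx00 : 0 < x1 (101 * Real.pi) α := by linarith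
  -- the quotient of the `x`
  obtain ⟨b, hb⟩ : ∃ b, b = Real.pi * (α - 1) / 2 := ⟨_, rfl⟩
  have hb0 : 0 ≤ b := by rw [hb]; nlinarith
  obtain ⟨r, hr⟩ : ∃ r, r = (φ + b) / (101 * Real.pi + b) := ⟨_, rfl⟩
  have hr1 : 299 / 300 ≤ r := by
    rw [hr, le_div_iff₀ (by positivity)]
    nlinarith
  have hr2 : r ≤ 301 / 300 := by
    rw [hr, div_le_iff₀ (by positivity)]
    nlinarith
  have hxr : x1 φ α = x1 (101 * Real.pi) α * r := by
    unfold x1
    rw [hr, ← hb]
    have : 101 * Real.pi + b ≠ 0 := by positivity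
    field_simp
  have hra : 299 / 300 ≤ r ^ (α - 1) ∧ r ^ (α - 1) ≤ 301 / 300 := by
    have hr0 : 0 < r := by linarith
    rcases le_total r 1 with h | h
    · constructor
      · refine hr1.trans ?_
        calc r = r ^ (1 : ℝ) := (Real.rpow_one r).symm
          _ ≤ r ^ (α - 1) := Real.rpow_le_rpow_of_exponent_ge hr0 h (by linarith)
      · refine (Real.rpow_le_one hr0.le h (by linarith)).trans (by norm_num)
    · constructor
      · exact le_trans (by norm_num) (Real.one_le_rpow h (by linarith))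
      · refine le_trans ?_ hr2
        calc r ^ (α - 1) ≤ r ^ (1 : ℝ) := Real.rpow_le_rpow_of_exponent_le h (by linarith)
          _ = r := Real.rpow_one r
  have hdx : |x1 φ α * Real.sin (2 * Real.pi / α) -
      x1 (101 * Real.pi) α * Real.sin (2 * Real.pi / α)| ≤ Real.log 2 := by
    have e : x1 φ α * Real.sin (2 * Real.pi / α) -
        x1 (101 * Real.pi) α * Real.sin (2 * Real.pi / α) =
        (φ - 101 * Real.pi) / (-Real.cos (2 * Real.pi / α)) * Real.sin (2 * Real.pi / α) := by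
      unfold x1
      rw [← sub_mul, ← sub_div]
      ring
    rw [e, abs_mul, abs_div, abs_of_pos hs0]
    have h6 : |φ - 101 * Real.pi| ≤ Real.pi / 3 := by
      rw [abs_le]; constructor <;> linarith
    have h7 : |Real.sin (2 * Real.pi / α)| ≤ 1 / 2 := by rw [abs_le]; constructor <;> linarith
    have h8 : |φ - 101 * Real.pi| / (-Real.cos (2 * Real.pi / α)) ≤ (Real.pi / 3) / (43 / 50) := by
      apply div_le_div₀ (by positivity) h6 (by norm_num)
      linarith
    have h9 := Real.log_two_gt_d9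
    have h10 := Real.pi_lt_d4
    calc |φ - 101 * Real.pi| / (-Real.cos (2 * Real.pi / α)) * |Real.sin (2 * Real.pi / α)|
        ≤ (Real.pi / 3) / (43 / 50) * (1 / 2) :=
          mul_le_mul h8 h7 (abs_nonneg _) (by positivity)
      _ ≤ Real.log 2 := by
        have : (Real.pi / 3) / (43 / 50) * (1 / 2) = Real.pi * (50 / 258) := by ring
        rw [this]
        nlinarith
  obtain ⟨c, hc⟩ : ∃ c, c = Real.sin (2 * Real.pi / α) := ⟨_, rfl⟩
  rw [← hc] at hdx
  have hexp : 1 / 2 * Real.exp (x1 (101 * Real.pi) α * c) ≤ Real.exp (x1 φ α * c) ∧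
      Real.exp (x1 φ α * c) ≤ 2 * Real.exp (x1 (101 * Real.pi) α * c) := by
    rw [abs_le] at hdx
    constructor
    · have : (1 / 2 : ℝ) = Real.exp (-Real.log 2) := by
        rw [Real.exp_neg, Real.exp_log (by norm_num)]; norm_num
      rw [this, ← Real.exp_add]
      apply Real.exp_le_exp.2
      linarith [hdx.1]
    · have h11 : Real.exp (Real.log 2) = 2 := Real.exp_log (by norm_num)
      calc Real.exp (x1 φ α * c) ≤ Real.exp (Real.log 2 + x1 (101 * Real.pi) α * c) := by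
            apply Real.exp_le_exp.2
            linarith [hdx.2]
        _ = _ := by rw [Real.exp_add, h11]
  have hA : 0 < kap α / (α * (-ta α) * Real.Gamma (α - 1)) := by
    have h6 : 0 < -ta α := by linarith
    have h7 : 0 < kap α := by linarith
    have h8 : 0 < Real.Gamma (α - 1) := by linarith
    positivity
  obtain ⟨A, hAd⟩ : ∃ A, A = kap α / (α * (-ta α) * Real.Gamma (α - 1)) *
      x1 (101 * Real.pi) α ^ (α - 1) := ⟨_, rfl⟩
  have hA0 : 0 < A := by rw [hAd]; positivity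
  have e1 : rho1 φ α = A * (r ^ (α - 1) * Real.exp (x1 φ α * c)) := by
    unfold rho1
    rw [ht, hc, hAd]
    conv_lhs => rw [hxr, Real.mul_rpow hx00.le (by linarith : 0 ≤ r)]
    rw [← hxr]
    ring
  have e2 : rho1 (101 * Real.pi) α = A * Real.exp (x1 (101 * Real.pi) α * c) := by
    unfold rho1
    rw [ht0, hc, hAd]
  have hE0 := Real.exp_pos (x1 (101 * Real.pi) α * c)
  rw [e1, e2]
  constructor
  · rw [mul_assoc]
    apply mul_le_mul_of_nonneg_left _ hA0.le
    calc Real.exp (x1 (101 * Real.pi) α * c) * (299 / 600) =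
        (299 / 300) * (1 / 2 * Real.exp (x1 (101 * Real.pi) α * c)) := by ring
      _ ≤ r ^ (α - 1) * Real.exp (x1 φ α * c) :=
        mul_le_mul hra.1 hexp.1 (by positivity) (by linarith [hra.1])
  · rw [mul_assoc]
    apply mul_le_mul_of_nonneg_left _ hA0.le
    calc r ^ (α - 1) * Real.exp (x1 φ α * c) ≤
          (301 / 300) * (2 * Real.exp (x1 (101 * Real.pi) α * c)) :=
          mul_le_mul hra.2 hexp.2 (by positivity) (by norm_num)
      _ = _ := by ring

theorem rho1_pos {φ α : ℝ} (h1 : 12 / 7 ≤ α) (h2 : α < 2) (h3 : 101 * Real.pi - Real.pi / 3 ≤ φ)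
    (h4 : φ ≤ 101 * Real.pi + Real.pi / 3) : 0 < rho1 φ α := by
  have hx := x1_bd h1 h2.le h3 h4
  have ht := (t1_bd h1 h2.le h3 h4).1
  obtain ⟨hτ, -⟩ := ta_neg h1 h2
  obtain ⟨hG1, -⟩ := G_bd h1 h2.le
  obtain ⟨hk1, -⟩ := kap_bd h1 h2.le
  have h6 : 0 < -ta α := by linarith
  have h7 : 0 < kap α := by linarith
  have h8 : 0 < Real.Gamma (α - 1) := by linarith
  have h9 : 0 < x1 φ α := by linarith
  have h10 : 0 < t1 φ α := by linarith
  have hα : 0 < α := by linarith
  unfold rho1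
  positivity

theorem rho1_left : rho1 (101 * Real.pi) (12 / 7) ≤ 1 / 3 := by
  have hπ := Real.pi_pos
  have hπ2 := Real.pi_lt_d4
  have hx := x1_bd (φ := 101 * Real.pi) (α := 12 / 7) le_rfl (by norm_num) (by linarith)
    (by linarith)
  have ht := (t1_bd (φ := 101 * Real.pi) (α := 12 / 7) le_rfl (by norm_num) (by linarith)
    (by linarith)).2.2
  obtain ⟨hG1, -⟩ := G_bd (α := 12 / 7) le_rfl (by norm_num)
  obtain ⟨-, hk2⟩ := kap_bd (α := 12 / 7) le_rfl (by norm_num)
  have hs : Real.sin (2 * Real.pi / (12 / 7)) = -(1 / 2) := by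
    rw [show 2 * Real.pi / (12 / 7) = Real.pi / 6 + Real.pi by ring, Real.sin_add_pi,
      Real.sin_pi_div_six]
  have hta : 1 / 8 ≤ -ta (12 / 7) := by
    unfold ta
    have e : Real.sin (Real.pi * (12 / 7)) = -Real.sin (2 * Real.pi / 7) := by
      rw [show Real.pi * (12 / 7) = 2 * Real.pi - 2 * Real.pi / 7 by ring, Real.sin_two_pi_sub]
    rw [e, ← neg_div, neg_neg, le_div_iff₀ hπ]
    have h := Real.sin_le_sin_of_le_of_le_pi_div_two (x := Real.pi / 6) (y := 2 * Real.pi / 7)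
      (by linarith) (by linarith) (by linarith)
    rw [Real.sin_pi_div_six] at h
    linarith
  unfold rho1
  rw [ht, hs]
  obtain ⟨x, hxd⟩ : ∃ x, x = x1 (101 * Real.pi) (12 / 7) := ⟨_, rfl⟩
  rw [← hxd] at hx ⊢
  have hx0 : 0 < x := by linarith
  have h1 : x ^ ((12 / 7 : ℝ) - 1) ≤ x := by
    calc x ^ ((12 / 7 : ℝ) - 1) ≤ x ^ (1 : ℝ) :=
          Real.rpow_le_rpow_of_exponent_le (by linarith) (by norm_num)
      _ = x := Real.rpow_one x
  have h2 : kap (12 / 7) / (12 / 7 * -ta (12 / 7) * Real.Gamma (12 / 7 - 1)) ≤ 4 / (1 / 8) := by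
    have h4 : (1 / 8 : ℝ) ≤ 12 / 7 * -ta (12 / 7) * Real.Gamma (12 / 7 - 1) := by
      have : 1 / 8 * 1 ≤ 12 / 7 * -ta (12 / 7) * Real.Gamma (12 / 7 - 1) :=
        mul_le_mul (by linarith) hG1 (by norm_num) (by linarith)
      linarith
    exact div_le_div₀ (by norm_num) hk2 (by norm_num) h4
  have he : Real.exp (x * -(1 / 2)) ≤ 1024 / x ^ 4 := by
    have h3 := Real.quadratic_le_exp_of_nonneg (x := x / 4) (by linarith)
    have h4 : Real.exp (x / 2) = Real.exp (x / 4) ^ 2 := by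
      rw [pow_two, ← Real.exp_add]; congr 1; ring
    have h5 : x ^ 4 / 1024 ≤ Real.exp (x / 2) := by
      rw [h4]
      have h6 : x ^ 2 / 32 ≤ Real.exp (x / 4) := by nlinarith
      calc x ^ 4 / 1024 = (x ^ 2 / 32) ^ 2 := by ring
        _ ≤ _ := pow_le_pow_left₀ (by positivity) h6 2
    rw [show x * -(1 / 2) = -(x / 2) by ring, Real.exp_neg, inv_eq_one_div,
      div_le_div_iff₀ (Real.exp_pos _) (by positivity)]
    linarith
  calc kap (12 / 7) / (12 / 7 * -ta (12 / 7) * Real.Gamma (12 / 7 - 1)) *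
        x ^ ((12 / 7 : ℝ) - 1) * Real.exp (x * -(1 / 2))
      ≤ (4 / (1 / 8)) * x * (1024 / x ^ 4) := by
        have h0 : 0 ≤ x ^ ((12 / 7 : ℝ) - 1) := by positivity
        exact mul_le_mul (mul_le_mul h2 h1 h0 (by norm_num)) he (Real.exp_pos _).le (by positivity)
    _ = 32768 / x ^ 3 := by field_simp; ring
    _ ≤ 1 / 3 := by
      rw [div_le_iff₀ (by positivity)]
      have : (317 : ℝ) ^ 3 ≤ x ^ 3 := pow_le_pow_left₀ (by norm_num) hx.1 3
      linarith

theorem rho1_right : 7 ≤ rho1 (101 * Real.pi) (1999 / 1000) := by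
  have hπ := Real.pi_pos
  have hπ2 := Real.pi_lt_d4
  have hx := x1_bd (φ := 101 * Real.pi) (α := 1999 / 1000) (by norm_num) (by norm_num)
    (by linarith) (by linarith)
  have ht := (t1_bd (φ := 101 * Real.pi) (α := 1999 / 1000) (by norm_num) (by norm_num)
    (by linarith) (by linarith)).1
  obtain ⟨hG1, hG2⟩ := G_bd (α := 1999 / 1000) (by norm_num) (by norm_num)
  obtain ⟨hk1, hk2⟩ := kap_bd (α := 1999 / 1000) (by norm_num) (by norm_num)
  obtain ⟨hτ, -⟩ := ta_neg (α := 1999 / 1000) (by norm_num) (by norm_num)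
  have hs : -(1 / 500) ≤ Real.sin (2 * Real.pi / (1999 / 1000)) := by
    have e : 2 * Real.pi / (1999 / 1000) = Real.pi / 1999 + Real.pi := by ring
    rw [e, Real.sin_add_pi]
    have := Real.sin_le (x := Real.pi / 1999) (by positivity)
    linarith
  have hta : -ta (1999 / 1000) ≤ 1 / 1000 := by
    unfold ta
    have e : Real.sin (Real.pi * (1999 / 1000)) = -Real.sin (Real.pi / 1000) := by
      rw [show Real.pi * (1999 / 1000) = 2 * Real.pi - Real.pi / 1000 by ring,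
        Real.sin_two_pi_sub]
    rw [e, ← neg_div, neg_neg, div_le_iff₀ hπ]
    have := Real.sin_le (x := Real.pi / 1000) (by positivity)
    linarith
  unfold rho1
  obtain ⟨x, hxd⟩ : ∃ x, x = x1 (101 * Real.pi) (1999 / 1000) := ⟨_, rfl⟩
  rw [← hxd] at hx ht ⊢
  have hx0 : 0 < x := by linarith
  have he : Real.exp (-1) ≤ Real.exp (x * Real.sin (2 * Real.pi / (1999 / 1000))) := by
    apply Real.exp_le_exp.2
    nlinarith [hx.1, hx.2]
  have he2 : 1 / 3 ≤ Real.exp (-1) := by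
    rw [Real.exp_neg, inv_eq_one_div]
    apply div_le_div_of_nonneg_left (by norm_num) (Real.exp_pos _)
    linarith [Real.exp_one_lt_d9]
  have htx : 17 ≤ t1 (101 * Real.pi) (1999 / 1000) / x := by
    rw [le_div_iff₀ hx0]
    exact ht
  have hτ0 : 0 < -ta (1999 / 1000) := by linarith
  have hG0 : 0 < Real.Gamma (1999 / 1000 - 1) := by linarith
  have hK : 1000 ≤ kap (1999 / 1000) / (1999 / 1000 * -ta (1999 / 1000) *
      Real.Gamma (1999 / 1000 - 1)) := by
    rw [le_div_iff₀ (by positivity)]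
    have h4 : 1999 / 1000 * -ta (1999 / 1000) * Real.Gamma (1999 / 1000 - 1) ≤
        (1999 / 1000 * (1 / 1000)) * (7 / 5) := by gcongr
    linarith
  calc (7 : ℝ) ≤ 1000 * 17 * (1 / 3) := by norm_num
    _ ≤ _ := by
      apply mul_le_mul (mul_le_mul hK htx (by norm_num) (by linarith)) (he2.trans he) (by norm_num)
      have : 0 < kap (1999 / 1000) / (1999 / 1000 * -ta (1999 / 1000) *
        Real.Gamma (1999 / 1000 - 1)) := by linarith
      have h6 : 0 < t1 (101 * Real.pi) (1999 / 1000) / x := by linarith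
      positivity

/-! ### continuity -/

/-- the parameter rectangle -/
def RR : Set (ℝ × ℝ) :=
  Icc (101 * Real.pi - Real.pi / 3) (101 * Real.pi + Real.pi / 3) ×ˢ Icc (12 / 7) (1999 / 1000)

theorem RR_bd {p : ℝ × ℝ} (hp : p ∈ RR) : 12 / 7 ≤ p.2 ∧ p.2 < 2 ∧
    101 * Real.pi - Real.pi / 3 ≤ p.1 ∧ p.1 ≤ 101 * Real.pi + Real.pi / 3 :=
  ⟨hp.2.1, lt_of_le_of_lt hp.2.2 (by norm_num), hp.1.1, hp.1.2⟩

theorem ang_cont : ContinuousOn (fun p : ℝ × ℝ => 2 * Real.pi / p.2) RR := by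
  apply ContinuousOn.div continuousOn_const continuousOn_snd
  intro p hp
  have := (RR_bd hp).1
  linarith

theorem x1_cont : ContinuousOn (fun p : ℝ × ℝ => x1 p.1 p.2) RR := by
  unfold x1
  apply ContinuousOn.div (by fun_prop) ((Real.continuous_cos.comp_continuousOn ang_cont).neg)
  intro p hp
  have h0 := RR_bd hp
  have h1 := (trig_bd h0.1 h0.2.1.le).1
  have h2 := sqrt3_bd
  intro h3
  have h4 : -Real.cos (2 * Real.pi / p.2) = 0 := h3
  linarith

theorem t1_cont : ContinuousOn (fun p : ℝ × ℝ => t1 p.1 p.2) RR := by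
  unfold t1
  apply ContinuousOn.rpow x1_cont continuousOn_snd
  intro p hp
  left
  have h0 := RR_bd hp
  have := (x1_bd h0.1 h0.2.1.le h0.2.2.1 h0.2.2.2).1
  linarith

theorem G_cont : ContinuousOn (fun p : ℝ × ℝ => Real.Gamma (p.2 - 1)) RR := by
  intro p hp
  apply ContinuousAt.continuousWithinAt
  have h1 : ContinuousAt Real.Gamma (p.2 - 1) := by
    apply (Real.differentiableAt_Gamma _).continuousAt
    intro m hm
    have : (0 : ℝ) ≤ m := m.cast_nonneg
    have := (RR_bd hp).1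
    linarith
  exact ContinuousAt.comp (f := fun p : ℝ × ℝ => p.2 - 1) h1 (by fun_prop)

theorem ta_cont : ContinuousOn (fun p : ℝ × ℝ => ta p.2) RR := by
  unfold ta
  fun_prop

theorem rho1_cont : ContinuousOn (fun p : ℝ × ℝ => rho1 p.1 p.2) RR := by
  unfold rho1
  apply ContinuousOn.mul
  · apply ContinuousOn.mul
    · apply ContinuousOn.div
      · unfold kap
        exact continuousOn_const.sub
          (continuousOn_const.mul (Real.continuous_cos.comp_continuousOn ang_cont))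
      · exact (continuousOn_snd.mul ta_cont.neg).mul G_cont
      · intro p hp
        have h0 := RR_bd hp
        have h1 := (ta_neg h0.1 h0.2.1).1
        have h2 := (G_bd h0.1 h0.2.1.le).1
        have h3 : 0 < -ta p.2 := by linarith
        have h4 : 0 < Real.Gamma (p.2 - 1) := by linarith
        have h5 : 0 < p.2 := by linarith [h0.1]
        positivity
    · apply ContinuousOn.div t1_cont x1_cont
      intro p hp
      have h0 := RR_bd hp
      have := (x1_bd h0.1 h0.2.1.le h0.2.2.1 h0.2.2.2).1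
      linarith
  · apply Real.continuous_exp.comp_continuousOn
    exact x1_cont.mul (Real.continuous_sin.comp_continuousOn ang_cont)

theorem zz_cont : ContinuousOn (fun p : ℝ × ℝ => zz p.2 (t1 p.1 p.2)) RR := by
  unfold zz
  apply ContinuousOn.mul (Complex.continuous_ofReal.comp_continuousOn t1_cont)
  fun_prop

theorem ML_comp_cont (b : ℝ × ℝ → ℝ) (hb : Continuous b) (hb1 : ∀ p ∈ RR, 1 ≤ b p) :
    ContinuousOn (fun p : ℝ × ℝ => ML p.2 (b p) (zz p.2 (t1 p.1 p.2))) RR := by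
  have h := ML_continuousOn (α₀ := 12 / 7) (β₀ := 1) (by norm_num) one_pos 160000
  refine h.comp (f := fun p : ℝ × ℝ => (p.2, b p, zz p.2 (t1 p.1 p.2))) ?_ ?_
  · exact continuousOn_snd.prodMk (hb.continuousOn.prodMk zz_cont)
  · intro p hp
    have h0 := RR_bd hp
    have h1 := t1_bd h0.1 h0.2.1.le h0.2.2.1 h0.2.2.2
    have h2 := (x1_bd h0.1 h0.2.1.le h0.2.2.1 h0.2.2.2).1
    refine ⟨h0.1, hb1 p hp, ?_⟩
    rw [zz_norm (by linarith)]
    exact h1.2.1

theorem V1_cont : ContinuousOn (fun p : ℝ × ℝ => V1 p.1 p.2) RR := by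
  unfold V1 psi
  have hz := zz_cont
  have hx := Complex.continuous_ofReal.comp_continuousOn x1_cont
  have m1 := ML_comp_cont (fun _ => 1) continuous_const (fun _ _ => le_rfl)
  have m2 := ML_comp_cont (fun _ => 2) continuous_const (fun _ _ => by norm_num)
  have m3 := ML_comp_cont (fun p => p.2) continuous_snd (fun p hp => by linarith [(RR_bd hp).1])
  apply ContinuousOn.div
  · apply ContinuousOn.mul
    · exact (m1.pow 2).sub ((hz.mul m2).mul m3)
    · exact (Complex.continuous_ofReal.comp_continuousOn continuousOn_snd).mul hz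
  · apply ContinuousOn.mul
    · apply ContinuousOn.mul
      · apply ContinuousOn.mul
        · exact Complex.continuous_exp.comp_continuousOn (hx.mul continuousOn_const).neg
        · exact (hx.mul continuousOn_const).neg
      · exact Complex.continuous_ofReal.comp_continuousOn ta_cont
    · exact Complex.continuous_ofReal.comp_continuousOn G_cont
  · intro p hp
    have h0 := RR_bd hp
    have h1 := (ta_neg h0.1 h0.2.1).1
    have h2 := (G_bd h0.1 h0.2.1.le).1
    have h3 := (x1_bd h0.1 h0.2.1.le h0.2.2.1 h0.2.2.2).1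
    have a1 : ((x1 p.1 p.2 : ℝ) : ℂ) ≠ 0 := by exact_mod_cast (by linarith : x1 p.1 p.2 ≠ 0)
    have a2 : ((ta p.2 : ℝ) : ℂ) ≠ 0 := by exact_mod_cast h1.ne
    have a3 : ((Real.Gamma (p.2 - 1) : ℝ) : ℂ) ≠ 0 := by
      exact_mod_cast (by linarith : Real.Gamma (p.2 - 1) ≠ 0)
    exact mul_ne_zero (mul_ne_zero (mul_ne_zero (Complex.exp_ne_zero _)
      (neg_ne_zero.2 (mul_ne_zero a1 Complex.I_ne_zero))) a2) a3

/-- **a zero of the quadratic combination** -/
theorem exists_zero_psi : ∃ α t : ℝ, 12 / 7 ≤ α ∧ α ≤ 1999 / 1000 ∧ 5389 ≤ t ∧ psi α t = 0 := by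
  have hπ := Real.pi_pos
  obtain ⟨a, ha, hae, haf⟩ := last_crossing (f := fun α => rho1 (101 * Real.pi) α) (p := 12 / 7)
    (q := 1999 / 1000) (v := 1 / 3) (by norm_num) (by
      refine rho1_cont.comp (f := fun α : ℝ => ((101 * Real.pi), α)) (by fun_prop) ?_
      intro α hα
      exact ⟨⟨by linarith, by linarith⟩, hα⟩) rho1_left (by linarith [rho1_right])
  -- signs of the trigonometric functions
  have hper : ∀ δ : ℝ, exp (((101 * Real.pi + δ : ℝ) : ℂ) * I) = ⟨-Real.cos δ, -Real.sin δ⟩ := by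
    intro δ
    have e1 : Real.cos (101 * Real.pi + δ) = -Real.cos δ := by
      rw [show 101 * Real.pi + δ = (δ + Real.pi) + (50 : ℕ) * (2 * Real.pi) by push_cast; ring,
        Real.cos_add_nat_mul_two_pi, Real.cos_add_pi]
    have e2 : Real.sin (101 * Real.pi + δ) = -Real.sin δ := by
      rw [show 101 * Real.pi + δ = (δ + Real.pi) + (50 : ℕ) * (2 * Real.pi) by push_cast; ring,
        Real.sin_add_nat_mul_two_pi, Real.sin_add_pi]
    apply Complex.ext
    · rw [Complex.exp_ofReal_mul_I_re, e1]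
    · rw [Complex.exp_ofReal_mul_I_im, e2]
  let φ₁ := 101 * Real.pi - Real.pi / 3
  let φ₂ := 101 * Real.pi + Real.pi / 3
  let F : ℝ × ℝ → ℂ := fun p => V1 (max φ₁ (min p.1 φ₂)) (max a (min p.2 (1999 / 1000)))
  have hφ : φ₁ ≤ φ₂ := by simp only [φ₁, φ₂]; linarith
  have hcl1 : ∀ s : ℝ, max φ₁ (min s φ₂) ∈ Icc φ₁ φ₂ := fun s =>
    ⟨le_max_left _ _, max_le hφ (min_le_right _ _)⟩
  have hcl2 : ∀ s : ℝ, max a (min s (1999 / 1000)) ∈ Icc a (1999 / 1000) := fun s =>
    ⟨le_max_left _ _, max_le ha.2 (min_le_right _ _)⟩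
  have hF : Continuous F := by
    refine V1_cont.comp_continuous (f := fun p : ℝ × ℝ =>
      (max φ₁ (min p.1 φ₂), max a (min p.2 (1999 / 1000)))) (by fun_prop) ?_
    intro p
    exact ⟨hcl1 _, ⟨ha.1.trans (hcl2 _).1, (hcl2 _).2⟩⟩
  have he1 : ∀ s ∈ Icc φ₁ φ₂, max φ₁ (min s φ₂) = s := fun s hs => by
    rw [min_eq_left hs.2, max_eq_right hs.1]
  have he2 : ∀ s ∈ Icc a (1999 / 1000), max a (min s (1999 / 1000)) = s := fun s hs => by
    rw [min_eq_left hs.2, max_eq_right hs.1]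
  have hFe : ∀ s ∈ Icc φ₁ φ₂, ∀ u ∈ Icc a (1999 / 1000), F (s, u) = V1 s u := fun s hs u hu => by
    simp only [F]
    rw [he1 s hs, he2 u hu]
  have h34 : ∀ u ∈ Icc a (1999 / 1000), 12 / 7 ≤ u ∧ u < 2 := fun u hu =>
    ⟨ha.1.trans hu.1, lt_of_le_of_lt hu.2 (by norm_num)⟩
  have haa : a ∈ Icc a (1999 / 1000) := ⟨le_rfl, ha.2⟩
  have hbb : (1999 / 1000 : ℝ) ∈ Icc a (1999 / 1000) := ⟨ha.2, le_rfl⟩
  have h11 : φ₁ ∈ Icc φ₁ φ₂ := ⟨le_rfl, hφ⟩
  have h22 : φ₂ ∈ Icc φ₁ φ₂ := ⟨hφ, le_rfl⟩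
  have h3b := sqrt3_bd
  -- the real part of `exp`
  have hcosr : ∀ s ∈ Icc φ₁ φ₂, -1 ≤ (exp ((s : ℂ) * I)).re ∧ (exp ((s : ℂ) * I)).re ≤ -(1 / 2) := by
    intro s hs
    rw [show (s : ℂ) = ((101 * Real.pi + (s - 101 * Real.pi) : ℝ) : ℂ) by push_cast; ring,
      hper]
    have h5 : |s - 101 * Real.pi| ≤ Real.pi / 3 := by
      rw [abs_le]
      simp only [φ₁, φ₂] at hs
      constructor <;> linarith [hs.1, hs.2]
    have h6 : Real.cos (Real.pi / 3) ≤ Real.cos (s - 101 * Real.pi) := by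
      rw [← Real.cos_abs (s - 101 * Real.pi)]
      exact Real.cos_le_cos_of_nonneg_of_le_pi (abs_nonneg _) (by linarith) h5
    rw [Real.cos_pi_div_three] at h6
    have h7 := Real.cos_le_one (s - 101 * Real.pi)
    constructor
    · show -1 ≤ -Real.cos (s - 101 * Real.pi)
      linarith
    · show -Real.cos (s - 101 * Real.pi) ≤ -(1 / 2)
      linarith
  -- perturbation of `e^{iφ}`
  have hper2 : ∀ (s : ℝ) (η : ℂ), ‖η‖ ≤ 1 / 20 →
      |(exp ((s : ℂ) * I) * η).re| ≤ 1 / 20 ∧ |(exp ((s : ℂ) * I) * η).im| ≤ 1 / 20 := by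
    intro s η hη
    have h5 : ‖exp ((s : ℂ) * I) * η‖ ≤ 1 / 20 := by
      rw [norm_mul, Complex.norm_exp_ofReal_mul_I, one_mul]
      exact hη
    exact ⟨(Complex.abs_re_le_norm _).trans h5, (Complex.abs_im_le_norm _).trans h5⟩
  have hsplit : ∀ (ρ s : ℝ) (η₁ η₂ : ℂ), -(1 + η₁ + (ρ : ℂ) * exp ((s : ℂ) * I) * (1 + η₂)) =
      -(1 + η₁ + ((ρ : ℂ) * exp ((s : ℂ) * I) + (ρ : ℂ) * (exp ((s : ℂ) * I) * η₂))) := by
    intro ρ s η₁ η₂
    ring
  obtain ⟨s, hs, u, hu, hz⟩ := Pool.Agent.Helper577.miranda hF hφ ha.2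
    (by
      intro s hs
      rw [hFe s hs a haa]
      obtain ⟨η₁, η₂, hη₁, hη₂, e⟩ := V1_formula (h34 a haa).1 (h34 a haa).2 hs.1 hs.2
      have h5 := (rho1_ratio (h34 a haa).1 (h34 a haa).2 hs.1 hs.2).2
      have h6 := rho1_pos (h34 a haa).1 (h34 a haa).2 hs.1 hs.2
      have h7 := abs_le.1 ((Complex.abs_re_le_norm η₁).trans hη₁)
      have h9 := abs_le.1 (hper2 s η₂ hη₂).1
      have hae' : rho1 (101 * Real.pi) a = 1 / 3 := hae
      rw [hae'] at h5
      rw [e, hsplit]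
      have h8 := (hcosr s hs).1
      simp only [Complex.neg_re, Complex.add_re, Complex.re_ofReal_mul, Complex.one_re]
      nlinarith)
    (by
      intro s hs
      rw [hFe s hs _ hbb]
      obtain ⟨η₁, η₂, hη₁, hη₂, e⟩ := V1_formula (h34 _ hbb).1 (h34 _ hbb).2 hs.1 hs.2
      have h5 := (rho1_ratio (h34 _ hbb).1 (h34 _ hbb).2 hs.1 hs.2).1
      have h6 := rho1_right
      have h7 := abs_le.1 ((Complex.abs_re_le_norm η₁).trans hη₁)
      have h9 := abs_le.1 (hper2 s η₂ hη₂).1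
      rw [e, hsplit]
      have h8 := (hcosr s hs).2
      simp only [Complex.neg_re, Complex.add_re, Complex.re_ofReal_mul, Complex.one_re]
      nlinarith)
    (by
      intro u hu
      rw [hFe φ₁ h11 u hu]
      obtain ⟨η₁, η₂, hη₁, hη₂, e⟩ := V1_formula (h34 u hu).1 (h34 u hu).2 h11.1 h11.2
      have h5 := (rho1_ratio (h34 u hu).1 (h34 u hu).2 h11.1 h11.2).1
      have h6 : 1 / 3 ≤ rho1 (101 * Real.pi) u := haf u hu
      have h7 := abs_le.1 ((Complex.abs_im_le_norm η₁).trans hη₁)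
      have h9 := abs_le.1 (hper2 φ₁ η₂ hη₂).2
      rw [e, hsplit]
      have h8 : (exp ((φ₁ : ℂ) * I)).im = Real.sqrt 3 / 2 := by
        rw [show (φ₁ : ℂ) = ((101 * Real.pi + (-(Real.pi / 3)) : ℝ) : ℂ) by
          simp only [φ₁]; push_cast; ring, hper]
        show -Real.sin (-(Real.pi / 3)) = _
        rw [Real.sin_neg, Real.sin_pi_div_three, neg_neg]
      simp only [Complex.neg_im, Complex.add_im, Complex.im_ofReal_mul, Complex.one_im, h8]
      nlinarith)
    (by
      intro u hu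
      rw [hFe φ₂ h22 u hu]
      obtain ⟨η₁, η₂, hη₁, hη₂, e⟩ := V1_formula (h34 u hu).1 (h34 u hu).2 h22.1 h22.2
      have h5 := (rho1_ratio (h34 u hu).1 (h34 u hu).2 h22.1 h22.2).1
      have h6 : 1 / 3 ≤ rho1 (101 * Real.pi) u := haf u hu
      have h7 := abs_le.1 ((Complex.abs_im_le_norm η₁).trans hη₁)
      have h9 := abs_le.1 (hper2 φ₂ η₂ hη₂).2
      rw [e, hsplit]
      have h8 : (exp ((φ₂ : ℂ) * I)).im = -(Real.sqrt 3 / 2) := by
        rw [show (φ₂ : ℂ) = ((101 * Real.pi + (Real.pi / 3) : ℝ) : ℂ) by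
          simp only [φ₂], hper]
        show -Real.sin ((Real.pi / 3)) = _
        rw [Real.sin_pi_div_three]
      simp only [Complex.neg_im, Complex.add_im, Complex.im_ofReal_mul, Complex.one_im, h8]
      nlinarith)
  rw [hFe s hs u hu] at hz
  have hu' := h34 u hu
  have h1 := (ta_neg hu'.1 hu'.2).1
  have h2 := (G_bd hu'.1 hu'.2.le).1
  have h3 := (x1_bd hu'.1 hu'.2.le hs.1 hs.2).1
  have h4 := (t1_bd hu'.1 hu'.2.le hs.1 hs.2).1
  refine ⟨u, t1 s u, hu'.1, hu.2, by linarith, ?_⟩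
  have a1 : ((x1 s u : ℝ) : ℂ) ≠ 0 := by exact_mod_cast (by linarith : x1 s u ≠ 0)
  have a2 : ((ta u : ℝ) : ℂ) ≠ 0 := by exact_mod_cast h1.ne
  have a3 : ((Real.Gamma (u - 1) : ℝ) : ℂ) ≠ 0 := by
    exact_mod_cast (by linarith : Real.Gamma (u - 1) ≠ 0)
  unfold V1 at hz
  have h6 := (div_eq_zero_iff.1 hz).resolve_right (mul_ne_zero (mul_ne_zero (mul_ne_zero
    (Complex.exp_ne_zero _) (neg_ne_zero.2 (mul_ne_zero a1 Complex.I_ne_zero))) a2) a3)
  refine (mul_eq_zero.1 h6).resolve_right (mul_ne_zero ?_ (zz_ne (by linarith)))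
  exact_mod_cast (by linarith [hu'.1] : u ≠ 0)

end Pool.Agent.Q80.HK
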